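import Mathlib
import Pool.Agent.LibGP48.Defs

/-!
# LibGT48: definitions and basic lemmas
Gap theorem for residually (bounded nonabelian composition factors) groups (MP_419902_al), helper48.
-/

namespace GT48

open Subgroup GP48

universe u

/-! ## the class of groups -/

/-- every nonabelian simple section of `H` has order at most `B` -/
def Bd (B : ℕ) (H : Type*) [Group H] : Prop :=
  ∀ (M : Subgroup H) (N : Subgroup M) [N.Normal], IsSimpleGroup (M ⧸ N) →
    (∃ a b : M ⧸ N, a * b ≠ b * a) → Nat.card (M ⧸ N) ≤ B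

/-! ## verbal subgroups of the words `[x^e, y^e]` -/

section verbal

variable {G : Type*} [Group G]

/-- the subgroup generated by the elements `[x^e, y^e]`, `x, y` in `H` -/
def ver (e : ℕ) (H : Subgroup G) : Subgroup G :=
  Subgroup.closure {z | ∃ x ∈ H, ∃ y ∈ H, z = x ^ e * y ^ e * (x ^ e)⁻¹ * (y ^ e)⁻¹}

/-- iterated verbal subgroups -/
def vs (e : ℕ) (H : Subgroup G) : ℕ → Subgroup G
  | 0 => H
  | i + 1 => ver e (vs e H i)

@[simp] lemma vs_zero (e : ℕ) (H : Subgroup G) : vs e H 0 = H := rfl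

lemma vs_succ (e : ℕ) (H : Subgroup G) (i : ℕ) : vs e H (i + 1) = ver e (vs e H i) := rfl

lemma ver_mem {e : ℕ} {H : Subgroup G} {x y : G} (hx : x ∈ H) (hy : y ∈ H) :
    x ^ e * y ^ e * (x ^ e)⁻¹ * (y ^ e)⁻¹ ∈ ver e H :=
  Subgroup.subset_closure ⟨x, hx, y, hy, rfl⟩

lemma ver_mono {e : ℕ} {H K : Subgroup G} (h : H ≤ K) : ver e H ≤ ver e K := by
  apply Subgroup.closure_mono
  rintro z ⟨x, hx, y, hy, rfl⟩
  exact ⟨x, h hx, y, h hy, rfl⟩

lemma ver_le (e : ℕ) (H : Subgroup G) : ver e H ≤ H := by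
  rw [ver, Subgroup.closure_le]
  rintro z ⟨x, hx, y, hy, rfl⟩
  exact H.mul_mem (H.mul_mem (H.mul_mem (H.pow_mem hx e) (H.pow_mem hy e))
    (H.inv_mem (H.pow_mem hx e))) (H.inv_mem (H.pow_mem hy e))

lemma ver_le_comm (e : ℕ) (H : Subgroup G) : ver e H ≤ ⁅H, H⁆ := by
  rw [ver, Subgroup.closure_le]
  rintro z ⟨x, hx, y, hy, rfl⟩
  exact commutator_mem_commutator (H.pow_mem hx e) (H.pow_mem hy e)

lemma vs_mono {e : ℕ} {H K : Subgroup G} (h : H ≤ K) (i : ℕ) : vs e H i ≤ vs e K i := by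
  induction i with
  | zero => exact h
  | succ i ih => exact ver_mono ih

lemma vs_antitone (e : ℕ) (H : Subgroup G) : Antitone (vs e H) :=
  antitone_nat_of_succ_le fun i => ver_le e _

lemma vs_le (e : ℕ) (H : Subgroup G) (i : ℕ) : vs e H i ≤ H := vs_antitone e H (Nat.zero_le i)

lemma vs_add (e : ℕ) (H : Subgroup G) (i j : ℕ) : vs e H (i + j) = vs e (vs e H i) j := by
  induction j with
  | zero => rfl
  | succ j ih => rw [← Nat.add_assoc, vs_succ, vs_succ, ih]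

lemma ver_map {G' : Type*} [Group G'] (f : G →* G') (e : ℕ) (H : Subgroup G) :
    (ver e H).map f = ver e (H.map f) := by
  rw [ver, ver, MonoidHom.map_closure]
  congr 1
  ext z
  constructor
  · rintro ⟨w, ⟨x, hx, y, hy, rfl⟩, rfl⟩
    exact ⟨f x, mem_map_of_mem f hx, f y, mem_map_of_mem f hy, by
      simp only [map_mul, map_inv, map_pow]⟩
  · rintro ⟨_, ⟨x, hx, rfl⟩, _, ⟨y, hy, rfl⟩, rfl⟩
    exact ⟨_, ⟨x, hx, y, hy, rfl⟩, by simp only [map_mul, map_inv, map_pow]⟩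

lemma vs_map {G' : Type*} [Group G'] (f : G →* G') (e : ℕ) (H : Subgroup G) (i : ℕ) :
    (vs e H i).map f = vs e (H.map f) i := by
  induction i with
  | zero => rfl
  | succ i ih => rw [vs_succ, ver_map, ih, vs_succ]

instance ver_normal (e : ℕ) (H : Subgroup G) [hH : H.Normal] : (ver e H).Normal := by
  constructor
  intro n hn g
  have h1 : (ver e H).map (MulAut.conj g).toMonoidHom = ver e H := by
    rw [ver_map]
    congr 1
    ext x
    constructor
    · rintro ⟨y, hy, rfl⟩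
      exact hH.conj_mem y hy g
    · intro hx
      refine ⟨g⁻¹ * x * g, ?_, ?_⟩
      · have := hH.conj_mem x hx g⁻¹
        rwa [inv_inv] at this
      · show g * (g⁻¹ * x * g) * g⁻¹ = x
        group
  rw [← h1]
  exact ⟨n, hn, rfl⟩

instance vs_normal (e : ℕ) (H : Subgroup G) [H.Normal] (i : ℕ) : (vs e H i).Normal := by
  induction i with
  | zero => simpa
  | succ i ih => rw [vs_succ]; infer_instance

/-- some term of index `L` of the series of `H` is in `K`, `2^L <= N` -/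
def VL (e N : ℕ) (H K : Subgroup G) : Prop := ∃ L, vs e H L ≤ K ∧ 2 ^ L ≤ N

lemma VL.trans {e N1 N2 : ℕ} {H M K : Subgroup G} (h1 : VL e N1 H M) (h2 : VL e N2 M K) :
    VL e (N1 * N2) H K := by
  obtain ⟨L1, h3, h4⟩ := h1
  obtain ⟨L2, h5, h6⟩ := h2
  refine ⟨L1 + L2, ?_, ?_⟩
  · rw [vs_add]
    exact (vs_mono h3 L2).trans h5
  · rw [pow_add]
    exact Nat.mul_le_mul h4 h6

lemma VL.mono {e N N' : ℕ} {H K : Subgroup G} (h : VL e N H K) (hN : N ≤ N') : VL e N' H K := by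
  obtain ⟨L, h1, h2⟩ := h
  exact ⟨L, h1, h2.trans hN⟩

lemma VL.mono_left {e N : ℕ} {H H' K : Subgroup G} (h : VL e N H K) (hH : H' ≤ H) :
    VL e N H' K := by
  obtain ⟨L, h1, h2⟩ := h
  exact ⟨L, (vs_mono hH L).trans h1, h2⟩

lemma VL.mono_right {e N : ℕ} {H K K' : Subgroup G} (h : VL e N H K) (hK : K ≤ K') :
    VL e N H K' := by
  obtain ⟨L, h1, h2⟩ := h
  exact ⟨L, h1.trans hK, h2⟩

lemma VL.iInf {ι : Sort*} {e N : ℕ} (hN : 1 ≤ N) {H : Subgroup G} {K : ι → Subgroup G}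
    (h : ∀ i, VL e N H (K i)) : VL e N H (⨅ i, K i) := by
  refine ⟨Nat.log 2 N, le_iInf fun i => ?_, Nat.pow_log_le_self 2 (by omega)⟩
  obtain ⟨L, h1, h2⟩ := h i
  exact (vs_antitone e H (Nat.le_log_of_pow_le (by norm_num) h2)).trans h1

lemma VL.comap {G' : Type*} [Group G'] (f : G →* G') {e N : ℕ} {H' K' : Subgroup G'}
    (h : VL e N H' K') {H : Subgroup G} (hH : H.map f ≤ H') : VL e N H (K'.comap f) := by
  obtain ⟨L, h1, h2⟩ := h
  refine ⟨L, ?_, h2⟩
  rw [← map_le_iff_le_comap, vs_map]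
  exact (vs_mono hH L).trans h1

lemma VL.of_comm {e : ℕ} {H K : Subgroup G} (h : ⁅H, H⁆ ≤ K) : VL e 2 H K :=
  ⟨1, (ver_le_comm e _).trans h, by norm_num⟩

end verbal

/-! ## permutation bound -/

/-- the bound for permutation groups of degree `k` in the class `Bd B` -/
def PLs (B c k : ℕ) : Prop :=
  ∀ (G : Type u) [Group G] (X : Type u) [MulAction G X] [Finite X], Nat.card X = k → Bd B G →
    VL (Nat.factorial B) (k ^ c) (⊤ : Subgroup G) (MulAction.toPermHom G X).ker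

/-- the exponent of the permutation bound -/
def cc (B : ℕ) : ℕ := 2 * (B * B) + 40

/-! ## components of a minimal normal subgroup -/

/-- `Ω` is the set of components of `T` -/
structure CompSys {P : Type*} [Group P] (T : Subgroup P) (Ω : Set (Subgroup P)) : Prop where
  ne : Ω.Nonempty
  conj : ∀ g : P, ∀ A ∈ Ω, A.map (MulAut.conj g).toMonoidHom ∈ Ω
  trans : ∀ A ∈ Ω, ∀ A' ∈ Ω, ∃ g : P, A.map (MulAut.conj g).toMonoidHom = A'
  simple : ∀ A ∈ Ω, IsSimpleGroup A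
  na : ∀ A ∈ Ω, ∃ a ∈ A, ∃ b ∈ A, a * b ≠ b * a
  comm : ∀ A ∈ Ω, ∀ A' ∈ Ω, A ≠ A' → ∀ a ∈ A, ∀ b ∈ A', a * b = b * a
  sup : sSup Ω = T

/-- elements that normalise every component -/
def base {P : Type*} [Group P] (Ω : Set (Subgroup P)) : Subgroup P where
  carrier := {x | ∀ A ∈ Ω, A.map (MulAut.conj x).toMonoidHom = A}
  one_mem' := by
    intro A _
    ext y
    simp [mem_map]
  mul_mem' := by
    intro x y hx hy A hA
    have h1 : (MulAut.conj (x * y)).toMonoidHom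
        = (MulAut.conj x).toMonoidHom.comp (MulAut.conj y).toMonoidHom := by
      ext z
      simp [mul_assoc]
    rw [h1, ← map_map, hy A hA, hx A hA]
  inv_mem' := by
    intro x hx A hA
    have h1 : (MulAut.conj x⁻¹).toMonoidHom.comp (MulAut.conj x).toMonoidHom
        = MonoidHom.id P := by
      ext z
      simp [mul_assoc]
    have h2 := congrArg (fun K => K.map (MulAut.conj x⁻¹).toMonoidHom) (hx A hA)
    simp only [map_map, h1, map_id] at h2
    exact h2.symm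

/-! ## products of conjugates -/

/-- the conjugates of `a` and `a⁻¹` -/
def cj {P : Type*} [Group P] (a : P) : Set P :=
  {x | ∃ g : P, x = g * a * g⁻¹ ∨ x = g * a⁻¹ * g⁻¹}

/-- products of at most `m` conjugates of `a` and `a⁻¹` -/
def Pr {P : Type*} [Group P] (a : P) (m : ℕ) : Set P :=
  {x | ∃ l : List P, l.length ≤ m ∧ (∀ y ∈ l, y ∈ cj a) ∧ l.prod = x}

section Pr

variable {P : Type*} [Group P] {a : P}

lemma cj_conj {x : P} (h : x ∈ cj a) (g : P) : g * x * g⁻¹ ∈ cj a := by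
  obtain ⟨k, h | h⟩ := h
  · exact ⟨g * k, Or.inl (by rw [h]; group)⟩
  · exact ⟨g * k, Or.inr (by rw [h]; group)⟩

lemma cj_inv {x : P} (h : x ∈ cj a) : x⁻¹ ∈ cj a := by
  obtain ⟨k, h | h⟩ := h
  · exact ⟨k, Or.inr (by rw [h]; group)⟩
  · exact ⟨k, Or.inl (by rw [h]; group)⟩

lemma Pr_one (m : ℕ) : (1 : P) ∈ Pr a m := ⟨[], by simp, by simp, rfl⟩

lemma Pr_mono {m n : ℕ} (h : m ≤ n) : Pr a m ⊆ Pr a n := by
  rintro x ⟨l, h1, h2, h3⟩
  exact ⟨l, h1.trans h, h2, h3⟩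

lemma Pr_self : a ∈ Pr a 1 := ⟨[a], by simp, by
  intro y hy
  rw [List.mem_singleton] at hy
  subst hy
  exact ⟨1, Or.inl (by group)⟩, by simp⟩

lemma Pr_mul {m n : ℕ} {x y : P} (hx : x ∈ Pr a m) (hy : y ∈ Pr a n) :
    x * y ∈ Pr a (m + n) := by
  obtain ⟨l, h1, h2, h3⟩ := hx
  obtain ⟨l', h1', h2', h3'⟩ := hy
  refine ⟨l ++ l', by rw [List.length_append]; omega, ?_, by rw [List.prod_append, h3, h3']⟩
  intro z hz
  rcases List.mem_append.1 hz with hz | hz
  · exact h2 z hz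
  · exact h2' z hz

lemma Pr_inv {m : ℕ} {x : P} (hx : x ∈ Pr a m) : x⁻¹ ∈ Pr a m := by
  obtain ⟨l, h1, h2, h3⟩ := hx
  refine ⟨(l.map (·⁻¹)).reverse, by simpa using h1, ?_, ?_⟩
  · intro y hy
    simp only [List.mem_reverse, List.mem_map] at hy
    obtain ⟨z, hz, rfl⟩ := hy
    exact cj_inv (h2 z hz)
  · rw [← h3, List.prod_inv_reverse]

lemma Pr_conj {m : ℕ} {x : P} (hx : x ∈ Pr a m) (g : P) : g * x * g⁻¹ ∈ Pr a m := by
  obtain ⟨l, h1, h2, h3⟩ := hx
  refine ⟨l.map (fun y => g * y * g⁻¹), by simpa using h1, ?_, ?_⟩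
  · intro y hy
    obtain ⟨z, hz, rfl⟩ := List.mem_map.1 hy
    exact cj_conj (h2 z hz) g
  · rw [← h3]
    exact (map_list_prod (MulAut.conj g) l).symm

lemma Pr_pow {m : ℕ} {x : P} (hx : x ∈ Pr a m) (j : ℕ) : x ^ j ∈ Pr a (j * m) := by
  induction j with
  | zero => rw [pow_zero]; exact Pr_one _
  | succ j ih =>
    rw [pow_succ, Nat.succ_mul]
    exact Pr_mul ih hx

lemma Pr_mem {m : ℕ} {x : P} (hx : x ∈ Pr a m) {N : Subgroup P} (hN : N.Normal) (ha : a ∈ N) :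
    x ∈ N := by
  obtain ⟨l, _, h2, rfl⟩ := hx
  apply N.list_prod_mem
  intro y hy
  obtain ⟨g, h | h⟩ := h2 y hy
  · rw [h]
    exact hN.conj_mem _ ha g
  · rw [h]
    exact hN.conj_mem _ (N.inv_mem ha) g

end Pr

/-- the scales of step (2) -/
def msc (B : ℕ) : ℕ → ℕ
  | 0 => 4 * B
  | j + 1 => Nat.factorial B * msc B j + 4 * B

/-- the constant `s` of step (2) -/
def ssc (B : ℕ) : ℕ := msc B B

end GT48
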