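import Mathlib
import Pool.Agent.LibGT48.Defs

/-!
# LibGT48 A0 (SHORT/MEDIUM, only Mathlib): words of length at most the order

For n : ℕ let B_n = products of lists of length <= n with letters in U. B_n increasing, 1 in B_0. If B_n = B_(n+1) then B_n is closed under right multiplication by U, so contains closure U = ⊤ (Subgroup.closure_induction, U closed under inverse).
If strictly increasing up to n then card B_n >= n+1. So B_(card A) = everything.
-/

namespace GT48

open Subgroup GP48

universe u

theorem A0 {A : Type*} [Group A] [Finite A] (U : Set A) (hU : ∀ u ∈ U, u⁻¹ ∈ U)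
    (hgen : Subgroup.closure U = ⊤) (x : A) :
    ∃ l : List A, l.length ≤ Nat.card A ∧ (∀ y ∈ l, y ∈ U) ∧ l.prod = x := by
  classical
  let B : ℕ → Set A := fun n => {x | ∃ l : List A, l.length ≤ n ∧ (∀ y ∈ l, y ∈ U) ∧ l.prod = x}
  have hmono : ∀ n m, n ≤ m → B n ⊆ B m := by
    rintro n m h x ⟨l, h1, h2, h3⟩
    exact ⟨l, h1.trans h, h2, h3⟩
  have hone : ∀ n, (1 : A) ∈ B n := fun n => ⟨[], Nat.zero_le n, by simp, List.prod_nil⟩
  have hstep : ∀ n, ∀ y ∈ U, ∀ z ∈ B n, y * z ∈ B (n + 1) := by
    rintro n y hy z ⟨l, h1, h2, h3⟩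
    refine ⟨y :: l, Nat.succ_le_succ h1, ?_, by rw [List.prod_cons, h3]⟩
    intro w hw
    rcases List.mem_cons.1 hw with rfl | hw
    · exact hy
    · exact h2 w hw
  have hex : ∃ n, n ≤ Nat.card A ∧ B (n + 1) ⊆ B n := by
    by_contra hcon
    push Not at hcon
    have hc : ∀ n, n ≤ Nat.card A → n + 1 ≤ (B n).ncard := by
      intro n
      induction n with
      | zero =>
        intro _
        exact Nat.succ_le_of_lt ((Set.ncard_pos (Set.toFinite _)).2 ⟨1, hone 0⟩)
      | succ n ih =>
        intro hn
        have h1 := ih (by omega)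
        have h2 : (B n).ncard < (B (n + 1)).ncard :=
          Set.ncard_lt_ncard ⟨hmono n (n + 1) (Nat.le_succ n), hcon n (by omega)⟩ (Set.toFinite _)
        omega
    have h1 := hc (Nat.card A) le_rfl
    have h2 : (B (Nat.card A)).ncard ≤ Nat.card A := by
      rw [← Set.ncard_univ]
      exact Set.ncard_le_ncard (Set.subset_univ _) (Set.toFinite _)
    omega
  obtain ⟨n, hn, hB⟩ := hex
  have hall : ∀ l : List A, (∀ y ∈ l, y ∈ U) → l.prod ∈ B n := by
    intro l
    induction l with
    | nil =>
      intro _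
      exact hone n
    | cons y l ih =>
      intro h
      rw [List.prod_cons]
      exact hB (hstep n y (h y (List.mem_cons_self)) _ (ih fun w hw => h w (List.mem_cons_of_mem _ hw)))
  have hx : x ∈ Subgroup.closure U := by
    rw [hgen]
    exact Subgroup.mem_top x
  have hx2 : x ∈ (Subgroup.closure U).toSubmonoid := hx
  rw [Subgroup.closure_toSubmonoid] at hx2
  obtain ⟨l, hl, rfl⟩ := Submonoid.exists_list_of_mem_closure hx2
  have hlU : ∀ y ∈ l, y ∈ U := by
    intro y hy
    rcases hl y hy with h | h
    · exact h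
    · have := hU _ (Set.mem_inv.1 h)
      rwa [inv_inv] at this
  exact hmono n _ hn (hall l hlU)

end GT48
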