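import Mathlib
import Pool.Agent.LibGT48.Defs
import Pool.Agent.LibGT48.A0

/-!
# LibGT48 A1 (MEDIUM, Defs + A0): components are contained in Pr(4 |A|)

a ∉ centralizer T (= ⊥), so some A0 in Ω is not centralised by a (T = sSup Ω). Claim: there is u in A0, u ≠ 1, u in Pr a 4. Let A' = A0.map (conj a) in Ω. If A' = A0: some t in A0 with a t a⁻¹ ≠ t; u = a * (t * a⁻¹ * t⁻¹) = (a t a⁻¹) t⁻¹ in A0, ≠ 1,
in Pr a 2 (Pr_self, Pr_inv, Pr_conj, Pr_mul). If A' ≠ A0: t, s in A0 with t⁻¹ s t s⁻¹ ≠ 1 (h.na; take t = the inverse of one of the two); tau = a * (t * a⁻¹ * t⁻¹) = t' * t⁻¹ with t' = a t a⁻¹ in A', in Pr a 2; u = tau * (s * tau⁻¹ * s⁻¹) in Pr a 4;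
t' commutes with A0 (h.comm), so u = t⁻¹ s t s⁻¹. For any A in Ω: A = g A0 g⁻¹ (h.trans), u_A = g u g⁻¹ in A, ≠ 1, in Pr a 4 (Pr_conj). U = {s u_A s⁻¹, s u_A⁻¹ s⁻¹ : s in A} as a set in the group A: closed under inverse, closure U is a normal subgroup of the
simple group A, ≠ ⊥, so ⊤. A0 (theorem) gives x in A as a product of at most Nat.card A elements of U, each in Pr a 4: x in Pr a (4 * Nat.card A). (A is finite because P is.)
-/

namespace GT48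

open Subgroup GP48

universe u

private theorem A1_comm {P : Type*} [Group P] {t' t s : P} (h : ∀ b ∈ ({s, s⁻¹, t⁻¹ * s * t * s⁻¹} : Set P),
    t' * b = b * t') : (t' * t⁻¹) * (s * (t' * t⁻¹)⁻¹ * s⁻¹) = t⁻¹ * s * t * s⁻¹ := by
  have h1 : t' * s⁻¹ = s⁻¹ * t' := h _ (by simp)
  have h2 : t' * (t⁻¹ * s * t * s⁻¹) = (t⁻¹ * s * t * s⁻¹) * t' := h _ (by simp)
  have h3 : t'⁻¹ * s⁻¹ = s⁻¹ * t'⁻¹ := by
    rw [inv_mul_eq_iff_eq_mul, ← mul_assoc, h1, mul_assoc, mul_inv_cancel, mul_one]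
  calc (t' * t⁻¹) * (s * (t' * t⁻¹)⁻¹ * s⁻¹) = t' * t⁻¹ * s * t * (t'⁻¹ * s⁻¹) := by group
    _ = t' * (t⁻¹ * s * t * s⁻¹) * t'⁻¹ := by rw [h3]; group
    _ = t⁻¹ * s * t * s⁻¹ := by rw [h2, mul_assoc, mul_inv_cancel, mul_one]

private theorem A1_list {P : Type*} [Group P] {a : P} {A : Subgroup P} (l : List A)
    (hl : ∀ y ∈ l, ((y : A) : P) ∈ Pr a 4) : ((l.prod : A) : P) ∈ Pr a (4 * l.length) := by
  induction l with
  | nil => simpa using Pr_one (a := a) 0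
  | cons y l ih =>
    rw [List.prod_cons, Subgroup.coe_mul, List.length_cons, Nat.mul_succ, Nat.add_comm]
    exact Pr_mul (hl y (by simp)) (ih fun z hz => hl z (by simp [hz]))

private theorem A1_step {P : Type*} [Group P] {T : Subgroup P} {Ω : Set (Subgroup P)}
    (h : CompSys T Ω) (hC : centralizer (T : Set P) = ⊥) {a : P} (ha : a ≠ 1) :
    ∃ A0 ∈ Ω, ∃ u ∈ A0, u ≠ 1 ∧ u ∈ Pr a 4 := by
  have h1 : ∃ A0 ∈ Ω, ∃ t ∈ A0, a * t ≠ t * a := by
    by_contra hcon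
    push Not at hcon
    apply ha
    have h2 : T ≤ Subgroup.centralizer {a} := by
      rw [← h.sup]
      refine sSup_le fun A hA t ht => ?_
      rw [Subgroup.mem_centralizer_iff]
      intro b hb
      rw [Set.mem_singleton_iff.1 hb]
      exact hcon A hA t ht
    have h3 : a ∈ centralizer (T : Set P) := by
      rw [Subgroup.mem_centralizer_iff]
      intro t ht
      have := Subgroup.mem_centralizer_iff.1 (h2 ht) a rfl
      exact this.symm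
    rw [hC] at h3
    exact Subgroup.mem_bot.1 h3
  obtain ⟨A0, hA0, t, ht, hat⟩ := h1
  refine ⟨A0, hA0, ?_⟩
  have hmem : ∀ x ∈ A0, a * x * a⁻¹ ∈ A0.map (MulAut.conj a).toMonoidHom := fun x hx =>
    ⟨x, hx, rfl⟩
  have hP : ∀ x : P, (a * x * a⁻¹) * x⁻¹ ∈ Pr a 2 := by
    intro x
    have h4 : (a * x * a⁻¹) * x⁻¹ = a * (x * a⁻¹ * x⁻¹) := by group
    rw [h4]
    exact Pr_mul Pr_self (Pr_conj (Pr_inv Pr_self) x)
  by_cases hA : A0.map (MulAut.conj a).toMonoidHom = A0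
  · refine ⟨(a * t * a⁻¹) * t⁻¹, A0.mul_mem ?_ (A0.inv_mem ht), ?_, Pr_mono (by norm_num) (hP t)⟩
    · have := hmem t ht
      rwa [hA] at this
    · intro h5
      apply hat
      have h6 : a * t * a⁻¹ = t := mul_inv_eq_one.1 h5
      exact mul_inv_eq_iff_eq_mul.1 h6
  · obtain ⟨p, hp, s, hs, hps⟩ := h.na A0 hA0
    have hcomm := h.comm _ (h.conj a A0 hA0) A0 hA0 hA
    have hu : (a * p⁻¹ * a⁻¹ * (p⁻¹)⁻¹) * (s * (a * p⁻¹ * a⁻¹ * (p⁻¹)⁻¹)⁻¹ * s⁻¹) =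
        (p⁻¹)⁻¹ * s * p⁻¹ * s⁻¹ := by
      refine A1_comm (t' := a * p⁻¹ * a⁻¹) (t := p⁻¹) (s := s) fun b hb => ?_
      refine hcomm _ (hmem _ (A0.inv_mem hp)) b ?_
      rcases hb with rfl | rfl | hb
      · exact hs
      · exact A0.inv_mem hs
      · rw [Set.mem_singleton_iff.1 hb]
        exact A0.mul_mem (A0.mul_mem (A0.mul_mem (A0.inv_mem (A0.inv_mem hp)) hs)
          (A0.inv_mem hp)) (A0.inv_mem hs)
    refine ⟨(p⁻¹)⁻¹ * s * p⁻¹ * s⁻¹, ?_, ?_, ?_⟩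
    · exact A0.mul_mem (A0.mul_mem (A0.mul_mem (A0.inv_mem (A0.inv_mem hp)) hs)
          (A0.inv_mem hp)) (A0.inv_mem hs)
    · intro h5
      apply hps
      rw [inv_inv] at h5
      have h6 : p * s * p⁻¹ = s := mul_inv_eq_one.1 h5
      exact mul_inv_eq_iff_eq_mul.1 h6
    · rw [← hu]
      exact Pr_mul (m := 2) (n := 2) (hP _) (Pr_conj (Pr_inv (hP _)) s)

theorem A1 {P : Type*} [Group P] [Finite P] {T : Subgroup P} {Ω : Set (Subgroup P)}
    (h : CompSys T Ω) (hC : centralizer (T : Set P) = ⊥) {a : P} (ha : a ≠ 1) :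
    ∀ A ∈ Ω, ∀ x ∈ A, x ∈ Pr a (4 * Nat.card A) := by
  intro A hA x hx
  obtain ⟨A0', hA0, u, hu, hu1, huP⟩ := A1_step h hC ha
  obtain ⟨g, rfl⟩ := h.trans A0' hA0 A hA
  have hv : g * u * g⁻¹ ∈ A0'.map (MulAut.conj g).toMonoidHom := ⟨u, hu, rfl⟩
  obtain ⟨v, hvd⟩ : ∃ v : (A0'.map (MulAut.conj g).toMonoidHom : Subgroup P),
      (v : P) = g * u * g⁻¹ := ⟨⟨_, hv⟩, rfl⟩
  have hv1 : v ≠ 1 := by
    rintro rfl
    apply hu1
    have h1 : g * u * g⁻¹ = 1 := by rw [← hvd]; rfl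
    exact conj_eq_one_iff.1 h1
  have hvP : (v : P) ∈ Pr a 4 := by
    rw [hvd]
    exact Pr_conj huP g
  have hs := h.simple _ hA
  let U : Set (A0'.map (MulAut.conj g).toMonoidHom : Subgroup P) :=
    {y | ∃ s, y = s * v * s⁻¹ ∨ y = s * v⁻¹ * s⁻¹}
  have hUi : ∀ y ∈ U, y⁻¹ ∈ U := by
    rintro y ⟨s, h1 | h1⟩
    · exact ⟨s, Or.inr (by rw [h1]; group)⟩
    · exact ⟨s, Or.inl (by rw [h1]; group)⟩
  have hgen : Subgroup.closure U = ⊤ := by
    have h1 : Subgroup.normalClosure {v} ≤ Subgroup.closure U := by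
      refine Subgroup.closure_mono ?_
      intro y hy
      rw [Group.mem_conjugatesOfSet_iff] at hy
      obtain ⟨b, hb, hby⟩ := hy
      rw [Set.mem_singleton_iff.1 hb] at hby
      obtain ⟨c, hc⟩ := isConj_iff.1 hby
      exact ⟨c, Or.inl hc.symm⟩
    rcases hs.eq_bot_or_eq_top_of_normal (Subgroup.normalClosure {v}) inferInstance with h2 | h2
    · exfalso
      have h3 : v ∈ Subgroup.normalClosure {v} := Subgroup.subset_normalClosure rfl
      rw [h2] at h3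
      exact hv1 (Subgroup.mem_bot.1 h3)
    · exact top_le_iff.1 (h2 ▸ h1)
  obtain ⟨l, hl1, hl2, hl3⟩ := A0 U hUi hgen ⟨x, hx⟩
  have hlP : ∀ y ∈ l, ((y : (A0'.map (MulAut.conj g).toMonoidHom : Subgroup P)) : P) ∈
      Pr a 4 := by
    intro y hy
    obtain ⟨s, h1 | h1⟩ := hl2 y hy
    · rw [h1]
      exact Pr_conj hvP _
    · rw [h1]
      exact Pr_conj (Pr_inv hvP) _
  have h4 := A1_list l hlP
  rw [hl3] at h4
  exact Pr_mono (Nat.mul_le_mul_left 4 hl1) h4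

end GT48
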