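import Mathlib
import Pool.Agent.LibGT48.Defs
import Pool.Agent.LibGT48.A1

/-!
# LibGT48 A2 (MEDIUM/STRONG, Defs + A1): the key step

Let σ in Pr a m, suppose σ^(e' p^(k-1)) ∉ base Ω: some A in Ω with A.map (conj (σ^(e' p^(k-1)))) ≠ A. e' ≥ 1 (p ∤ e'). σ' = σ^e' in Pr a (e' * m) (Pr_pow). σ in Pr a (e' m + 4B) (Pr_mono, m <= e' m), so σ'^(p^k) = σ^(e' p^k) = 1.
Let f : Subgroup P → Subgroup P be K ↦ K.map (conj σ'); f^[j] K = K.map (conj (σ'^j)). f^[p^k] A = A, f^[p^(k-1)] A ≠ A, so Function.minimalPeriod f A divides p^k and not p^(k-1): it is p^k (Nat.dvd_prime_pow). So for 0 < j < p^k: A_j := f^[j] A ≠ A, A_j in Ω.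
t in A of order p (exists_prime_orderOf_dvd_card, p ∣ Nat.card A). x = t * σ' in Pr a (4B + e' m) (A1, Nat.card A <= B, Pr_mono, Pr_mul). Product formula: (t σ')^n = (∏_{j<n} σ'^j t σ'^(-j)) * σ'^n (list product or induction on n).
For n = p^k: x^(p^k) = t * r, r = product over 0 < j < p^k of elements of A_j ≠ A, so r commutes with every element of A (h.comm). Then x^(e' p^k) = (t r)^e' = t^e' * r^e'. By hs it is 1, so t^e' = (r^e')⁻¹ commutes with all of A and lies in A: it is in the centre of the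
simple nonabelian group A, so t^e' = 1, so p ∣ e' (orderOf t = p), contradiction.
-/

namespace GT48

open Subgroup GP48

universe u

private theorem A2_map_pow {P : Type*} [Group P] (s : P) (A : Subgroup P) (j : ℕ) :
    (fun K : Subgroup P => K.map (MulAut.conj s).toMonoidHom)^[j] A =
      A.map (MulAut.conj (s ^ j)).toMonoidHom := by
  induction j with
  | zero =>
    rw [Function.iterate_zero, id_eq, pow_zero, map_one]
    ext y
    simp [mem_map]
  | succ j ih =>
    rw [Function.iterate_succ_apply', ih, map_map]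
    congr 1
    ext z
    simp [pow_succ', mul_assoc]

private def A2_R {P : Type*} [Group P] (t s : P) : ℕ → P
  | 0 => 1
  | n + 1 => A2_R t s n * (s ^ (n + 1) * t * (s ^ (n + 1))⁻¹)

private theorem A2_prod {P : Type*} [Group P] (t s : P) (n : ℕ) :
    (t * s) ^ (n + 1) = t * A2_R t s n * s ^ (n + 1) := by
  induction n with
  | zero => simp [A2_R]
  | succ n ih =>
    rw [pow_succ, ih]
    have h1 : A2_R t s (n + 1) = A2_R t s n * (s ^ (n + 1) * t * (s ^ (n + 1))⁻¹) := rfl
    rw [h1, pow_succ s (n + 1)]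
    group

theorem A2 {P : Type*} [Group P] [Finite P] {T : Subgroup P} {Ω : Set (Subgroup P)}
    (h : CompSys T Ω) (hC : centralizer (T : Set P) = ⊥) {a : P} (ha : a ≠ 1) (B : ℕ)
    (hcard : ∀ A ∈ Ω, Nat.card A ≤ B) (p e' k m : ℕ) (hp : p.Prime)
    (hpd : ∀ A ∈ Ω, p ∣ Nat.card A) (he' : ¬ p ∣ e') (hk : 1 ≤ k)
    (hs : ∀ x ∈ Pr a (e' * m + 4 * B), x ^ (e' * p ^ k) = 1) :
    ∀ x ∈ Pr a m, x ^ (e' * p ^ (k - 1)) ∈ base Ω := by
  intro σ hσ
  by_contra hnot
  have hnot' : ∃ A ∈ Ω, A.map (MulAut.conj (σ ^ (e' * p ^ (k - 1)))).toMonoidHom ≠ A := by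
    by_contra hcon
    push Not at hcon
    exact hnot hcon
  obtain ⟨A, hA, hAne⟩ := hnot'
  have he1 : 1 ≤ e' := by
    rcases Nat.eq_zero_or_pos e' with h0 | h0
    · exact absurd (h0 ▸ dvd_zero p) he'
    · exact h0
  obtain ⟨s, hsdef⟩ : ∃ s, s = σ ^ e' := ⟨_, rfl⟩
  have hsPr : s ∈ Pr a (e' * m) := hsdef ▸ Pr_pow hσ e'
  have hs1 : s ^ (p ^ k) = 1 := by
    rw [hsdef, ← pow_mul]
    apply hs σ
    refine Pr_mono ?_ hσ
    nlinarith [Nat.mul_le_mul_right m he1]
  have hs2 : A.map (MulAut.conj (s ^ (p ^ (k - 1)))).toMonoidHom ≠ A := by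
    rw [hsdef, ← pow_mul]
    exact hAne
  -- the orbit of `A` under conjugation by `s` has length `p ^ k`
  obtain ⟨f, hf⟩ : ∃ f : Subgroup P → Subgroup P,
      f = fun K : Subgroup P => K.map (MulAut.conj s).toMonoidHom := ⟨_, rfl⟩
  have hfj : ∀ j, f^[j] A = A.map (MulAut.conj (s ^ j)).toMonoidHom := by
    intro j
    rw [hf]
    exact A2_map_pow s A j
  have hper : Function.IsPeriodicPt f (p ^ k) A := by
    change f^[p ^ k] A = A
    rw [hfj, hs1]
    have h1 := hfj 0
    rw [Function.iterate_zero, id_eq, pow_zero] at h1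
    exact h1.symm
  have hnper : ¬ Function.IsPeriodicPt f (p ^ (k - 1)) A := by
    intro h1
    change f^[p ^ (k - 1)] A = A at h1
    rw [hfj] at h1
    exact hs2 h1
  have hmin : Function.minimalPeriod f A = p ^ k := by
    obtain ⟨i, hi, hi'⟩ := (Nat.dvd_prime_pow hp).1 hper.minimalPeriod_dvd
    rw [hi']
    congr 1
    by_contra hik
    apply hnper
    have h1 : Function.minimalPeriod f A ∣ p ^ (k - 1) := by
      rw [hi']
      exact pow_dvd_pow p (by omega)
    exact Function.isPeriodicPt_iff_minimalPeriod_dvd.2 h1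
  have hdist : ∀ j, 0 < j → j < p ^ k → A ≠ A.map (MulAut.conj (s ^ j)).toMonoidHom := by
    intro j hj hj' h1
    have h2 : Function.IsPeriodicPt f j A := by
      change f^[j] A = A
      rw [hfj]
      exact h1.symm
    have h3 := h2.minimalPeriod_dvd
    rw [hmin] at h3
    exact absurd (Nat.le_of_dvd hj h3) (not_le.2 hj')
  -- the element `t` of order `p`
  have : Fact p.Prime := ⟨hp⟩
  obtain ⟨t, ht⟩ := exists_prime_orderOf_dvd_card' (G := A) p (hpd A hA)
  have htPr : (t : P) ∈ Pr a (4 * B) :=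
    Pr_mono (Nat.mul_le_mul_left 4 (hcard A hA)) (A1 h hC ha A hA t t.2)
  have hxPr : (t : P) * s ∈ Pr a (e' * m + 4 * B) := by
    rw [Nat.add_comm]
    exact Pr_mul htPr hsPr
  have hx := hs _ hxPr
  have hpk : 0 < p ^ k := pow_pos hp.pos k
  obtain ⟨n, hn⟩ : ∃ n, p ^ k = n + 1 := ⟨p ^ k - 1, by omega⟩
  have hcomm : ∀ j, j ≤ n → ∀ b ∈ A, b * A2_R (t : P) s j = A2_R (t : P) s j * b := by
    intro j
    induction j with
    | zero => intro _ b _; simp [A2_R]
    | succ j ih =>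
      intro hj b hb
      have h1 : A2_R (t : P) s (j + 1) =
        A2_R (t : P) s j * (s ^ (j + 1) * t * (s ^ (j + 1))⁻¹) := rfl
      have h2 : b * (s ^ (j + 1) * t * (s ^ (j + 1))⁻¹) =
          (s ^ (j + 1) * t * (s ^ (j + 1))⁻¹) * b := by
        refine h.comm A hA (A.map (MulAut.conj (s ^ (j + 1))).toMonoidHom) (h.conj _ A hA)
          (hdist (j + 1) (Nat.succ_pos j) (by omega)) b hb _ ?_
        exact ⟨(t : P), t.2, rfl⟩
      rw [h1]
      generalize s ^ (j + 1) * t * (s ^ (j + 1))⁻¹ = c at h2 ⊢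
      rw [← mul_assoc, ih (by omega) b hb, mul_assoc, h2, ← mul_assoc]
  have h4 : ((t : P) * s) ^ (p ^ k) = t * A2_R (t : P) s n := by
    rw [hn, A2_prod, ← hn, hs1, mul_one]
  have h5 : (t : P) ^ e' * (A2_R (t : P) s n) ^ e' = 1 := by
    have h6 : Commute (t : P) (A2_R (t : P) s n) := hcomm n le_rfl t t.2
    rw [← h6.mul_pow, ← h4, ← pow_mul, Nat.mul_comm (p ^ k) e']
    exact hx
  have h7 : ∀ b ∈ A, b * (t : P) ^ e' = (t : P) ^ e' * b := by
    intro b hb
    have h8 : (t : P) ^ e' = ((A2_R (t : P) s n) ^ e')⁻¹ := eq_inv_of_mul_eq_one_left h5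
    have h9 : Commute b (A2_R (t : P) s n) := hcomm n le_rfl b hb
    rw [h8]
    exact (h9.pow_right e').inv_right
  have h10 : t ^ e' ∈ Subgroup.center A := by
    rw [Subgroup.mem_center_iff]
    intro g
    apply Subtype.ext
    simp only [Subgroup.coe_mul, SubmonoidClass.coe_pow]
    exact h7 g g.2
  have hsimple := h.simple A hA
  have h11 : Subgroup.center A = ⊥ := by
    rcases hsimple.eq_bot_or_eq_top_of_normal (Subgroup.center A) inferInstance with h12 | h12
    · exact h12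
    · exfalso
      obtain ⟨x, hx', y, hy, hxy⟩ := h.na A hA
      apply hxy
      have h13 : (⟨x, hx'⟩ : A) ∈ Subgroup.center A := by
        rw [h12]
        exact Subgroup.mem_top _
      have h14 := Subgroup.mem_center_iff.1 h13 ⟨y, hy⟩
      exact (congrArg Subtype.val h14).symm
  rw [h11, Subgroup.mem_bot] at h10
  apply he'
  rw [← ht]
  exact orderOf_dvd_of_pow_eq_one h10

end GT48
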