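import Mathlib
import Pool.Agent.LibGT48.Defs
import Pool.Agent.LibGT48.A2

/-!
# LibGT48 A3 (MEDIUM, Defs + A2): the stable scale

e = B !. Take A in Ω, p a prime dividing Nat.card A (card A > 1 since A is simple); all members of Ω have the same card. p <= B. e = e' * p^b with ¬ p ∣ e', b = padicValNat p e >= 1 and b < B (Legendre: (p-1) * v_p(B!) < B, sub_one_mul_padicValNat_factorial_lt_of_ne_zero;
B ≠ 0). For j <= B let k_j be the least k with: ∀ x ∈ Pr a (msc B j), x^(e' p^k) = 1 (k = b works by hall, because msc B j <= msc B B = ssc B, Pr_mono). k_j is monotone in j, k_j <= b < B, and k_0 >= 1: Pr a (4B) contains A (A1) and an element t of order p of A has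
t^e' ≠ 1. So among k_0 <= k_1 <= .. <= k_B (B + 1 values in [1, B-1]) there is j < B with k_j = k_(j+1) =: k. m = msc B j, n = e' * p^(k-1) <= e (n ∣ e, e > 0). By minimality of k_j some x in Pr a m has x^n ≠ 1. A2 with hs: e' * m + 4B <= msc B (j+1) (e' <= e), Pr_mono.
-/

namespace GT48

open Subgroup GP48

universe u

theorem A3 {P : Type*} [Group P] [Finite P] {T : Subgroup P} {Ω : Set (Subgroup P)}
    (h : CompSys T Ω) (hC : centralizer (T : Set P) = ⊥) {a : P} (ha : a ≠ 1) (B : ℕ)
    (hcard : ∀ A ∈ Ω, Nat.card A ≤ B)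
    (hall : ∀ x ∈ Pr a (ssc B), x ^ (Nat.factorial B) = 1) :
    ∃ m n, m ≤ ssc B ∧ n ≤ Nat.factorial B ∧ (∃ x ∈ Pr a m, x ^ n ≠ 1) ∧
      ∀ x ∈ Pr a m, x ^ n ∈ base Ω := by
  classical
  obtain ⟨A, hA⟩ := h.ne
  have := h.simple A hA
  have hcA : 1 < Nat.card A := Finite.one_lt_card
  obtain ⟨p, hp, hpA⟩ := Nat.exists_prime_and_dvd (n := Nat.card A) (by omega)
  have := Fact.mk hp
  have hpd : ∀ A' ∈ Ω, p ∣ Nat.card A' := by
    intro A' hA'
    obtain ⟨g, hg⟩ := h.trans A hA A' hA'
    have h1 : Nat.card A = Nat.card A' := by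
      rw [← hg]
      exact Nat.card_congr (A.equivMapOfInjective _ (MulAut.conj g).injective).toEquiv
    rwa [← h1]
  have hpB : p ≤ B := (Nat.le_of_dvd (by omega) hpA).trans (hcard A hA)
  have hB0 : B ≠ 0 := by
    have := hp.pos
    omega
  have he0 : Nat.factorial B ≠ 0 := Nat.factorial_ne_zero B
  obtain ⟨b, e', hpe, hbe⟩ := Nat.exists_eq_pow_mul_and_not_dvd he0 p hp.ne_one
  have hb : b ≤ B := by
    have h1 : p ^ b ∣ Nat.factorial B := ⟨e', hbe⟩
    have h2 := (padicValNat_dvd_iff_le he0).1 h1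
    have h3 := sub_one_mul_padicValNat_factorial_lt_of_ne_zero (p := p) hB0
    have h4 : 1 ≤ p - 1 := by
      have := hp.two_le
      omega
    have h5 : padicValNat p (Nat.factorial B) ≤ (p - 1) * padicValNat p (Nat.factorial B) :=
      Nat.le_mul_of_pos_left _ h4
    omega
  have he'0 : 0 < e' := by
    rcases Nat.eq_zero_or_pos e' with h1 | h1
    · exact absurd (h1 ▸ dvd_zero p) hpe
    · exact h1
  have hmono : Monotone (msc B) := by
    apply monotone_nat_of_le_succ
    intro j
    change msc B j ≤ Nat.factorial B * msc B j + 4 * B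
    have := Nat.le_mul_of_pos_left (msc B j) (Nat.pos_of_ne_zero he0)
    omega
  have hSb : ∀ j ≤ B, ∀ k, b ≤ k → ∀ x ∈ Pr a (msc B j), x ^ (e' * p ^ k) = 1 := by
    intro j hj k hk x hx
    have h1 : x ^ Nat.factorial B = 1 := hall x (Pr_mono (hmono hj) hx)
    obtain ⟨c, rfl⟩ := Nat.exists_eq_add_of_le hk
    have h2 : e' * p ^ (b + c) = Nat.factorial B * p ^ c := by
      rw [hbe, pow_add]
      ring
    rw [h2, pow_mul, h1, one_pow]
  have hQ : ∀ j ≤ B, (∃ m n, m ≤ ssc B ∧ n ≤ Nat.factorial B ∧ (∃ x ∈ Pr a m, x ^ n ≠ 1) ∧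
      ∀ x ∈ Pr a m, x ^ n ∈ base Ω) ∨ ∃ x ∈ Pr a (msc B j), x ^ (e' * p ^ j) ≠ 1 := by
    intro j
    induction j with
    | zero =>
      intro _
      right
      obtain ⟨t, ht⟩ := exists_prime_orderOf_dvd_card' (G := A) p hpA
      refine ⟨(t : P), ?_, ?_⟩
      · have h1 := A1 h hC ha A hA (t : P) t.2
        refine Pr_mono ?_ h1
        change 4 * Nat.card A ≤ 4 * B
        exact Nat.mul_le_mul_left 4 (hcard A hA)
      · intro h1
        rw [pow_zero, mul_one] at h1
        have h2 : t ^ e' = 1 := Subtype.ext (by simpa using h1)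
        have h3 := orderOf_dvd_of_pow_eq_one h2
        rw [ht] at h3
        exact hpe h3
    | succ j ih =>
      intro hj
      rcases ih (by omega) with h1 | h1
      · exact Or.inl h1
      · by_cases h2 : ∃ x ∈ Pr a (msc B (j + 1)), x ^ (e' * p ^ (j + 1)) ≠ 1
        · exact Or.inr h2
        · left
          have hjb : j < b := by
            by_contra h3
            obtain ⟨x, hx, hx1⟩ := h1
            exact hx1 (hSb j (by omega) j (by omega) x hx)
          have h4 := A2 h hC ha B hcard p e' (j + 1) (msc B j) hp hpd hpe (by omega) (by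
            intro x hx
            by_contra h5
            apply h2
            refine ⟨x, Pr_mono ?_ hx, h5⟩
            change e' * msc B j + 4 * B ≤ Nat.factorial B * msc B j + 4 * B
            have h6 : e' ≤ Nat.factorial B := by
              rw [hbe]
              exact Nat.le_mul_of_pos_left _ (pow_pos hp.pos b)
            exact Nat.add_le_add_right (Nat.mul_le_mul_right _ h6) _)
          refine ⟨msc B j, e' * p ^ j, hmono (by omega), ?_, h1, ?_⟩
          · rw [hbe, mul_comm]
            exact Nat.mul_le_mul_right _ (Nat.pow_le_pow_right hp.pos hjb.le)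
          · intro x hx
            exact h4 x hx
  rcases hQ B le_rfl with h1 | ⟨x, hx, hx1⟩
  · exact h1
  · exact absurd (hSb B le_rfl B hb x hx) hx1

end GT48
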