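import Mathlib
import Pool.Agent.LibGT48.Defs

/-!
# LibGT48 A4 (SHORT/MEDIUM, only Defs): no abelian normal subgroup; commuting powers are trivial

A4: N normal commutative. Every A in Ω is normalised by T (T = sSup Ω: A by itself, the others centralise A). N ⊓ A is a normal subgroup of A (as a group: N normal), commutative, A simple nonabelian: N ⊓ A = ⊥. For x in N ⊓ T and y in A: x y x⁻¹ y⁻¹ is in N (N normal)
and in A (x in T normalises A), so it is 1: N ⊓ T centralises every A, so T, so N ⊓ T <= centralizer T = ⊥. For x in N, t in T: x t x⁻¹ t⁻¹ in N ⊓ T = ⊥ (T normal), so N <= centralizer T = ⊥.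
A5: x in Pr a m: the subgroup closure {g x^e g⁻¹ : g} is normal, and its generators (g x g⁻¹)^e commute pairwise by hall (Pr_conj), so it is commutative, so ⊥ by A4, so x^e = 1.
-/

namespace GT48

open Subgroup GP48

universe u

private lemma A4_inf {P : Type*} [Group P] {A N : Subgroup P} [N.Normal]
    (hs : IsSimpleGroup A) (hna : ∃ a ∈ A, ∃ b ∈ A, a * b ≠ b * a)
    (hN : ∀ a ∈ N, ∀ b ∈ N, a * b = b * a) {x : P} (hx : x ∈ N) (hxA : x ∈ A) : x = 1 := by
  have hn : (N.subgroupOf A).Normal := inferInstance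
  rcases hs.eq_bot_or_eq_top_of_normal _ hn with h1 | h1
  · have h2 : (⟨x, hxA⟩ : A) ∈ N.subgroupOf A := hx
    rw [h1, Subgroup.mem_bot] at h2
    exact congrArg Subtype.val h2
  · exfalso
    obtain ⟨a, ha, b, hb, hab⟩ := hna
    have h2 : ∀ c ∈ A, c ∈ N := by
      intro c hc
      have h3 : (⟨c, hc⟩ : A) ∈ N.subgroupOf A := by
        rw [h1]
        exact Subgroup.mem_top _
      exact h3
    exact hab (hN a (h2 a ha) b (h2 b hb))

private lemma A4_norm {P : Type*} [Group P] {T : Subgroup P} {Ω : Set (Subgroup P)}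
    (h : CompSys T Ω) {A : Subgroup P} (hA : A ∈ Ω) {x y : P} (hx : x ∈ T) (hy : y ∈ A) :
    x * y * x⁻¹ ∈ A := by
  have h1 : T ≤ Subgroup.normalizer (A : Set P) := by
    rw [← h.sup]
    refine sSup_le fun B hB => ?_
    by_cases hAB : B = A
    · rw [hAB]
      exact Subgroup.le_normalizer
    · intro b hb
      rw [Subgroup.mem_normalizer_iff]
      intro c
      constructor
      · intro hc
        rw [h.comm B hB A hA hAB b hb c hc, mul_inv_cancel_right]
        exact hc
      · intro hc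
        have h2 := h.comm B hB A hA hAB b⁻¹ (B.inv_mem hb) _ hc
        have h3 : c = b * c * b⁻¹ := by
          calc c = b⁻¹ * (b * c * b⁻¹) * b := by group
            _ = b * c * b⁻¹ := by rw [h2]; group
        rw [h3]
        exact hc
  exact (Subgroup.mem_normalizer_iff.1 (h1 hx) y).1 hy

private lemma A4_T {P : Type*} [Group P] {T : Subgroup P} {Ω : Set (Subgroup P)}
    (h : CompSys T Ω) (hC : centralizer (T : Set P) = ⊥) (N : Subgroup P) [N.Normal]
    (hN : ∀ a ∈ N, ∀ b ∈ N, a * b = b * a) {x : P} (hx : x ∈ N) (hxT : x ∈ T) : x = 1 := by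
  have hNn : N.Normal := inferInstance
  have h1 : T ≤ Subgroup.centralizer {x} := by
    conv_lhs => rw [← h.sup]
    refine sSup_le fun A hA y hy => ?_
    rw [Subgroup.mem_centralizer_singleton_iff]
    have h2 : x * y * x⁻¹ * y⁻¹ = 1 := by
      apply A4_inf (h.simple A hA) (h.na A hA) hN
      · have h3 : y * x⁻¹ * y⁻¹ ∈ N := hNn.conj_mem _ (N.inv_mem hx) y
        have h4 := N.mul_mem hx h3
        have h5 : x * y * x⁻¹ * y⁻¹ = x * (y * x⁻¹ * y⁻¹) := by group
        rw [h5]
        exact h4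
      · exact A.mul_mem (A4_norm h hA hxT hy) (A.inv_mem hy)
    have h6 : x * y = y * x := by
      rw [mul_inv_eq_one] at h2
      rw [mul_inv_eq_iff_eq_mul] at h2
      exact h2
    first
      | exact h6.symm
      | exact h6
  have h7 : x ∈ centralizer (T : Set P) := by
    rw [Subgroup.mem_centralizer_iff]
    intro t ht
    have h8 := h1 ht
    rw [Subgroup.mem_centralizer_singleton_iff] at h8
    first
      | exact h8
      | exact h8.symm
  rw [hC, Subgroup.mem_bot] at h7
  exact h7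

theorem A4 {P : Type*} [Group P] {T : Subgroup P} [T.Normal] {Ω : Set (Subgroup P)}
    (h : CompSys T Ω) (hC : centralizer (T : Set P) = ⊥) (N : Subgroup P) [N.Normal]
    (hN : ∀ a ∈ N, ∀ b ∈ N, a * b = b * a) : N = ⊥ := by
  have hNn : N.Normal := inferInstance
  have hTn : T.Normal := inferInstance
  rw [eq_bot_iff]
  intro x hx
  have h7 : x ∈ centralizer (T : Set P) := by
    rw [Subgroup.mem_centralizer_iff]
    intro t ht
    have h2 : x * t * x⁻¹ * t⁻¹ = 1 := by
      apply A4_T h hC N hN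
      · have h3 : t * x⁻¹ * t⁻¹ ∈ N := hNn.conj_mem _ (N.inv_mem hx) t
        have h5 : x * t * x⁻¹ * t⁻¹ = x * (t * x⁻¹ * t⁻¹) := by group
        rw [h5]
        exact N.mul_mem hx h3
      · exact T.mul_mem (hTn.conj_mem _ ht x) (T.inv_mem ht)
    rw [mul_inv_eq_one, mul_inv_eq_iff_eq_mul] at h2
    exact h2.symm
  rw [hC] at h7
  exact h7

theorem A5 {P : Type*} [Group P] {T : Subgroup P} [T.Normal] {Ω : Set (Subgroup P)}
    (h : CompSys T Ω) (hC : centralizer (T : Set P) = ⊥) {a : P} {m e : ℕ}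
    (hall : ∀ x ∈ Pr a m, ∀ y ∈ Pr a m, x ^ e * y ^ e * (x ^ e)⁻¹ * (y ^ e)⁻¹ = 1) :
    ∀ x ∈ Pr a m, x ^ e = 1 := by
  intro x hx
  let S : Set P := Group.conjugatesOfSet {x ^ e}
  have hS : ∀ u ∈ S, ∃ g : P, u = (g * x * g⁻¹) ^ e := by
    intro u hu
    obtain ⟨w, hw, hc⟩ := Group.mem_conjugatesOfSet_iff.1 hu
    rw [Set.mem_singleton_iff] at hw
    obtain ⟨g, hg⟩ := isConj_iff.1 hc
    refine ⟨g, ?_⟩
    rw [← hg, hw, conj_pow]
  have hcomm : ∀ u ∈ S, ∀ v ∈ S, u * v = v * u := by
    intro u hu v hv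
    obtain ⟨g, rfl⟩ := hS u hu
    obtain ⟨k, rfl⟩ := hS v hv
    have h2 := hall _ (Pr_conj hx g) _ (Pr_conj hx k)
    rw [mul_inv_eq_one, mul_inv_eq_iff_eq_mul] at h2
    exact h2
  have h1 : Subgroup.closure S ≤ Subgroup.centralizer S := by
    rw [Subgroup.closure_le]
    intro u hu
    rw [SetLike.mem_coe, Subgroup.mem_centralizer_iff]
    intro v hv
    exact hcomm v hv u hu
  have h2 : Subgroup.closure S ≤ Subgroup.centralizer (Subgroup.closure S : Set P) := by
    rw [Subgroup.closure_le]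
    intro u hu
    rw [SetLike.mem_coe, Subgroup.mem_centralizer_iff]
    intro v hv
    exact ((Subgroup.mem_centralizer_iff.1 (h1 hv)) u hu).symm
  have h3 : Subgroup.normalClosure {x ^ e} = ⊥ := by
    apply A4 h hC
    intro u hu v hv
    exact ((Subgroup.mem_centralizer_iff.1 (h2 hv)) u hu)
  have h4 : x ^ e ∈ Subgroup.normalClosure {x ^ e} :=
    Subgroup.subset_normalClosure (Set.mem_singleton _)
  rw [h3, Subgroup.mem_bot] at h4
  exact h4

end GT48
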