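import Mathlib
import Pool.Agent.LibGT48.Defs

/-!
# LibGT48 F1 (MEDIUM, only Defs: GP48.wball): short elements with the same action on q points

Let O_n = {b • E : b in wball S n} as a set of functions Fin q → F (pointwise action (g • E) i = g • E i). O_n is increasing, nonempty, contained in the finite type Fin q → F of cardinality (Nat.card F)^q.
If O_n = O_(n+1) then O_n is stable under s and s⁻¹ for s in S (wball_gen, wball_mul, wball_inv), hence under closure S = ⊤, so O_n is the whole orbit of E and contains h • E. If O_0 < O_1 < .. < O_(n) strictly for n = (card F)^q then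
card O_n >= n + 1 > (card F)^q, impossible; so some O_n with n <= (card F)^q is stable, and O_n ⊆ O_((card F)^q). F1b: apply F1 to a listing of the finset E (E.equivFin or E.toList), q = E.card; (card F)^(E.card) <= (card F)^q if card F >= 1;
if F is empty take h' = 1.
-/

namespace GT48

open Subgroup GP48

universe u

private def F1_O {P F : Type*} [Group P] [MulAction P F] (S : Set P) {q : ℕ} (E : Fin q → F) (n : ℕ) :
    Set (Fin q → F) := {x | ∃ b ∈ wball S n, b • E = x}

theorem F1 {P F : Type*} [Group P] [MulAction P F] [Finite F] (S : Set P)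
    (hS : Subgroup.closure S = ⊤) (q : ℕ) (E : Fin q → F) (h : P) :
    ∃ h' ∈ wball S ((Nat.card F) ^ q), ∀ i, h' • E i = h • E i := by
  have hmono : ∀ n, F1_O S E n ⊆ F1_O S E (n + 1) := by
    rintro n x ⟨b, hb, rfl⟩
    exact ⟨b, wball_mono S (Nat.le_succ n) hb, rfl⟩
  have hcard : ∀ n, (∀ m < n, F1_O S E m ≠ F1_O S E (m + 1)) → n + 1 ≤ (F1_O S E n).ncard := by
    intro n
    induction n with
    | zero =>
      intro _
      have hne : (F1_O S E 0).Nonempty := ⟨(1 : P) • E, 1, wball_one S 0, rfl⟩
      have := (Set.ncard_pos (Set.toFinite _)).2 hne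
      omega
    | succ n ih =>
      intro hm
      have h1 := ih fun m hm' => hm m (by omega)
      have h2 : F1_O S E n ⊂ F1_O S E (n + 1) := (hmono n).ssubset_of_ne (hm n (by omega))
      have h3 := Set.ncard_lt_ncard h2 (Set.toFinite _)
      omega
  have hN : ∃ m < (Nat.card F) ^ q, F1_O S E m = F1_O S E (m + 1) := by
    by_contra hcon
    have h1 := hcard ((Nat.card F) ^ q) fun m hm he => hcon ⟨m, hm, he⟩
    have h2 : (F1_O S E ((Nat.card F) ^ q)).ncard ≤ Nat.card (Fin q → F) :=
      (Set.ncard_le_ncard (Set.subset_univ _) (Set.toFinite (Set.univ : Set (Fin q → F)))).trans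
        (Set.ncard_univ (Fin q → F)).le
    have h3 : Nat.card (Fin q → F) = (Nat.card F) ^ q := by
      rw [Nat.card_fun, Nat.card_fin]
    omega
  obtain ⟨m, hm, he⟩ := hN
  have hst : ∀ g : P, ∀ x ∈ F1_O S E m, g • x ∈ F1_O S E m := by
    intro g
    have hg : g ∈ Subgroup.closure S := by rw [hS]; exact Subgroup.mem_top g
    have key : (∀ x ∈ F1_O S E m, g • x ∈ F1_O S E m) ∧ ∀ x ∈ F1_O S E m, g⁻¹ • x ∈ F1_O S E m := by
      induction hg using Subgroup.closure_induction with
      | mem s hs =>
        refine ⟨?_, ?_⟩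
        · rintro _ ⟨b, hb, rfl⟩
          rw [he]
          refine ⟨s * b, ?_, mul_smul _ _ _⟩
          rw [Nat.add_comm]
          exact wball_mul (wball_gen hs) hb
        · rintro _ ⟨b, hb, rfl⟩
          rw [he]
          refine ⟨s⁻¹ * b, ?_, mul_smul _ _ _⟩
          rw [Nat.add_comm]
          exact wball_mul (wball_inv (wball_gen hs)) hb
      | one => exact ⟨fun x hx => by rwa [one_smul], fun x hx => by rwa [inv_one, one_smul]⟩
      | mul a b _ _ iha ihb =>
        refine ⟨fun x hx => ?_, fun x hx => ?_⟩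
        · rw [mul_smul]; exact iha.1 _ (ihb.1 _ hx)
        · rw [mul_inv_rev, mul_smul]; exact ihb.2 _ (iha.2 _ hx)
      | inv a _ iha => exact ⟨iha.2, fun x hx => by rw [inv_inv]; exact iha.1 _ hx⟩
    exact key.1
  have hE : E ∈ F1_O S E m := ⟨1, wball_one S m, one_smul _ _⟩
  obtain ⟨b, hb, hbE⟩ := hst h E hE
  exact ⟨b, wball_mono S hm.le hb, fun i => congrFun hbE i⟩

theorem F1b {P F : Type*} [Group P] [MulAction P F] [Finite F] (S : Set P)
    (hS : Subgroup.closure S = ⊤) (q : ℕ) (E : Finset F) (hE : E.card ≤ q) (h : P) :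
    ∃ h' ∈ wball S ((Nat.card F) ^ q), ∀ f ∈ E, h' • f = h • f := by
  obtain ⟨h', h1, h2⟩ := F1 S hS E.card (fun i => ((E.equivFin.symm i : E) : F)) h
  rcases isEmpty_or_nonempty F with hF | hF
  · exact ⟨1, wball_one S _, fun f _ => (hF.false f).elim⟩
  · refine ⟨h', wball_mono S ?_ h1, fun f hf => ?_⟩
    · exact Nat.pow_le_pow_right Nat.card_pos hE
    · have h3 := h2 (E.equivFin ⟨f, hf⟩)
      simp only [Equiv.symm_apply_apply] at h3
      exact h3

end GT48
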