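import Mathlib
import Pool.Agent.LibGT48.Defs
import Pool.Agent.LibGT48.F1

/-!
# LibGT48 F2 (MEDIUM, Defs + F1): conjugation is an additive cost

Single conjugate: y = g α g⁻¹, α in {a, a⁻¹}, E a finset of at most q points. Let E' = E.image (g⁻¹ • ·) ∪ E.image ((α * g⁻¹) • ·), at most 2q points. F1b (with 2q) gives g' in wball S ((card F)^(2q)), g' = g on E'. For f in E: g' • (g⁻¹ • f) = f,
so g'⁻¹ • f = g⁻¹ • f; and g' • (α • g⁻¹ • f) = g • (α • g⁻¹ • f): so y' = g' α g'⁻¹ agrees with y on E; y' in wball S (w + 2 (card F)^(2q)) (wball_mul, wball_inv; α in wball S w).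
List: induction over the list l of x (x = y1 * x1): first x1' for the tail, E; then y1' for the finset E.image (x1 • ·) (at most q points, x1' • f = x1 • f). Length: m times. The result is in Pr a m (list of the y_i' has the same length).
-/

namespace GT48

open Subgroup GP48

universe u

private theorem F2_single {P F : Type*} [Group P] [MulAction P F] [Finite F] (S : Set P)
    (hS : Subgroup.closure S = ⊤) {a : P} {w : ℕ} (ha : a ∈ wball S w) (q : ℕ) {y : P}
    (hy : y ∈ cj a) (E : Finset F) (hE : E.card ≤ q) :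
    ∃ y' ∈ cj a, y' ∈ wball S (w + 2 * (Nat.card F) ^ (2 * q)) ∧
      ∀ f ∈ E, y' • f = y • f := by
  classical
  obtain ⟨g, hg⟩ := hy
  have key : ∀ α : P, α ∈ wball S w → ∃ g' ∈ wball S ((Nat.card F) ^ (2 * q)),
      ∀ f ∈ E, (g' * α * g'⁻¹) • f = (g * α * g⁻¹) • f := by
    intro α hα
    obtain ⟨g', hg', h1⟩ := F1b S hS (2 * q)
      (E.image (fun f => g⁻¹ • f) ∪ E.image (fun f => (α * g⁻¹) • f))
      (by
        refine (Finset.card_union_le _ _).trans ?_
        have h2 := Finset.card_image_le (s := E) (f := fun f => g⁻¹ • f)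
        have h3 := Finset.card_image_le (s := E) (f := fun f => (α * g⁻¹) • f)
        omega) g
    refine ⟨g', hg', fun f hf => ?_⟩
    have h2 : g' • (g⁻¹ • f) = g • (g⁻¹ • f) :=
      h1 _ (Finset.mem_union_left _ (Finset.mem_image_of_mem _ hf))
    have h3 : g' • ((α * g⁻¹) • f) = g • ((α * g⁻¹) • f) :=
      h1 _ (Finset.mem_union_right _ (Finset.mem_image_of_mem _ hf))
    have h4 : g'⁻¹ • f = g⁻¹ • f := by
      rw [smul_inv_smul] at h2
      rw [inv_smul_eq_iff, h2]
    rw [mul_smul, mul_smul, h4, ← mul_smul α g⁻¹ f, h3, ← mul_smul, ← mul_assoc]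
  have hw : ∀ α : P, α ∈ wball S w → ∀ g' ∈ wball S ((Nat.card F) ^ (2 * q)),
      g' * α * g'⁻¹ ∈ wball S (w + 2 * (Nat.card F) ^ (2 * q)) := by
    intro α hα g' hg'
    exact wball_mono S (by omega) (wball_mul (wball_mul hg' hα) (wball_inv hg'))
  rcases hg with rfl | rfl
  · obtain ⟨g', hg', h1⟩ := key a ha
    exact ⟨g' * a * g'⁻¹, ⟨g', Or.inl rfl⟩, hw a ha g' hg', h1⟩
  · obtain ⟨g', hg', h1⟩ := key a⁻¹ (wball_inv ha)
    exact ⟨g' * a⁻¹ * g'⁻¹, ⟨g', Or.inr rfl⟩, hw _ (wball_inv ha) g' hg', h1⟩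

private theorem F2_list {P F : Type*} [Group P] [MulAction P F] [Finite F] (S : Set P)
    (hS : Subgroup.closure S = ⊤) {a : P} {w : ℕ} (ha : a ∈ wball S w) (q : ℕ) (l : List P)
    (hl : ∀ y ∈ l, y ∈ cj a) (E : Finset F) (hE : E.card ≤ q) :
    ∃ l' : List P, l'.length = l.length ∧ (∀ y ∈ l', y ∈ cj a) ∧
      l'.prod ∈ wball S (l.length * (w + 2 * (Nat.card F) ^ (2 * q))) ∧
      ∀ f ∈ E, l'.prod • f = l.prod • f := by
  classical
  induction l with
  | nil =>
    exact ⟨[], rfl, by simp, by simpa using wball_one S _, fun f _ => rfl⟩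
  | cons y l ih =>
    obtain ⟨l', h1, h2, h3, h4⟩ := ih (fun z hz => hl z (List.mem_cons_of_mem _ hz))
    obtain ⟨y', h5, h6, h7⟩ := F2_single S hS ha q (hl y List.mem_cons_self)
      (E.image (fun f => l.prod • f)) (Finset.card_image_le.trans hE)
    refine ⟨y' :: l', by simp [h1], ?_, ?_, ?_⟩
    · intro z hz
      rcases List.mem_cons.1 hz with rfl | hz
      · exact h5
      · exact h2 z hz
    · rw [List.prod_cons, List.length_cons, Nat.succ_mul, Nat.add_comm]
      exact wball_mul h6 h3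
    · intro f hf
      rw [List.prod_cons, List.prod_cons, mul_smul, mul_smul, h4 f hf]
      exact h7 _ (Finset.mem_image_of_mem _ hf)

theorem F2 {P F : Type*} [Group P] [MulAction P F] [Finite F] (S : Set P)
    (hS : Subgroup.closure S = ⊤) {a : P} {w : ℕ} (ha : a ∈ wball S w) (q m : ℕ) {x : P}
    (hx : x ∈ Pr a m) (E : Finset F) (hE : E.card ≤ q) :
    ∃ x' ∈ Pr a m, x' ∈ wball S (m * (w + 2 * (Nat.card F) ^ (2 * q))) ∧
      ∀ f ∈ E, x' • f = x • f := by
  obtain ⟨l, h1, h2, rfl⟩ := hx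
  obtain ⟨l', h3, h4, h5, h6⟩ := F2_list S hS ha q l h2 E hE
  exact ⟨l'.prod, ⟨l', h3.trans_le h1, h4, rfl⟩,
    wball_mono S (Nat.mul_le_mul_right _ h1) h5, h6⟩

end GT48
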