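import Mathlib
import Pool.Agent.LibGT48.Defs
import Pool.Agent.LibGT48.F2

/-!
# LibGT48 F3 (SHORT/MEDIUM, Defs + F2): powers and commutators

F3a: x^n ≠ 1, the action is faithful, so there is f with x^n • f ≠ f. E = image of i ↦ x^i • f, i < n (at most n <= e <= 2e points). F2 with q = 2e (so (card F)^(2q) = (card F)^(4e)): x' = x on E, so x'^i • f = x^i • f for i <= n (induction), x'^n • f ≠ f.
F3b: there is f with (x^e y^e) • f ≠ (y^e x^e) • f. Ey = {y^i • f, y^i • x^e • f : i < e}, Ex = {x^i • f, x^i • y^e • f : i < e} (at most 2e points each). F2 for y with Ey, for x with Ex: (x'^e y'^e) • f = x^e y^e • f ≠ y^e x^e • f = y'^e x'^e • f.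
-/

namespace GT48

open Subgroup GP48

universe u

private theorem F3_pow {P F : Type*} [Group P] [MulAction P F] {x x' : P} {f : F} {n : ℕ}
    (h : ∀ i < n, x' • (x ^ i • f) = x • (x ^ i • f)) : ∀ i ≤ n, x' ^ i • f = x ^ i • f := by
  intro i
  induction i with
  | zero =>
    intro _
    rw [pow_zero, pow_zero]
  | succ i ih =>
    intro hi
    rw [pow_succ', mul_smul, ih (by omega), h i (by omega), ← mul_smul, ← pow_succ']

theorem F3a {P F : Type*} [Group P] [MulAction P F] [FaithfulSMul P F] [Finite F] (S : Set P)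
    (hS : Subgroup.closure S = ⊤) {a : P} {w : ℕ} (ha : a ∈ wball S w) (e m n : ℕ) (hn : n ≤ e)
    {x : P} (hx : x ∈ Pr a m) (hxn : x ^ n ≠ 1) :
    ∃ x' ∈ Pr a m, x' ∈ wball S (m * (w + 2 * (Nat.card F) ^ (4 * e))) ∧ x' ^ n ≠ 1 := by
  classical
  obtain ⟨f, hf⟩ : ∃ f : F, x ^ n • f ≠ f := by
    by_contra hcon
    push Not at hcon
    refine hxn (FaithfulSMul.eq_of_smul_eq_smul (α := F) fun f => ?_)
    rw [hcon f, one_smul]
  obtain ⟨x', h1, h2, h3⟩ := F2 S hS ha (2 * e) m hx ((Finset.range n).image fun i => x ^ i • f)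
    (Finset.card_image_le.trans (by rw [Finset.card_range]; omega))
  refine ⟨x', h1, ?_, fun h4 => hf ?_⟩
  · have e1 : 4 * e = 2 * (2 * e) := by ring
    rw [e1]
    exact h2
  · have h5 := F3_pow (x := x) (x' := x') (f := f) (n := n) (fun i hi =>
      h3 _ (Finset.mem_image_of_mem _ (Finset.mem_range.2 hi))) n le_rfl
    rw [← h5, h4, one_smul]

theorem F3b {P F : Type*} [Group P] [MulAction P F] [FaithfulSMul P F] [Finite F] (S : Set P)
    (hS : Subgroup.closure S = ⊤) {a : P} {w : ℕ} (ha : a ∈ wball S w) (e m : ℕ)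
    {x y : P} (hx : x ∈ Pr a m) (hy : y ∈ Pr a m)
    (hxy : x ^ e * y ^ e * (x ^ e)⁻¹ * (y ^ e)⁻¹ ≠ 1) :
    ∃ x' ∈ Pr a m, ∃ y' ∈ Pr a m, x' ∈ wball S (m * (w + 2 * (Nat.card F) ^ (4 * e))) ∧
      y' ∈ wball S (m * (w + 2 * (Nat.card F) ^ (4 * e))) ∧
      x' ^ e * y' ^ e * (x' ^ e)⁻¹ * (y' ^ e)⁻¹ ≠ 1 := by
  classical
  obtain ⟨f, hf⟩ : ∃ f : F, x ^ e • y ^ e • f ≠ y ^ e • x ^ e • f := by
    by_contra hcon
    push Not at hcon
    refine hxy ?_
    have h1 : x ^ e * y ^ e = y ^ e * x ^ e :=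
      FaithfulSMul.eq_of_smul_eq_smul (α := F) fun f => by
        rw [mul_smul, mul_smul]
        exact hcon f
    rw [h1]
    group
  have hcard : ∀ (z : P) (g g' : F), ((Finset.range e).image (fun i => z ^ i • g) ∪
      (Finset.range e).image (fun i => z ^ i • g')).card ≤ 2 * e := by
    intro z g g'
    refine (Finset.card_union_le _ _).trans ?_
    have h1 : ((Finset.range e).image fun i => z ^ i • g).card ≤ e :=
      Finset.card_image_le.trans (by rw [Finset.card_range])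
    have h2 : ((Finset.range e).image fun i => z ^ i • g').card ≤ e :=
      Finset.card_image_le.trans (by rw [Finset.card_range])
    omega
  obtain ⟨x', hx1, hx2, hx3⟩ := F2 S hS ha (2 * e) m hx _ (hcard x f (y ^ e • f))
  obtain ⟨y', hy1, hy2, hy3⟩ := F2 S hS ha (2 * e) m hy _ (hcard y f (x ^ e • f))
  have e1 : 4 * e = 2 * (2 * e) := by ring
  have hl : ∀ {z z' : P} {g g' : F}, (∀ p ∈ (Finset.range e).image (fun i => z ^ i • g) ∪
      (Finset.range e).image (fun i => z ^ i • g'), z' • p = z • p) →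
      z' ^ e • g = z ^ e • g ∧ z' ^ e • g' = z ^ e • g' := by
    intro z z' g g' h
    constructor
    · exact F3_pow (fun i hi => h _ (Finset.mem_union_left _
        (Finset.mem_image_of_mem _ (Finset.mem_range.2 hi)))) e le_rfl
    · exact F3_pow (fun i hi => h _ (Finset.mem_union_right _
        (Finset.mem_image_of_mem _ (Finset.mem_range.2 hi)))) e le_rfl
  obtain ⟨a1, a2⟩ := hl hx3
  obtain ⟨b1, b2⟩ := hl hy3
  refine ⟨x', hx1, y', hy1, by rw [e1]; exact hx2, by rw [e1]; exact hy2, fun h => hf ?_⟩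
  have h1 : x' ^ e * y' ^ e = y' ^ e * x' ^ e := by
    have h2 := congrArg (· * (y' ^ e * x' ^ e)) h
    simp only [one_mul] at h2
    rw [← h2]
    group
  calc x ^ e • y ^ e • f = x' ^ e • y' ^ e • f := by rw [b1, a2]
    _ = y' ^ e • x' ^ e • f := by rw [← mul_smul, h1, mul_smul]
    _ = y ^ e • x ^ e • f := by rw [a1, b2]

end GT48
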