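import Mathlib
import Pool.Agent.LibGT48.Defs
import Pool.Agent.LibGT48.F3
import Pool.Agent.LibGT48.A3
import Pool.Agent.LibGT48.A4

/-!
# LibGT48 A6 (SHORT/MEDIUM, assembly): one step

Case 1: some x, y in Pr a (ssc B) have x^e y^e x^-e y^-e ≠ 1 (e = B !): F3b with m = ssc B: x', y', a' = x'^e y'^e (x'^e)⁻¹ (y'^e)⁻¹ ≠ 1; x', y' in vs e ⊤ i (Pr_mem, vs_normal), so a' in vs e ⊤ (i+1) (ver_mem). Length: powers of elements of wball S W are in wball S (e * W)
(induction with wball_mul), W = ssc B * (w + 2 (card F)^(4e)); a' in wball S (4 * (e * W)). Case 2: A5 with m = ssc B gives x^e = 1 for all x in Pr a (ssc B); A3 gives m, n, x; F3a gives x' in Pr a m short with x'^n ≠ 1; z = x'^n in base Ω, length n * (m * (..)) <= e * W.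
-/

namespace GT48

open Subgroup GP48

universe u

private theorem A6_pow {P : Type*} [Group P] {S : Set P} {x : P} {W : ℕ} (hx : x ∈ wball S W)
    (n : ℕ) : x ^ n ∈ wball S (n * W) := by
  induction n with
  | zero => rw [pow_zero]; exact wball_one S _
  | succ n ih =>
    rw [pow_succ, Nat.succ_mul]
    exact wball_mul ih hx

theorem A6 {P F : Type*} [Group P] [Finite P] [MulAction P F] [FaithfulSMul P F] [Finite F]
    {T : Subgroup P} [T.Normal] {Ω : Set (Subgroup P)} (h : CompSys T Ω)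
    (hC : centralizer (T : Set P) = ⊥) (B : ℕ) (hcard : ∀ A ∈ Ω, Nat.card A ≤ B) (S : Set P)
    (hS : Subgroup.closure S = ⊤) {a : P} {w i : ℕ} (ha : a ≠ 1)
    (hav : a ∈ vs (Nat.factorial B) (⊤ : Subgroup P) i) (haw : a ∈ wball S w) :
    (∃ a' ∈ vs (Nat.factorial B) (⊤ : Subgroup P) (i + 1), a' ≠ 1 ∧
      a' ∈ wball S (4 * Nat.factorial B *
        (ssc B * (w + 2 * (Nat.card F) ^ (4 * Nat.factorial B))))) ∨
    (∃ z ∈ base Ω, z ≠ 1 ∧
      z ∈ wball S (4 * Nat.factorial B *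
        (ssc B * (w + 2 * (Nat.card F) ^ (4 * Nat.factorial B))))) := by
  by_cases hc : ∃ x ∈ Pr a (ssc B), ∃ y ∈ Pr a (ssc B),
      x ^ (Nat.factorial B) * y ^ (Nat.factorial B) * (x ^ (Nat.factorial B))⁻¹ *
        (y ^ (Nat.factorial B))⁻¹ ≠ 1
  · left
    obtain ⟨x, hx, y, hy, hxy⟩ := hc
    obtain ⟨x', hx', y', hy', hxw, hyw, hne⟩ := F3b (F := F) S hS haw (Nat.factorial B) (ssc B) hx hy hxy
    refine ⟨_, ?_, hne, ?_⟩
    · rw [vs_succ]
      exact ver_mem (Pr_mem hx' (vs_normal _ _ i) hav) (Pr_mem hy' (vs_normal _ _ i) hav)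
    · have h1 := A6_pow hxw (Nat.factorial B)
      have h2 := A6_pow hyw (Nat.factorial B)
      refine wball_mono S ?_ (wball_mul (wball_mul (wball_mul h1 h2) (wball_inv h1))
        (wball_inv h2))
      apply le_of_eq
      ring
  · right
    have hall : ∀ x ∈ Pr a (ssc B), ∀ y ∈ Pr a (ssc B),
        x ^ (Nat.factorial B) * y ^ (Nat.factorial B) * (x ^ (Nat.factorial B))⁻¹ *
          (y ^ (Nat.factorial B))⁻¹ = 1 := by
      intro x hx y hy
      by_contra hne
      exact hc ⟨x, hx, y, hy, hne⟩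
    obtain ⟨m, n, hm, hn, ⟨x, hx, hxn⟩, hbase⟩ := A3 h hC ha B hcard (A5 h hC hall)
    obtain ⟨x', hx', hxw, hxn'⟩ := F3a (F := F) S hS haw (Nat.factorial B) m n hn hx hxn
    refine ⟨x' ^ n, hbase x' hx', hxn', wball_mono S ?_ (A6_pow hxw n)⟩
    have h1 : m * (w + 2 * (Nat.card F) ^ (4 * Nat.factorial B)) ≤
        ssc B * (w + 2 * (Nat.card F) ^ (4 * Nat.factorial B)) := Nat.mul_le_mul_right _ hm
    have h2 : n ≤ 4 * Nat.factorial B := by omega
    exact Nat.mul_le_mul h2 h1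

end GT48
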