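import Mathlib
import Pool.Agent.LibGT48.Defs
import Pool.Agent.LibGT48.A6

/-!
# LibGT48 A7 (SHORT/MEDIUM, Defs + A6): iteration

κ = 4 * B ! * ssc B, R = (card F)^(4 B!). B >= 1 (some A in Ω has card >= 1), so ssc B >= 4 (msc B j >= 4B by induction) and κ >= 16 >= 2. P is nontrivial (T has noncommuting elements), so some s in S is ≠ 1 (otherwise closure S = ⊥); s in wball S 1 (wball_gen), s in vs _ ⊤ 0 = ⊤.
Claim by induction on i: either there is z in base Ω, z ≠ 1, z in wball S (κ^(i+1) (1+4R)), or there is a ≠ 1 in vs e ⊤ i, a in wball S (κ^i (1+4R) - 4R) (natural subtraction is fine, or state: ∃ w, w + 4R <= κ^i (1+4R) and a in wball S w).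
Step: w' = κ (w + 2R) and w' + 4R <= κ (w + 4R) (κ >= 2: 2κR >= 4R). At i = L: a in vs e ⊤ L <= base Ω, so z = a. wball_mono.
-/

namespace GT48

open Subgroup GP48

universe u

private theorem A7_msc (B j : ℕ) : 4 * B ≤ msc B j := by
  cases j with
  | zero => exact le_rfl
  | succ j => exact Nat.le_add_left _ _

theorem A7 {P F : Type*} [Group P] [Finite P] [MulAction P F] [FaithfulSMul P F] [Finite F]
    {T : Subgroup P} [T.Normal] {Ω : Set (Subgroup P)} (h : CompSys T Ω)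
    (hC : centralizer (T : Set P) = ⊥) (B : ℕ) (hcard : ∀ A ∈ Ω, Nat.card A ≤ B) (S : Set P)
    (hS : Subgroup.closure S = ⊤) (L : ℕ)
    (hL : vs (Nat.factorial B) (⊤ : Subgroup P) L ≤ base Ω) :
    ∃ z ∈ base Ω, z ≠ 1 ∧ z ∈ wball S ((4 * Nat.factorial B * ssc B) ^ (L + 1) *
      (1 + 4 * (Nat.card F) ^ (4 * Nat.factorial B))) := by
  obtain ⟨A, hA⟩ := h.ne
  have hB1 : 1 ≤ B := by
    have h1 : 0 < Nat.card A := Nat.card_pos
    exact h1.trans_le (hcard A hA)
  have he : 1 ≤ Nat.factorial B := Nat.factorial_pos B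
  have hssc : 4 ≤ ssc B := by
    have h1 : 4 * B ≤ ssc B := A7_msc B B
    omega
  set e := Nat.factorial B with hedef
  set R := (Nat.card F) ^ (4 * e) with hR
  set κ := 4 * e * ssc B with hκ
  have hκ2 : 2 ≤ κ := by
    have h1 : 1 * 4 ≤ e * ssc B := Nat.mul_le_mul he hssc
    have h2 : κ = 4 * (e * ssc B) := by rw [hκ, mul_assoc]
    omega
  obtain ⟨s, hs, hs1⟩ : ∃ s ∈ S, s ≠ 1 := by
    by_contra hcon
    push Not at hcon
    have h1 : Subgroup.closure S = ⊥ := Subgroup.closure_eq_bot_iff.2 fun x hx => hcon x hx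
    rw [hS] at h1
    obtain ⟨a, _, b, _, hab⟩ := h.na A hA
    have h2 : ∀ x : P, x = 1 := fun x => by
      have h3 : x ∈ (⊤ : Subgroup P) := trivial
      rw [h1] at h3
      exact Subgroup.mem_bot.1 h3
    exact hab (by rw [h2 a, h2 b])
  have key : ∀ i, (∃ z ∈ base Ω, z ≠ 1 ∧ z ∈ wball S (κ ^ (i + 1) * (1 + 4 * R))) ∨
      (∃ a ∈ vs e (⊤ : Subgroup P) i, a ≠ 1 ∧ ∃ w, w + 4 * R ≤ κ ^ i * (1 + 4 * R) ∧
        a ∈ wball S w) := by
    intro i
    induction i with
    | zero =>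
      right
      exact ⟨s, trivial, hs1, 1, by rw [pow_zero, one_mul], wball_gen hs⟩
    | succ i ih =>
      have hmono : κ ^ (i + 1) * (1 + 4 * R) ≤ κ ^ (i + 1 + 1) * (1 + 4 * R) :=
        Nat.mul_le_mul_right _ (Nat.pow_le_pow_right (by omega) (by omega))
      rcases ih with ⟨z, hz, hz1, hzw⟩ | ⟨a, ha, ha1, w, hw, haw⟩
      · exact Or.inl ⟨z, hz, hz1, wball_mono S hmono hzw⟩
      · have hlen : 4 * e * (ssc B * (w + 2 * R)) = κ * (w + 2 * R) := by
          rw [hκ, mul_assoc (4 * e)]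
        have h1 : κ * (w + 4 * R) ≤ κ ^ (i + 1) * (1 + 4 * R) := by
          have h2 := Nat.mul_le_mul_left κ hw
          have h2' : κ ^ (i + 1) * (1 + 4 * R) = κ * (κ ^ i * (1 + 4 * R)) := by ring
          rw [h2']
          exact h2
        have h3 : κ * (w + 2 * R) + 4 * R ≤ κ * (w + 4 * R) := by
          have h4 : κ * (w + 4 * R) = κ * (w + 2 * R) + κ * (2 * R) := by ring
          have h5 : 2 * (2 * R) ≤ κ * (2 * R) := Nat.mul_le_mul_right _ hκ2
          omega
        rcases A6 (F := F) h hC B hcard S hS ha1 ha haw with ⟨a', ha', ha'1, haw'⟩ | ⟨z, hz, hz1, hzw⟩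
        · right
          refine ⟨a', ha', ha'1, κ * (w + 2 * R), h3.trans h1, ?_⟩
          rw [← hlen]
          exact haw'
        · left
          refine ⟨z, hz, hz1, wball_mono S ?_ hzw⟩
          have h6 : 4 * e * (ssc B * (w + 2 * R)) ≤ κ ^ (i + 1) * (1 + 4 * R) := by
            rw [hlen]
            omega
          exact h6.trans hmono
  rcases key L with ⟨z, hz, hz1, hzw⟩ | ⟨a, ha, ha1, w, hw, haw⟩
  · exact ⟨z, hz, hz1, hzw⟩
  · refine ⟨a, hL ha, ha1, wball_mono S ?_ haw⟩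
    have h1 : κ ^ L * (1 + 4 * R) ≤ κ ^ (L + 1) * (1 + 4 * R) :=
      Nat.mul_le_mul_right _ (Nat.pow_le_pow_right (by omega) (by omega))
    omega

end GT48
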