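import Mathlib
import Pool.Agent.LibGT48.Defs

/-!
# LibGT48 BD1: closure properties of the class `Bd B`
-/

namespace GT48

open Subgroup

theorem BD1 {B : ℕ} {H : Type*} [Group H] (h : Bd B H) (M : Subgroup H) {S : Type*} [Group S]
    (hS : IsSimpleGroup S) (f : M →* S) (hf : Function.Surjective f)
    (hna : ∃ a b : S, a * b ≠ b * a) : Nat.card S ≤ B := by
  let e : M ⧸ f.ker ≃* S := QuotientGroup.quotientKerEquivOfSurjective f hf
  have h1 : IsSimpleGroup (M ⧸ f.ker) := e.isSimpleGroup_congr.2 hS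
  have h2 : ∃ a b : M ⧸ f.ker, a * b ≠ b * a := by
    obtain ⟨a, b, hab⟩ := hna
    refine ⟨e.symm a, e.symm b, fun h3 => hab ?_⟩
    have h4 := congrArg e h3
    simpa using h4
  have h5 := h M f.ker h1 h2
  rwa [Nat.card_congr e.toEquiv] at h5

theorem Bd.inj {B : ℕ} {H H' : Type*} [Group H] [Group H'] (h : Bd B H') (f : H →* H')
    (hf : Function.Injective f) : Bd B H := by
  intro M N _ h1 h2
  let e : M ≃* M.map f := M.equivMapOfInjective f hf
  exact BD1 h (M.map f) h1 ((QuotientGroup.mk' N).comp e.symm.toMonoidHom)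
    ((QuotientGroup.mk'_surjective N).comp e.symm.surjective) h2

theorem Bd.sub {B : ℕ} {H : Type*} [Group H] (h : Bd B H) (K : Subgroup H) : Bd B K :=
  h.inj K.subtype K.subtype_injective

theorem Bd.surj {B : ℕ} {H H' : Type*} [Group H] [Group H'] (h : Bd B H) (f : H →* H')
    (hf : Function.Surjective f) : Bd B H' := by
  intro M N _ h1 h2
  let g : M.comap f →* M := (f.comp (M.comap f).subtype).codRestrict M (fun x => x.2)
  have hg : Function.Surjective g := by
    rintro ⟨y, hy⟩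
    obtain ⟨x, rfl⟩ := hf y
    exact ⟨⟨x, hy⟩, rfl⟩
  exact BD1 h (M.comap f) h1 ((QuotientGroup.mk' N).comp g)
    ((QuotientGroup.mk'_surjective N).comp hg) h2

theorem Bd.of_card {B : ℕ} {H : Type*} [Group H] [Finite H] (h : Nat.card H ≤ B) : Bd B H := by
  intro M N _ _ _
  calc Nat.card (M ⧸ N) ≤ Nat.card M :=
        Nat.card_le_card_of_surjective (QuotientGroup.mk' N) (QuotientGroup.mk'_surjective N)
    _ ≤ Nat.card H := Nat.card_le_card_of_injective M.subtype M.subtype_injective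
    _ ≤ B := h

theorem Bd.simple_le {B : ℕ} {H : Type*} [Group H] (h : Bd B H) (A : Subgroup H)
    (hA : IsSimpleGroup A) (hna : ∃ a ∈ A, ∃ b ∈ A, a * b ≠ b * a) : Nat.card A ≤ B := by
  obtain ⟨a, ha, b, hb, hab⟩ := hna
  exact BD1 h A hA (MonoidHom.id A) Function.surjective_id
    ⟨⟨a, ha⟩, ⟨b, hb⟩, fun h1 => hab (congrArg Subtype.val h1)⟩

end GT48
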