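import Mathlib
import Pool.Agent.LibGT48.Defs
import Pool.Agent.LibGT48.BD1

/-!
# LibGT48 BD2 (SHORT/MEDIUM, only Defs + BD1): extensions and finite products are in the class

Bd.ext: let M be a subgroup of H, N1 normal in M, M/N1 simple nonabelian. Put f : M -> M/N1 =: Q, N' = N.subgroupOf M (normal in M). The image of N' under f is a normal subgroup of the simple
group Q: it is ⊥ or ⊤. If it is ⊤: the subgroup M ⊓ N of N maps onto Q, so Nat.card Q <= B by BD1 for N (use the subgroup (M.comap N.subtype) of N, i.e. N' seen in N, and the composite to Q). If it is ⊥: f factors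
through the image M.map (QuotientGroup.mk' N) of M in H/N (kernel of M -> M.map mk is N', contained in ker f; QuotientGroup.lift or MonoidHom.liftOfSurjective), so BD1 for H/N.
Bd.pi: induction over a finite type: use Finite.induction_empty_option or: prove for Finset s that the product over s is in the class; simplest: for ι = Fin n by induction on n with the kernel of the first projection
(Bd.ext, Bd.inj) and then transport by an equivalence ι ≃ Fin n (Bd.inj along the reindexing homomorphism). n = 0: trivial group (Bd.of_card is not enough when B = 0: then use directly that a trivial group has no nonabelian section).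
Only the constant-free version below is needed.
-/

namespace GT48

open Subgroup GP48

universe u

theorem Bd.ext {B : ℕ} {H : Type*} [Group H] (N : Subgroup H) [N.Normal] (h1 : Bd B N)
    (h2 : Bd B (H ⧸ N)) : Bd B H := by
  intro M N1 _ hs hna
  have hf : Function.Surjective (QuotientGroup.mk' N1) := QuotientGroup.mk'_surjective N1
  have hN : ((N.subgroupOf M).map (QuotientGroup.mk' N1)).Normal := Subgroup.Normal.map inferInstance _ hf
  rcases hs.eq_bot_or_eq_top_of_normal _ hN with h | h
  · have hle : N.subgroupOf M ≤ (QuotientGroup.mk' N1).ker := by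
      rwa [Subgroup.map_eq_bot_iff] at h
    have hle2 : N.subgroupOf M ≤ ((QuotientGroup.mk' N).comp M.subtype).ker := by
      intro x hx
      rw [MonoidHom.mem_ker]
      exact (QuotientGroup.eq_one_iff _).2 hx
    have h3 : Bd B (M ⧸ N.subgroupOf M) := by
      refine h2.inj (QuotientGroup.lift (N.subgroupOf M) ((QuotientGroup.mk' N).comp M.subtype) hle2) ?_
      rw [injective_iff_map_eq_one]
      intro a ha
      obtain ⟨x, rfl⟩ := QuotientGroup.mk_surjective a
      rw [QuotientGroup.lift_mk] at ha
      have h4 : (x : H) ∈ N := (QuotientGroup.eq_one_iff (x : H)).1 ha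
      exact (QuotientGroup.eq_one_iff x).2 h4
    refine BD1 h3 (⊤ : Subgroup (M ⧸ N.subgroupOf M)) hs
      ((QuotientGroup.lift (N.subgroupOf M) (QuotientGroup.mk' N1) hle).comp (Subgroup.subtype ⊤)) ?_ hna
    intro y
    obtain ⟨x, rfl⟩ := hf y
    exact ⟨⟨(x : M ⧸ N.subgroupOf M), trivial⟩, rfl⟩
  · have h3 : Bd B (N.subgroupOf M) := by
      refine h1.inj ((M.subtype.comp (N.subgroupOf M).subtype).codRestrict N (fun x => x.2)) ?_
      intro x y hxy
      have h4 : ((x : M) : H) = ((y : M) : H) := congrArg (fun z : N => (z : H)) hxy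
      exact Subtype.ext (Subtype.ext h4)
    refine BD1 h3 (⊤ : Subgroup (N.subgroupOf M)) hs
      (((QuotientGroup.mk' N1).comp (N.subgroupOf M).subtype).comp (Subgroup.subtype ⊤)) ?_ hna
    intro y
    have hy : y ∈ (N.subgroupOf M).map (QuotientGroup.mk' N1) := by
      rw [h]
      trivial
    obtain ⟨x, hx, rfl⟩ := hy
    exact ⟨⟨⟨x, hx⟩, trivial⟩, rfl⟩

private theorem BD2_pi.{u1, v1} (B : ℕ) (ι : Type u1) [Finite ι] :
    ∀ (H : ι → Type v1) [∀ i, Group (H i)], (∀ i, Bd B (H i)) → Bd B (∀ i, H i) := by
  refine Finite.induction_empty_option (P := fun ι : Type u1 =>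
    ∀ (H : ι → Type v1) [∀ i, Group (H i)], (∀ i, Bd B (H i)) → Bd B (∀ i, H i)) ?_ ?_ ?_ ι
  · intro α β e hα H _ h
    refine (hα (fun a => H (e a)) fun a => h (e a)).inj
      (MonoidHom.pi fun a => Pi.evalMonoidHom H (e a)) ?_
    intro x y hxy
    funext b
    obtain ⟨a, rfl⟩ := e.surjective b
    exact congrFun hxy a
  · intro H _ _ M N _ _ hna
    obtain ⟨a, b, hab⟩ := hna
    obtain ⟨x, rfl⟩ := QuotientGroup.mk_surjective a
    obtain ⟨y, rfl⟩ := QuotientGroup.mk_surjective b
    have hxy : x = y := Subsingleton.elim x y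
    subst hxy
    exact absurd rfl hab
  · intro α _ hα H _ h
    let p : (∀ i, H i) →* (∀ a, H (some a)) := MonoidHom.pi fun a => Pi.evalMonoidHom H (some a)
    refine Bd.ext p.ker ?_ ?_
    · refine (h none).inj ((Pi.evalMonoidHom H none).comp p.ker.subtype) ?_
      intro x y hxy
      apply Subtype.ext
      funext i
      cases i with
      | none => exact hxy
      | some a =>
        have h1 : (x : ∀ i, H i) (some a) = 1 := congrFun ((MonoidHom.mem_ker).1 x.2) a
        have h2 : (y : ∀ i, H i) (some a) = 1 := congrFun ((MonoidHom.mem_ker).1 y.2) a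
        rw [h1, h2]
    · exact (hα (fun a => H (some a)) fun a => h (some a)).inj (QuotientGroup.kerLift p)
        (QuotientGroup.kerLift_injective p)

theorem Bd.pi {B : ℕ} {ι : Type*} [Finite ι] {H : ι → Type*} [∀ i, Group (H i)]
    (h : ∀ i, Bd B (H i)) : Bd B (∀ i, H i) := by
  refine BD2_pi B ι H h

end GT48
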