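import Mathlib
import Pool.Agent.LibGT48.Defs

/-!
# LibGT48 FR (MEDIUM, only Defs): frames

F = P ⧸ centralizer A. x • (g C) = g C iff g⁻¹ x g in C = centralizer A iff x in centralizer (g A g⁻¹) = centralizer (A.map (conj g)). FRa: for A' in Ω choose g with A.map (conj g) = A' (h.trans), f = g C. Faithful: an x fixing all cosets centralises all A' in Ω,
so T = sSup Ω, so x = 1. FRb: the map P ⧸ C → (Σ over A' in Ω of functions A → A'): or simply the injection P ⧸ C → Ω × (Fin (card A) → Fin (card A))-like; precise: gC ↦ (A.map (conj g), the function A → (A.map (conj g)) given by conjugation by g); two cosets with the same image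
are equal. Count: Nat.card (Σ A' : Ω, (A → A')) = sum over A' of (card A')^(card A) = Ω.ncard * (card A)^(card A) <= Ω.ncard * B^B (all members have the same card). (Alternative: Subgroup.relIndex: index of C = index of normalizer A * relIndex; normalizer index = card of the
orbit = ncard Ω; relIndex C normalizer <= card (MulAut A).)
-/

namespace GT48

open Subgroup GP48

universe u

private theorem fr_comm {P : Type*} [Group P] (a x g : P) :
    a * (g⁻¹ * x * g) = (g⁻¹ * x * g) * a ↔ (g * a * g⁻¹) * x = x * (g * a * g⁻¹) := by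
  constructor
  · intro h
    calc (g * a * g⁻¹) * x = g * (a * (g⁻¹ * x * g)) * g⁻¹ := by group
      _ = g * ((g⁻¹ * x * g) * a) * g⁻¹ := by rw [h]
      _ = x * (g * a * g⁻¹) := by group
  · intro h
    calc a * (g⁻¹ * x * g) = g⁻¹ * ((g * a * g⁻¹) * x) * g := by group
      _ = g⁻¹ * (x * (g * a * g⁻¹)) * g := by rw [h]
      _ = (g⁻¹ * x * g) * a := by group

private theorem fr_cent {P : Type*} [Group P] (A : Subgroup P) (x g : P) :
    g⁻¹ * x * g ∈ centralizer (A : Set P) ↔
      x ∈ centralizer ((A.map (MulAut.conj g).toMonoidHom : Subgroup P) : Set P) := by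
  rw [mem_centralizer_iff, mem_centralizer_iff]
  constructor
  · rintro h _ ⟨a, ha, rfl⟩
    exact (fr_comm a x g).1 (h a ha)
  · intro h a ha
    exact (fr_comm a x g).2 (h _ ⟨a, ha, rfl⟩)

private theorem fr_fix {P : Type*} [Group P] (A : Subgroup P) (x g : P) :
    x • (g : P ⧸ centralizer (A : Set P)) = (g : P ⧸ centralizer (A : Set P)) ↔
      x ∈ centralizer ((A.map (MulAut.conj g).toMonoidHom : Subgroup P) : Set P) := by
  have h1 : x • (g : P ⧸ centralizer (A : Set P)) = ((x * g : P) : P ⧸ centralizer (A : Set P)) := rfl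
  rw [h1, eq_comm, QuotientGroup.eq, ← mul_assoc, fr_cent]

theorem FRa {P : Type*} [Group P] {T : Subgroup P} {Ω : Set (Subgroup P)} (h : CompSys T Ω)
    {A : Subgroup P} (hA : A ∈ Ω) : ∀ A' ∈ Ω, ∃ f : P ⧸ centralizer (A : Set P),
      ∀ x : P, x • f = f ↔ x ∈ centralizer (A' : Set P) := by
  intro A' hA'
  obtain ⟨g, rfl⟩ := h.trans A hA A' hA'
  exact ⟨(g : P ⧸ centralizer (A : Set P)), fun x => fr_fix A x g⟩

theorem FRf {P : Type*} [Group P] {T : Subgroup P} {Ω : Set (Subgroup P)} (h : CompSys T Ω)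
    (hC : centralizer (T : Set P) = ⊥) {A : Subgroup P} (hA : A ∈ Ω) :
    FaithfulSMul P (P ⧸ centralizer (A : Set P)) := by
  refine ⟨fun {x y} hxy => ?_⟩
  have h1 : ∀ f : P ⧸ centralizer (A : Set P), (y⁻¹ * x) • f = f := by
    intro f
    rw [mul_smul, hxy f, inv_smul_smul]
  have h2 : T ≤ centralizer ({y⁻¹ * x} : Set P) := by
    rw [← h.sup]
    refine sSup_le fun A' hA' => ?_
    obtain ⟨f, hf⟩ := FRa h hA A' hA'
    have h3 := (hf _).1 (h1 f)
    intro a ha
    rw [mem_centralizer_iff] at h3 ⊢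
    intro z hz
    rw [Set.mem_singleton_iff] at hz
    rw [hz]
    exact (h3 a ha).symm
  have h4 : y⁻¹ * x ∈ centralizer (T : Set P) := by
    rw [mem_centralizer_iff]
    intro a ha
    have h5 := mem_centralizer_iff.1 (h2 ha) (y⁻¹ * x) rfl
    exact h5.symm
  rw [hC, mem_bot, inv_mul_eq_one] at h4
  exact h4.symm

theorem FRb {P : Type*} [Group P] [Finite P] {T : Subgroup P} {Ω : Set (Subgroup P)}
    (h : CompSys T Ω) {A : Subgroup P} (hA : A ∈ Ω) (B : ℕ) (hB : Nat.card A ≤ B) :
    Nat.card (P ⧸ centralizer (A : Set P)) ≤ Ω.ncard * B ^ B := by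
  classical
  have : Fintype Ω := Fintype.ofFinite Ω
  have hcard : ∀ A' : Ω, Nat.card (A'.1 : Subgroup P) = Nat.card A := by
    intro A'
    obtain ⟨g, hg⟩ := h.trans A hA A'.1 A'.2
    rw [← hg]
    exact (Nat.card_congr (A.equivMapOfInjective _ (MulAut.conj g).injective).toEquiv).symm
  let Φ : P ⧸ centralizer (A : Set P) → (Σ A' : Ω, (A → (A'.1 : Subgroup P))) := fun q =>
    ⟨⟨A.map (MulAut.conj q.out).toMonoidHom, h.conj q.out A hA⟩,
      fun a => ⟨q.out * a * (q.out)⁻¹, ⟨a, a.2, rfl⟩⟩⟩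
  have key : ∀ (S S' : Σ A' : Ω, (A → (A'.1 : Subgroup P))), S = S' →
      ∀ a, ((S.2 a : (S.1.1 : Subgroup P)) : P) = ((S'.2 a : (S'.1.1 : Subgroup P)) : P) := by
    rintro S S' rfl a
    rfl
  have hΦ : Function.Injective Φ := by
    intro q q' hq
    have h1 : ∀ a : A, q.out * a * (q.out)⁻¹ = q'.out * a * (q'.out)⁻¹ := key _ _ hq
    rw [← QuotientGroup.out_eq' q, ← QuotientGroup.out_eq' q', QuotientGroup.eq, mem_centralizer_iff]
    intro a ha
    have h2 := h1 ⟨a, ha⟩
    dsimp only at h2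
    calc a * ((q.out)⁻¹ * q'.out) = (q.out)⁻¹ * (q.out * a * (q.out)⁻¹) * q'.out := by group
      _ = (q.out)⁻¹ * (q'.out * a * (q'.out)⁻¹) * q'.out := by rw [h2]
      _ = (q.out)⁻¹ * q'.out * a := by group
  have hfin : ∀ A' : Ω, Finite (A → (A'.1 : Subgroup P)) := fun A' => inferInstance
  calc Nat.card (P ⧸ centralizer (A : Set P))
      ≤ Nat.card (Σ A' : Ω, (A → (A'.1 : Subgroup P))) := Nat.card_le_card_of_injective Φ hΦ
    _ = ∑ A' : Ω, Nat.card (A → (A'.1 : Subgroup P)) := Nat.card_sigma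
    _ = ∑ _A' : Ω, Nat.card A ^ Nat.card A := by
        refine Finset.sum_congr rfl fun A' _ => ?_
        rw [Nat.card_fun, hcard A']
    _ = Ω.ncard * Nat.card A ^ Nat.card A := by
        rw [Finset.sum_const, smul_eq_mul, Finset.card_univ, ← Nat.card_eq_fintype_card]
        rfl
    _ ≤ Ω.ncard * B ^ B := by
        refine Nat.mul_le_mul_left _ ?_
        have h1 : 1 ≤ B := Nat.one_le_iff_ne_zero.2 (by
          have := Nat.card_pos (α := A)
          omega)
        exact (Nat.pow_le_pow_left hB _).trans (Nat.pow_le_pow_right h1 hB)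

end GT48
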