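import Mathlib
import Pool.Agent.LibGT48.Defs
import Pool.Agent.LibGT48.F1
import Pool.Agent.LibGT48.FR

/-!
# LibGT48 C1 (MEDIUM, Defs + F1): leaves

z ≠ 1, centralizer T = ⊥, T = sSup Ω: some A in Ω is not centralised by z: t in A with z⁻¹ t⁻¹ z t ≠ 1 =: u; u in A because z normalises A (z in base Ω, so z⁻¹ too). Let A' in Ω, A' ≠ A, s in A; f, f' the points of F for A, A' (hF).
F1 with q = 2, E = ![f, f'], h = t: h1 in wball S (card F ^ 2) with h1 • f = t • f, h1 • f' = t • f' = f' (t centralises A' by h.comm). η = t⁻¹ h1 fixes f and f', so η in centralizer A and centralizer A'. Same for s: h2 with s⁻¹ h2 in centralizer A ⊓ centralizer A'.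
y1 = z⁻¹ * h1⁻¹ * z * h1: in base Ω (base is a normal subgroup: g x g⁻¹ in base for x in base: A ↦ conj permutes Ω). For x in A: y1 x y1⁻¹ = u x u⁻¹: h1 acts on A as t, z normalises A. For x in A': h1 centralises A', z⁻¹ A' z = A', so y1 centralises A'.
y = h2 * y1 * h2⁻¹ : acts on A as s u s⁻¹, centralises A' (h2 centralises A'). Length 2w + 2 card F^2 + 2 card F^2.
-/

namespace GT48

open Subgroup GP48

universe u

private lemma C1_map_conj_mul {P : Type*} [Group P] (A : Subgroup P) (x y : P) :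
    A.map (MulAut.conj (x * y)).toMonoidHom =
      (A.map (MulAut.conj y).toMonoidHom).map (MulAut.conj x).toMonoidHom := by
  have h1 : (MulAut.conj (x * y)).toMonoidHom
      = (MulAut.conj x).toMonoidHom.comp (MulAut.conj y).toMonoidHom := by
    ext z
    simp [mul_assoc]
  rw [h1, ← map_map]

private lemma C1_map_conj_one {P : Type*} [Group P] (A : Subgroup P) :
    A.map (MulAut.conj (1 : P)).toMonoidHom = A := by
  ext y
  simp [mem_map]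

lemma base_normal {P : Type*} [Group P] {T : Subgroup P} {Ω : Set (Subgroup P)}
    (h : CompSys T Ω) : (base Ω).Normal := by
  constructor
  intro x hx g A hA
  have h1 := hx _ (h.conj g⁻¹ A hA)
  rw [C1_map_conj_mul, C1_map_conj_mul, h1, ← C1_map_conj_mul, mul_inv_cancel, C1_map_conj_one]

private lemma C1_base_conj {P : Type*} [Group P] {Ω : Set (Subgroup P)} {z : P} (hz : z ∈ base Ω)
    {A : Subgroup P} (hA : A ∈ Ω) {t : P} (ht : t ∈ A) : z * t * z⁻¹ ∈ A := by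
  have h1 : A.map (MulAut.conj z).toMonoidHom = A := hz A hA
  rw [← h1]
  exact ⟨t, ht, rfl⟩

private lemma C1_base_conj' {P : Type*} [Group P] {Ω : Set (Subgroup P)} {z : P} (hz : z ∈ base Ω)
    {A : Subgroup P} (hA : A ∈ Ω) {t : P} (ht : t ∈ A) : z⁻¹ * t * z ∈ A := by
  have := C1_base_conj ((base Ω).inv_mem hz) hA ht
  rwa [inv_inv] at this

private lemma C1_act {P : Type*} [Group P] {A : Subgroup P} {t h : P}
    (hc : t⁻¹ * h ∈ centralizer (A : Set P)) {x : P} (hx : x ∈ A) : h * x * h⁻¹ = t * x * t⁻¹ := by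
  have e : x * (t⁻¹ * h) = (t⁻¹ * h) * x := mem_centralizer_iff.1 hc x hx
  calc h * x * h⁻¹ = t * ((t⁻¹ * h) * x) * (t⁻¹ * h)⁻¹ * t⁻¹ := by group
    _ = t * (x * (t⁻¹ * h)) * (t⁻¹ * h)⁻¹ * t⁻¹ := by rw [e]
    _ = t * x * t⁻¹ := by group

private lemma C1_act' {P : Type*} [Group P] {A : Subgroup P} {t h : P} (ht : t ∈ A)
    (hc : t⁻¹ * h ∈ centralizer (A : Set P)) {x : P} (hx : x ∈ A) : h⁻¹ * x * h = t⁻¹ * x * t := by
  have hx' : t⁻¹ * x * t ∈ A := A.mul_mem (A.mul_mem (A.inv_mem ht) hx) ht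
  have e := C1_act hc hx'
  calc h⁻¹ * x * h = h⁻¹ * (t * (t⁻¹ * x * t) * t⁻¹) * h := by group
    _ = h⁻¹ * (h * (t⁻¹ * x * t) * h⁻¹) * h := by rw [e]
    _ = t⁻¹ * x * t := by group

theorem C1 {P F : Type*} [Group P] [MulAction P F] [Finite F] {T : Subgroup P}
    {Ω : Set (Subgroup P)} (h : CompSys T Ω) (hC : centralizer (T : Set P) = ⊥)
    (hF : ∀ A ∈ Ω, ∃ f : F, ∀ x : P, x • f = f ↔ x ∈ centralizer (A : Set P)) (S : Set P)
    (hS : Subgroup.closure S = ⊤) {z : P} {w : ℕ} (hz : z ∈ base Ω) (hz1 : z ≠ 1)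
    (hzw : z ∈ wball S w) :
    ∃ A ∈ Ω, ∃ u ∈ A, u ≠ 1 ∧ ∀ A' ∈ Ω, A' ≠ A → ∀ s ∈ A, ∃ y ∈ base Ω,
      y ∈ wball S (2 * w + 4 * (Nat.card F) ^ 2) ∧
      (∀ x ∈ A, y * x * y⁻¹ = (s * u * s⁻¹) * x * (s * u * s⁻¹)⁻¹) ∧
      y ∈ centralizer (A' : Set P) := by
  -- a component which is not centralised by `z`
  have h1 : ∃ A ∈ Ω, ∃ t ∈ A, t * z ≠ z * t := by
    by_contra hcon
    push Not at hcon
    apply hz1
    have h2 : T ≤ centralizer ({z} : Set P) := by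
      rw [← h.sup]
      refine sSup_le fun A hA t ht => ?_
      rw [mem_centralizer_iff]
      intro y hy
      rw [Set.mem_singleton_iff] at hy
      subst hy
      exact (hcon A hA t ht).symm
    have h3 : z ∈ centralizer (T : Set P) := by
      rw [mem_centralizer_iff]
      intro t ht
      have := mem_centralizer_iff.1 (h2 ht) z rfl
      exact this.symm
    rw [hC, mem_bot] at h3
    exact h3
  obtain ⟨A, hA, t, ht, htz⟩ := h1
  refine ⟨A, hA, z⁻¹ * t⁻¹ * z * t, A.mul_mem (C1_base_conj' hz hA (A.inv_mem ht)) ht, ?_, ?_⟩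
  · intro hu
    apply htz
    calc t * z = t * z * (z⁻¹ * t⁻¹ * z * t) := by rw [hu, mul_one]
      _ = z * t := by group
  intro A' hA' hne s hs
  obtain ⟨f, hf⟩ := hF A hA
  obtain ⟨f', hf'⟩ := hF A' hA'
  have hcA : ∀ g ∈ A, ∃ g1 ∈ wball S ((Nat.card F) ^ 2), g⁻¹ * g1 ∈ centralizer (A : Set P) ∧
      g1 ∈ centralizer (A' : Set P) := by
    intro g hg
    obtain ⟨g1, hg1, hg2⟩ := F1 S hS 2 ![f, f'] g
    have e0 : g1 • f = g • f := hg2 0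
    have e1 : g1 • f' = g • f' := hg2 1
    have e2 : g • f' = f' := by
      rw [hf', mem_centralizer_iff]
      intro b hb
      exact (h.comm A hA A' hA' (Ne.symm hne) g hg b hb).symm
    refine ⟨g1, hg1, ?_, ?_⟩
    · rw [← hf, mul_smul, e0, inv_smul_smul]
    · rw [← hf', e1, e2]
  obtain ⟨k1, hk1, hk1c, hk1c'⟩ := hcA t ht
  obtain ⟨k2, hk2, hk2c, hk2c'⟩ := hcA s hs
  have hn := base_normal h
  have hy1 : z⁻¹ * k1⁻¹ * z * k1 ∈ base Ω := by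
    have e : z⁻¹ * k1⁻¹ * z * k1 = z⁻¹ * (k1⁻¹ * z * (k1⁻¹)⁻¹) := by group
    rw [e]
    exact (base Ω).mul_mem ((base Ω).inv_mem hz) (hn.conj_mem z hz k1⁻¹)
  have hy1A : ∀ x ∈ A, (z⁻¹ * k1⁻¹ * z * k1) * x * (z⁻¹ * k1⁻¹ * z * k1)⁻¹ =
      (z⁻¹ * t⁻¹ * z * t) * x * (z⁻¹ * t⁻¹ * z * t)⁻¹ := by
    intro x hx
    have e1 : k1 * x * k1⁻¹ = t * x * t⁻¹ := C1_act hk1c hx
    have hx2 : z * (t * x * t⁻¹) * z⁻¹ ∈ A :=
      C1_base_conj hz hA (A.mul_mem (A.mul_mem ht hx) (A.inv_mem ht))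
    have e2 := C1_act' ht hk1c hx2
    calc (z⁻¹ * k1⁻¹ * z * k1) * x * (z⁻¹ * k1⁻¹ * z * k1)⁻¹
        = z⁻¹ * (k1⁻¹ * (z * (k1 * x * k1⁻¹) * z⁻¹) * k1) * z := by group
      _ = z⁻¹ * (t⁻¹ * (z * (t * x * t⁻¹) * z⁻¹) * t) * z := by rw [e1, e2]
      _ = (z⁻¹ * t⁻¹ * z * t) * x * (z⁻¹ * t⁻¹ * z * t)⁻¹ := by group
  have hy1A' : z⁻¹ * k1⁻¹ * z * k1 ∈ centralizer (A' : Set P) := by
    rw [mem_centralizer_iff]
    intro b hb
    have e1 : b * k1 = k1 * b := mem_centralizer_iff.1 hk1c' b hb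
    have hb2 : z * b * z⁻¹ ∈ A' := C1_base_conj hz hA' hb
    have e2 : (z * b * z⁻¹) * k1 = k1 * (z * b * z⁻¹) := mem_centralizer_iff.1 hk1c' _ hb2
    have e3 : k1⁻¹ * (z * b * z⁻¹) = (z * b * z⁻¹) * k1⁻¹ := by
      calc k1⁻¹ * (z * b * z⁻¹) = k1⁻¹ * ((z * b * z⁻¹) * k1) * k1⁻¹ := by group
        _ = k1⁻¹ * (k1 * (z * b * z⁻¹)) * k1⁻¹ := by rw [e2]
        _ = (z * b * z⁻¹) * k1⁻¹ := by group
    calc b * (z⁻¹ * k1⁻¹ * z * k1) = z⁻¹ * ((z * b * z⁻¹) * k1⁻¹) * z * k1 := by group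
      _ = z⁻¹ * (k1⁻¹ * (z * b * z⁻¹)) * z * k1 := by rw [e3]
      _ = z⁻¹ * k1⁻¹ * z * (b * k1) := by group
      _ = z⁻¹ * k1⁻¹ * z * (k1 * b) := by rw [e1]
      _ = (z⁻¹ * k1⁻¹ * z * k1) * b := by group
  refine ⟨k2 * (z⁻¹ * k1⁻¹ * z * k1) * k2⁻¹, hn.conj_mem _ hy1 k2, ?_, ?_, ?_⟩
  · have hlen := wball_mul (wball_mul hk2 (wball_mul (wball_mul (wball_mul (wball_inv hzw) (wball_inv hk1)) hzw) hk1))
      (wball_inv hk2)
    refine wball_mono S ?_ hlen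
    omega
  · intro x hx
    have e1 : k2⁻¹ * x * k2 = s⁻¹ * x * s := C1_act' hs hk2c hx
    have hx2 : s⁻¹ * x * s ∈ A := A.mul_mem (A.mul_mem (A.inv_mem hs) hx) hs
    have e2 := hy1A _ hx2
    have hu : z⁻¹ * t⁻¹ * z * t ∈ A := A.mul_mem (C1_base_conj' hz hA (A.inv_mem ht)) ht
    have hx3 : (z⁻¹ * t⁻¹ * z * t) * (s⁻¹ * x * s) * (z⁻¹ * t⁻¹ * z * t)⁻¹ ∈ A :=
      A.mul_mem (A.mul_mem hu hx2) (A.inv_mem hu)
    have e3 := C1_act hk2c hx3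
    generalize z⁻¹ * t⁻¹ * z * t = u at e2 e3 ⊢
    generalize z⁻¹ * k1⁻¹ * z * k1 = y at e2 ⊢
    calc k2 * y * k2⁻¹ * x * (k2 * y * k2⁻¹)⁻¹ = k2 * (y * (k2⁻¹ * x * k2) * y⁻¹) * k2⁻¹ := by group
      _ = k2 * (u * (s⁻¹ * x * s) * u⁻¹) * k2⁻¹ := by rw [e1, e2]
      _ = s * (u * (s⁻¹ * x * s) * u⁻¹) * s⁻¹ := e3
      _ = (s * u * s⁻¹) * x * (s * u * s⁻¹)⁻¹ := by group
  · exact (centralizer (A' : Set P)).mul_mem ((centralizer (A' : Set P)).mul_mem hk2c' hy1A')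
      ((centralizer (A' : Set P)).inv_mem hk2c')

end GT48
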