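import Mathlib
import Pool.Agent.LibGT48.Defs

/-!
# LibGT48 C2 (MEDIUM, only Defs): binary tree of commutators

Define W : ℕ → Set P by W 0 = {s * u * s⁻¹ : s in A}, W (d+1) = {g : g ≠ 1 and g = x * y * x⁻¹ * y⁻¹, x, y in W d} (use a local def / Nat.rec, subsets of A). W d is invariant under conjugation by A and all its elements are in A and ≠ 1. Nonempty: if x y = y x for all x, y in W d then the subgroup closure of (W d) in A
is a commutative nontrivial normal subgroup of the simple group A, so A is commutative, contradiction with h.na. Claim by induction on d: for all v in W d and all finsets D of members of Ω different from A with D.card <= 2^d there is y in base Ω, y in wball S (4^d * l), y acts on A as v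
(∀ x in A, y x y⁻¹ = v x v⁻¹) and y centralises all members of D. d = 0: D has at most one element: D = {A'}: hleaf; D = ∅: hleaf for the A' of hk. d+1: v = [x, y]; split D = D1 ∪ D2 with cards <= 2^d; y1 for x, D1; y2 for y, D2; y1 y2 y1⁻¹ y2⁻¹: for A' in D1:
y1 acts trivially on A' and y2 normalises A' (y2 in base Ω), so the commutator acts trivially. Length 4 * 4^d * l.
-/

namespace GT48

open Subgroup GP48

universe u

private def C2W {P : Type*} [Group P] (A : Subgroup P) (u : P) : ℕ → Set P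
  | 0 => {g | ∃ s ∈ A, g = s * u * s⁻¹}
  | d + 1 => {g | g ≠ 1 ∧ ∃ x ∈ C2W A u d, ∃ y ∈ C2W A u d, g = x * y * x⁻¹ * y⁻¹}

private lemma C2W_mem {P : Type*} [Group P] {A : Subgroup P} {u : P} (hu : u ∈ A) (hu1 : u ≠ 1)
    (d : ℕ) : ∀ g ∈ C2W A u d, g ∈ A ∧ g ≠ 1 := by
  induction d with
  | zero =>
    rintro g ⟨s, hs, rfl⟩
    refine ⟨A.mul_mem (A.mul_mem hs hu) (A.inv_mem hs), fun h => hu1 ?_⟩
    have h2 : u = s⁻¹ * (s * u * s⁻¹) * s := by group
    rw [h2, h]
    group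
  | succ d ih =>
    rintro g ⟨h1, x, hx, y, hy, rfl⟩
    have hxA := (ih x hx).1
    have hyA := (ih y hy).1
    exact ⟨A.mul_mem (A.mul_mem (A.mul_mem hxA hyA) (A.inv_mem hxA)) (A.inv_mem hyA), h1⟩

private lemma C2W_conj {P : Type*} [Group P] {A : Subgroup P} {u : P} (d : ℕ) :
    ∀ g ∈ C2W A u d, ∀ a ∈ A, a * g * a⁻¹ ∈ C2W A u d := by
  induction d with
  | zero =>
    rintro g ⟨s, hs, rfl⟩ a ha
    exact ⟨a * s, A.mul_mem ha hs, by group⟩
  | succ d ih =>
    rintro g ⟨h1, x, hx, y, hy, rfl⟩ a ha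
    refine ⟨fun h => h1 ?_, a * x * a⁻¹, ih x hx a ha, a * y * a⁻¹, ih y hy a ha, by group⟩
    have h2 : x * y * x⁻¹ * y⁻¹ = a⁻¹ * (a * (x * y * x⁻¹ * y⁻¹) * a⁻¹) * a := by group
    rw [h2, h]
    group

private lemma C2_simple {P : Type*} [Group P] {A : Subgroup P} (hs : IsSimpleGroup A)
    {K : Subgroup P} (hK : K ≤ A) (hn : ∀ a ∈ A, ∀ x ∈ K, a * x * a⁻¹ ∈ K)
    {w : P} (hw : w ∈ K) (hw1 : w ≠ 1) : A ≤ K := by
  have hN : (K.subgroupOf A).Normal := by
    constructor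
    intro n hn' g
    rw [mem_subgroupOf] at hn' ⊢
    exact hn g g.2 n hn'
  rcases hs.eq_bot_or_eq_top_of_normal _ hN with h | h
  · exfalso
    apply hw1
    have : (⟨w, hK hw⟩ : A) ∈ K.subgroupOf A := by
      rw [mem_subgroupOf]
      exact hw
    rw [h, mem_bot] at this
    exact congrArg Subtype.val this
  · exact subgroupOf_eq_top.1 h

private lemma C2W_ne {P : Type*} [Group P] {A : Subgroup P} (hs : IsSimpleGroup A)
    (hna : ∃ a ∈ A, ∃ b ∈ A, a * b ≠ b * a) {u : P} (hu : u ∈ A) (hu1 : u ≠ 1)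
    (d : ℕ) : (C2W A u d).Nonempty := by
  induction d with
  | zero => exact ⟨u, 1, A.one_mem, by group⟩
  | succ d ih =>
    by_contra hc
    have hcomm : ∀ x ∈ C2W A u d, ∀ y ∈ C2W A u d, x * y = y * x := by
      intro x hx y hy
      by_contra hxy
      apply hc
      refine ⟨x * y * x⁻¹ * y⁻¹, fun h => hxy ?_, x, hx, y, hy, rfl⟩
      have h2 : x * y = x * y * x⁻¹ * y⁻¹ * (y * x) := by group
      rw [h2, h, one_mul]
    obtain ⟨w, hw⟩ := ih
    have hKA : closure (C2W A u d) ≤ A := by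
      rw [closure_le]
      exact fun x hx => (C2W_mem hu hu1 d x hx).1
    have hn : ∀ a ∈ A, ∀ x ∈ closure (C2W A u d), a * x * a⁻¹ ∈ closure (C2W A u d) := by
      intro a ha x hx
      have h1 : closure (C2W A u d) ≤
          (closure (C2W A u d)).comap (MulAut.conj a).toMonoidHom := by
        rw [closure_le]
        intro z hz
        exact subset_closure (C2W_conj d z hz a ha)
      exact h1 hx
    have hAK := C2_simple hs hKA hn (subset_closure hw) (C2W_mem hu hu1 d w hw).2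
    obtain ⟨a, ha, b, hb, hab⟩ := hna
    apply hab
    have hcl : closure (C2W A u d) ≤ centralizer (closure (C2W A u d) : Set P) := by
      rw [centralizer_closure, closure_le]
      intro x hx
      rw [SetLike.mem_coe, mem_centralizer_iff]
      intro y hy
      exact hcomm _ hy _ hx
    exact (mem_centralizer_iff.1 (hcl (hAK hb)) a (hAK ha))

private lemma C2_act_mul {P : Type*} [Group P] {A : Subgroup P} {y y' v v' : P} (hv' : v' ∈ A)
    (h : ∀ x ∈ A, y * x * y⁻¹ = v * x * v⁻¹) (h' : ∀ x ∈ A, y' * x * y'⁻¹ = v' * x * v'⁻¹) :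
    ∀ x ∈ A, (y * y') * x * (y * y')⁻¹ = (v * v') * x * (v * v')⁻¹ := by
  intro x hx
  have h1 : (y * y') * x * (y * y')⁻¹ = y * (y' * x * y'⁻¹) * y⁻¹ := by group
  rw [h1, h' x hx, h _ (A.mul_mem (A.mul_mem hv' hx) (A.inv_mem hv'))]
  group

private lemma C2_act_inv {P : Type*} [Group P] {A : Subgroup P} {y v : P} (hv : v ∈ A)
    (h : ∀ x ∈ A, y * x * y⁻¹ = v * x * v⁻¹) :
    ∀ x ∈ A, y⁻¹ * x * y⁻¹⁻¹ = v⁻¹ * x * v⁻¹⁻¹ := by
  intro x hx
  have h1 := h (v⁻¹ * x * v) (A.mul_mem (A.mul_mem (A.inv_mem hv) hx) hv)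
  have h2 : v * (v⁻¹ * x * v) * v⁻¹ = x := by group
  rw [h2] at h1
  have h3 : y⁻¹ * x * y⁻¹⁻¹ = y⁻¹ * (y * (v⁻¹ * x * v) * y⁻¹) * y⁻¹⁻¹ := by rw [h1]
  rw [h3]
  group

private lemma C2_cen {P : Type*} [Group P] {Ω : Set (Subgroup P)} {A' : Subgroup P} (hA' : A' ∈ Ω)
    {g c : P} (hg : g ∈ base Ω) (hc : c ∈ centralizer (A' : Set P)) :
    g * c * g⁻¹ ∈ centralizer (A' : Set P) := by
  rw [mem_centralizer_iff] at hc ⊢
  intro a ha
  have h1 : a ∈ A'.map (MulAut.conj g).toMonoidHom := by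
    rw [hg A' hA']
    exact ha
  obtain ⟨b, hb, rfl⟩ := h1
  have h2 := hc b hb
  show g * b * g⁻¹ * (g * c * g⁻¹) = g * c * g⁻¹ * (g * b * g⁻¹)
  calc g * b * g⁻¹ * (g * c * g⁻¹) = g * (b * c) * g⁻¹ := by group
    _ = g * (c * b) * g⁻¹ := by rw [h2]
    _ = _ := by group

theorem C2 {P : Type*} [Group P] {T : Subgroup P} {Ω : Set (Subgroup P)} (h : CompSys T Ω)
    (S : Set P) {A : Subgroup P} (hA : A ∈ Ω) {u : P} (hu : u ∈ A) (hu1 : u ≠ 1) (l : ℕ)
    (hk : ∃ A' ∈ Ω, A' ≠ A)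
    (hleaf : ∀ A' ∈ Ω, A' ≠ A → ∀ s ∈ A, ∃ y ∈ base Ω, y ∈ wball S l ∧
      (∀ x ∈ A, y * x * y⁻¹ = (s * u * s⁻¹) * x * (s * u * s⁻¹)⁻¹) ∧
      y ∈ centralizer (A' : Set P)) (d : ℕ) (D : Finset (Subgroup P))
    (hD : ∀ A' ∈ D, A' ∈ Ω ∧ A' ≠ A) (hDc : D.card ≤ 2 ^ d) :
    ∃ y ∈ base Ω, y ∈ wball S (4 ^ d * l) ∧ y ∉ centralizer (A : Set P) ∧
      ∀ A' ∈ D, y ∈ centralizer (A' : Set P) := by
  classical
  have hs := h.simple A hA
  have hna := h.na A hA
  have claim : ∀ (d : ℕ) (v : P), v ∈ C2W A u d → ∀ D : Finset (Subgroup P),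
      (∀ A' ∈ D, A' ∈ Ω ∧ A' ≠ A) → D.card ≤ 2 ^ d →
      ∃ y ∈ base Ω, y ∈ wball S (4 ^ d * l) ∧ (∀ x ∈ A, y * x * y⁻¹ = v * x * v⁻¹) ∧
        ∀ A' ∈ D, y ∈ centralizer (A' : Set P) := by
    intro d
    induction d with
    | zero =>
      rintro v ⟨s, hs', rfl⟩ D hD hDc
      rw [pow_zero, Finset.card_le_one_iff_subset_singleton] at hDc
      obtain ⟨A0, hA0⟩ := hDc
      by_cases h0 : A0 ∈ D
      · obtain ⟨y, hy1, hy2, hy3, hy4⟩ := hleaf A0 (hD A0 h0).1 (hD A0 h0).2 s hs'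
        refine ⟨y, hy1, by rw [pow_zero, one_mul]; exact hy2, hy3, fun A' hA' => ?_⟩
        rw [Finset.mem_singleton.1 (hA0 hA')]
        exact hy4
      · obtain ⟨A1, hA1, hA1'⟩ := hk
        obtain ⟨y, hy1, hy2, hy3, hy4⟩ := hleaf A1 hA1 hA1' s hs'
        refine ⟨y, hy1, by rw [pow_zero, one_mul]; exact hy2, hy3, fun A' hA' => ?_⟩
        exfalso
        have := Finset.mem_singleton.1 (hA0 hA')
        exact h0 (this ▸ hA')
    | succ d ih =>
      rintro v ⟨hv1, x, hx, y, hy, rfl⟩ D hD hDc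
      obtain ⟨D1, hD1, hc1⟩ := Finset.exists_subset_card_eq (s := D) (n := min (2 ^ d) D.card)
        (min_le_right _ _)
      have hc2 : (D \ D1).card ≤ 2 ^ d := by
        rw [Finset.card_sdiff_of_subset hD1, hc1]
        rw [pow_succ] at hDc
        rcases le_total (2 ^ d) D.card with hle | hle
        · rw [min_eq_left hle]
          omega
        · rw [min_eq_right hle]
          omega
      have hxA := (C2W_mem hu hu1 d x hx).1
      have hyA := (C2W_mem hu hu1 d y hy).1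
      obtain ⟨y1, a1, a2, a3, a4⟩ := ih x hx D1 (fun A' hA' => hD A' (hD1 hA'))
        (hc1.trans_le (min_le_left _ _))
      obtain ⟨y2, b1, b2, b3, b4⟩ := ih y hy (D \ D1)
        (fun A' hA' => hD A' (Finset.mem_sdiff.1 hA').1) hc2
      refine ⟨y1 * y2 * y1⁻¹ * y2⁻¹, ?_, ?_, ?_, ?_⟩
      · exact mul_mem (mul_mem (mul_mem a1 b1) (inv_mem a1)) (inv_mem b1)
      · have h1 := wball_mul (wball_mul (wball_mul a2 b2) (wball_inv a2)) (wball_inv b2)
        have h2 : 4 ^ (d + 1) * l = 4 ^ d * l + 4 ^ d * l + 4 ^ d * l + 4 ^ d * l := by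
          rw [pow_succ]
          ring
        rw [h2]
        exact h1
      · exact C2_act_mul (A.inv_mem hyA)
          (C2_act_mul (A.inv_mem hxA) (C2_act_mul hyA a3 b3) (C2_act_inv hxA a3))
          (C2_act_inv hyA b3)
      · intro A' hA'
        by_cases hA1 : A' ∈ D1
        · have h1 := a4 A' hA1
          have h2 := C2_cen (hD A' hA').1 b1 (inv_mem h1)
          have h3 : y1 * y2 * y1⁻¹ * y2⁻¹ = y1 * (y2 * y1⁻¹ * y2⁻¹) := by group
          rw [h3]
          exact mul_mem h1 h2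
        · have h1 := b4 A' (Finset.mem_sdiff.2 ⟨hA', hA1⟩)
          have h2 := C2_cen (hD A' hA').1 a1 h1
          exact mul_mem h2 (inv_mem h1)
  obtain ⟨v, hv⟩ := C2W_ne hs hna hu hu1 d
  obtain ⟨hvA, hv1⟩ := C2W_mem hu hu1 d v hv
  obtain ⟨y, hy1, hy2, hy3, hy4⟩ := claim d v hv D hD hDc
  refine ⟨y, hy1, hy2, fun hyc => ?_, hy4⟩
  rw [mem_centralizer_iff] at hyc
  have hvc : ∀ x ∈ A, x * v = v * x := by
    intro x hx
    have h1 := hy3 x hx
    have h2 : y * x * y⁻¹ = x := by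
      rw [← hyc x hx]
      group
    rw [h2] at h1
    calc x * v = (v * x * v⁻¹) * v := by rw [← h1]
      _ = v * x := by group
  have hAK : A ≤ A ⊓ centralizer (A : Set P) := by
    refine C2_simple hs inf_le_left ?_ (w := v) ?_ hv1
    · intro a ha x hx
      obtain ⟨hx1, hx2⟩ := mem_inf.1 hx
      have hx3 := mem_centralizer_iff.1 hx2 a ha
      have : a * x * a⁻¹ = x := by
        rw [hx3]
        group
      rw [this]
      exact hx
    · exact mem_inf.2 ⟨hvA, mem_centralizer_iff.2 hvc⟩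
  obtain ⟨a, ha, b, hb, hab⟩ := hna
  exact hab (mem_centralizer_iff.1 (mem_inf.1 (hAK hb)).2 a ha)

end GT48
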