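import Mathlib
import Pool.Agent.LibGT48.Defs
import Pool.Agent.LibGT48.F1

/-!
# LibGT48 C3 (MEDIUM, Defs + F1): counting

P acts on the finite type ↥Ω by g • A = A.map (conj g) (h.conj), Nat.card ↥Ω = Ω.ncard = k. For A' in Ω: g with A.map (conj g) = A' (h.trans); F1 with q = 1 gives g_A' in wball S (k^1) with the same property. y_A' = g_A' y g_A'⁻¹ in wball S (l + 2k), not in centralizer A', in the centralizer of
every other member (conjugate the hypotheses). For a finset I of members of Ω let Y_I = product (over a fixed listing of Ω, or I.toList.map) of the y_A', A' in I: in wball S (k * (l + 2k)). If I ≠ J, say A' in I \ J (or symmetric): Y_J centralises A'; Y_I does not (exactly one factor does not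
centralise A', the others do: centralizer is a subgroup). So I ↦ Y_I is injective on the powerset of the finset Ω: 2^k <= ncard (the ball is finite: GP48.wball_finite, S finite because P is).
-/

namespace GT48

open Subgroup GP48

universe u

private theorem C3_list {P : Type*} [Group P] (S : Set P) (r : ℕ) (L : List P)
    (hL : ∀ x ∈ L, x ∈ wball S r) : L.prod ∈ wball S (L.length * r) := by
  induction L with
  | nil => exact wball_one S _
  | cons a L ih =>
    rw [List.prod_cons, List.length_cons, Nat.succ_mul, Nat.add_comm]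
    exact wball_mul (hL a List.mem_cons_self) (ih fun x hx => hL x (List.mem_cons_of_mem _ hx))

private theorem C3_short {P : Type*} [Group P] [Finite P] {T : Subgroup P} {Ω : Set (Subgroup P)}
    (h : CompSys T Ω) (S : Set P) (hS : Subgroup.closure S = ⊤) {A : Subgroup P} (hA : A ∈ Ω)
    {A' : Subgroup P} (hA' : A' ∈ Ω) :
    ∃ g ∈ wball S Ω.ncard, A.map (MulAut.conj g).toMonoidHom = A' := by
  letI act : MulAction P Ω :=
    { smul := fun g B => ⟨B.1.map (MulAut.conj g).toMonoidHom, h.conj g B.1 B.2⟩
      one_smul := by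
        intro B
        apply Subtype.ext
        show B.1.map (MulAut.conj (1 : P)).toMonoidHom = B.1
        ext y
        simp [mem_map]
      mul_smul := by
        intro x y B
        apply Subtype.ext
        show B.1.map (MulAut.conj (x * y)).toMonoidHom =
          (B.1.map (MulAut.conj y).toMonoidHom).map (MulAut.conj x).toMonoidHom
        rw [map_map]
        congr 1
        ext z
        simp [mul_assoc] }
  obtain ⟨g, hg⟩ := h.trans A hA A' hA'
  obtain ⟨g', hg', hg''⟩ := F1 S hS 1 (fun _ => (⟨A, hA⟩ : Ω)) g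
  rw [pow_one, Nat.card_coe_set_eq] at hg'
  refine ⟨g', hg', ?_⟩
  have h1 := congrArg Subtype.val (hg'' 0)
  have h2 : A.map (MulAut.conj g').toMonoidHom = A.map (MulAut.conj g).toMonoidHom := h1
  rw [h2, hg]

private theorem C3_Y {P : Type*} [Group P] [Finite P] {T : Subgroup P} {Ω : Set (Subgroup P)}
    (h : CompSys T Ω) (S : Set P) (hS : Subgroup.closure S = ⊤) {A : Subgroup P} (hA : A ∈ Ω)
    {y : P} {l : ℕ} (hy : y ∈ wball S l) (hy1 : y ∉ centralizer (A : Set P))
    (hy2 : ∀ A' ∈ Ω, A' ≠ A → y ∈ centralizer (A' : Set P)) (B : Ω) :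
    ∃ z ∈ wball S (l + 2 * Ω.ncard), z ∉ centralizer (B.1 : Set P) ∧
      ∀ C : Ω, C ≠ B → z ∈ centralizer (C.1 : Set P) := by
  obtain ⟨g, hg, hgB⟩ := C3_short h S hS hA B.2
  refine ⟨g * y * g⁻¹, ?_, ?_, ?_⟩
  · have h1 := wball_mul (wball_mul hg hy) (wball_inv hg)
    exact wball_mono S (by omega) h1
  · intro hc
    apply hy1
    rw [Subgroup.mem_centralizer_iff] at hc ⊢
    intro a ha
    have h1 : g * a * g⁻¹ ∈ B.1 := by
      rw [← hgB]
      exact ⟨a, ha, rfl⟩
    have h2 := hc _ h1
    have h3 : g * (a * y) * g⁻¹ = g * (y * a) * g⁻¹ := by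
      calc g * (a * y) * g⁻¹ = g * a * g⁻¹ * (g * y * g⁻¹) := by group
        _ = g * y * g⁻¹ * (g * a * g⁻¹) := h2
        _ = g * (y * a) * g⁻¹ := by group
    exact mul_left_cancel (mul_right_cancel h3)
  · intro C hC
    have hD : C.1.map (MulAut.conj g⁻¹).toMonoidHom ∈ Ω := h.conj _ _ C.2
    have hback : (C.1.map (MulAut.conj g⁻¹).toMonoidHom).map (MulAut.conj g).toMonoidHom = C.1 := by
      rw [map_map]
      have h1 : (MulAut.conj g).toMonoidHom.comp (MulAut.conj g⁻¹).toMonoidHom
          = MonoidHom.id P := by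
        ext z
        simp [mul_assoc]
      rw [h1, Subgroup.map_id]
    have hne : C.1.map (MulAut.conj g⁻¹).toMonoidHom ≠ A := by
      intro h1
      apply hC
      apply Subtype.ext
      rw [← hback, h1, hgB]
    have h2 := hy2 _ hD hne
    rw [Subgroup.mem_centralizer_iff] at h2 ⊢
    intro c hc
    have h3 : g⁻¹ * c * g ∈ C.1.map (MulAut.conj g⁻¹).toMonoidHom := by
      refine ⟨c, hc, ?_⟩
      simp
    have h4 := h2 _ h3
    calc c * (g * y * g⁻¹) = g * (g⁻¹ * c * g * y) * g⁻¹ := by group
      _ = g * (y * (g⁻¹ * c * g)) * g⁻¹ := by rw [h4]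
      _ = g * y * g⁻¹ * c := by group

theorem C3 {P : Type*} [Group P] [Finite P] {T : Subgroup P} {Ω : Set (Subgroup P)}
    (h : CompSys T Ω) (S : Set P) (hS : Subgroup.closure S = ⊤) {A : Subgroup P} (hA : A ∈ Ω)
    {y : P} {l : ℕ} (hy : y ∈ wball S l) (hy1 : y ∉ centralizer (A : Set P))
    (hy2 : ∀ A' ∈ Ω, A' ≠ A → y ∈ centralizer (A' : Set P)) :
    2 ^ Ω.ncard ≤ (wball S (Ω.ncard * (l + 2 * Ω.ncard))).ncard := by
  classical
  have hfin : Finite (Subgroup P) := inferInstance
  haveI : Fintype Ω := Fintype.ofFinite Ω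
  choose Y hY1 hY2 hY3 using C3_Y h S hS hA hy hy1 hy2
  set L : List Ω := (Finset.univ : Finset Ω).toList with hL
  have hLn : L.Nodup := Finset.nodup_toList _
  have hLm : ∀ B : Ω, B ∈ L := fun B => Finset.mem_toList.2 (Finset.mem_univ B)
  have hLl : L.length = Ω.ncard := by
    rw [hL, Finset.length_toList, Finset.card_univ, ← Nat.card_eq_fintype_card,
      Nat.card_coe_set_eq]
  let Z : Finset Ω → P := fun I => (L.map (fun B => if B ∈ I then Y B else 1)).prod
  have hZ1 : ∀ I, Z I ∈ wball S (Ω.ncard * (l + 2 * Ω.ncard)) := by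
    intro I
    have h1 := C3_list S (l + 2 * Ω.ncard) (L.map (fun B => if B ∈ I then Y B else 1)) (by
      intro x hx
      obtain ⟨B, _, rfl⟩ := List.mem_map.1 hx
      by_cases hB : B ∈ I
      · simp only [hB, if_true]
        exact hY1 B
      · simp only [hB, if_false]
        exact wball_one S _)
    rw [List.length_map, hLl] at h1
    exact h1
  have hZ0 : ∀ (I : Finset Ω) (B : Ω) (M : List Ω), (B ∈ I → B ∉ M) →
      (M.map (fun B => if B ∈ I then Y B else 1)).prod ∈ centralizer (B.1 : Set P) := by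
    intro I B M hM
    apply Subgroup.list_prod_mem
    intro x hx
    obtain ⟨C, hC, rfl⟩ := List.mem_map.1 hx
    by_cases hCI : C ∈ I
    · simp only [hCI, if_true]
      refine hY3 C B ?_
      rintro rfl
      exact hM hCI hC
    · simp only [hCI, if_false]
      exact Subgroup.one_mem _
  have hZ2 : ∀ (I : Finset Ω) (B : Ω), B ∈ I ↔ Z I ∉ centralizer (B.1 : Set P) := by
    intro I B
    constructor
    · intro hB hc
      obtain ⟨L1, L2, hLL⟩ := List.append_of_mem (hLm B)
      have hnd := hLn
      rw [hLL, List.nodup_append] at hnd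
      have hn1 : B ∉ L1 := fun h1 => hnd.2.2 B h1 B List.mem_cons_self rfl
      have hn2 : B ∉ L2 := (List.nodup_cons.1 hnd.2.1).1
      have hz : Z I = (L1.map (fun B => if B ∈ I then Y B else 1)).prod *
          (Y B * (L2.map (fun B => if B ∈ I then Y B else 1)).prod) := by
        show (L.map (fun B => if B ∈ I then Y B else 1)).prod = _
        rw [hLL, List.map_append, List.prod_append, List.map_cons, List.prod_cons]
        simp only [hB, if_true]
      rw [hz] at hc
      have h1 := hZ0 I B L1 (fun _ => hn1)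
      have h2 := hZ0 I B L2 (fun _ => hn2)
      have h3 := (Subgroup.mul_mem_cancel_left _ h1).1 hc
      exact hY2 B ((Subgroup.mul_mem_cancel_right _ h2).1 h3)
    · intro hc
      by_contra hB
      exact hc (hZ0 I B L (fun h1 => absurd h1 hB))
  have hinj : Function.Injective Z := by
    intro I J hIJ
    ext B
    rw [hZ2 I B, hZ2 J B, hIJ]
  have hcard : (Z '' Set.univ).ncard = 2 ^ Ω.ncard := by
    rw [Set.ncard_image_of_injective _ hinj, Set.ncard_univ, Nat.card_eq_fintype_card,
      Fintype.card_finset, ← Nat.card_eq_fintype_card, Nat.card_coe_set_eq]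
  rw [← hcard]
  refine Set.ncard_le_ncard ?_ (Set.toFinite _)
  rintro x ⟨I, _, rfl⟩
  exact hZ1 I

end GT48
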