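import Mathlib
import Pool.Agent.LibGT48.Defs

/-!
# LibGT48 G2 (MEDIUM, only Mathlib): normal subgroups of bounded index in a finitely generated group
-/

namespace GT48

open Subgroup GP48

universe u

private theorem g2_fin {G : Type*} [Group G] (S : Finset G)
    (hS : Subgroup.closure (S : Set G) = ⊤) (m : ℕ) : Finite (G →* Equiv.Perm (Fin m)) := by
  have hinj : Function.Injective
      (fun (f : G →* Equiv.Perm (Fin m)) (s : (S : Set G)) => f s) := by
    intro f g hfg
    refine MonoidHom.eq_of_eqOn_dense hS ?_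
    intro x hx
    exact congrFun hfg ⟨x, hx⟩
  exact Finite.of_injective _ hinj

theorem G2 {G : Type*} [Group G] (S : Finset G) (hS : Subgroup.closure (S : Set G) = ⊤) (M : ℕ) :
    ∃ K : Subgroup G, K.Normal ∧ K.FiniteIndex ∧
      ∀ N : Subgroup G, N.Normal → N.FiniteIndex → N.index ≤ M → K ≤ N := by
  have hfin : ∀ m : Fin (M + 1), Finite (G →* Equiv.Perm (Fin (m : ℕ))) := fun m => g2_fin S hS m
  have hfin' : Finite (Σ m : Fin (M + 1), (G →* Equiv.Perm (Fin (m : ℕ)))) := inferInstance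
  refine ⟨⨅ p : (Σ m : Fin (M + 1), (G →* Equiv.Perm (Fin (m : ℕ)))), p.2.ker, ?_, ?_, ?_⟩
  · exact Subgroup.normal_iInf_normal fun p => p.2.normal_ker
  · refine Subgroup.finiteIndex_iInf fun p => ?_
    infer_instance
  · intro N hN hfi hM
    have hne : N.index ≠ 0 := hfi.index_ne_zero
    have : Finite (G ⧸ N) := Subgroup.finite_quotient_of_finiteIndex
    have e : (G ⧸ N) ≃ Fin N.index := Finite.equivFinOfCardEq (by rw [Subgroup.index])
    let f : G →* Equiv.Perm (Fin N.index) :=
      (e.permCongrHom : Equiv.Perm (G ⧸ N) ≃* Equiv.Perm (Fin N.index)).toMonoidHom.comp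
        (MulAction.toPermHom G (G ⧸ N))
    intro x hx
    have h1 : x ∈ f.ker :=
      (Subgroup.mem_iInf.1 hx) ⟨⟨N.index, by omega⟩, f⟩
    have h2 : MulAction.toPermHom G (G ⧸ N) x = 1 := by
      have h3 : (e.permCongrHom : Equiv.Perm (G ⧸ N) ≃* Equiv.Perm (Fin N.index))
          (MulAction.toPermHom G (G ⧸ N) x) = 1 := h1
      rw [← map_one (e.permCongrHom : Equiv.Perm (G ⧸ N) ≃* Equiv.Perm (Fin N.index))] at h3
      exact (MulEquiv.injective _) h3
    have h4 : (x : G) • ((1 : G) : G ⧸ N) = ((1 : G) : G ⧸ N) := by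
      have := congrArg (fun σ : Equiv.Perm (G ⧸ N) => σ ((1 : G) : G ⧸ N)) h2
      simpa using this
    have h5 : ((x * 1 : G) : G ⧸ N) = ((1 : G) : G ⧸ N) := h4
    rw [mul_one] at h5
    have h6 := QuotientGroup.eq.1 h5.symm
    simpa using h6

end GT48
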