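import Mathlib
import Pool.Agent.LibGT48.Defs

/-!
# LibGT48 G4 (MEDIUM, only Mathlib + GP48): growth of a subgroup of finite index

K is finitely generated (Subgroup.fg_of_index_ne_zero / Group.FG of finite index): S' : Finset K with closure ⊤. There is l >= 1 with: every element of S' (seen in G) is in wball S l (S' finite, wball_mono, every element of G is in some wball because closure S = ⊤). Then K.subtype maps wball S' n into wball S (l n)
(injective), so (wball S' n).ncard <= (wball S (l n)).ncard (finite: wball_finite) <= exp ((l n)^β) for large n, and (l n)^β = l^β n^β <= n^β' for large n (β < β'; if β <= 0 fine as well: use n^β' → ∞ versus bounded; β' > 0 is assumed).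
-/

namespace GT48

open Subgroup GP48

universe u

theorem G4 {G : Type*} [Group G] (S : Finset G) (hS : Subgroup.closure (S : Set G) = ⊤)
    (K : Subgroup G) [K.FiniteIndex] (β β' : ℝ) (hβ : β < β') (h0 : 0 < β)
    (hg : Gro (fun n => (wball (S : Set G) n).ncard) β) :
    ∃ S' : Finset K, Subgroup.closure (S' : Set K) = ⊤ ∧
      Gro (fun n => (wball (S' : Set K) n).ncard) β' := by
  classical
  have hfg : Group.FG G := Group.fg_def.2 ⟨S, hS⟩
  have hKfg : Group.FG K := inferInstance
  obtain ⟨_, S', -, hS'⟩ := Group.fg_iff'.1 hKfg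
  refine ⟨S', hS', ?_⟩
  -- every element of `G` is a word
  have hall : ∀ g : G, ∃ l, g ∈ wball (S : Set G) l := by
    intro g
    have hg' : g ∈ Subgroup.closure (S : Set G) := by rw [hS]; exact Subgroup.mem_top g
    induction hg' using Subgroup.closure_induction with
    | mem x hx => exact ⟨1, wball_gen hx⟩
    | one => exact ⟨0, wball_one _ 0⟩
    | mul x y _ _ hx hy =>
      obtain ⟨m, hm⟩ := hx
      obtain ⟨n, hn⟩ := hy
      exact ⟨m + n, wball_mul hm hn⟩
    | inv x _ hx =>
      obtain ⟨m, hm⟩ := hx
      exact ⟨m, wball_inv hm⟩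
  choose f hf using hall
  set l : ℕ := S'.sup (fun x => f (x : G)) + 1 with hl
  have hl1 : 1 ≤ l := by omega
  have hgen : ∀ x ∈ S', (x : G) ∈ wball (S : Set G) l := by
    intro x hx
    refine wball_mono _ ?_ (hf (x : G))
    have : f (x : G) ≤ S'.sup (fun x => f (x : G)) :=
      Finset.le_sup (f := fun x : K => f (x : G)) hx
    omega
  have hlist : ∀ L : List K, (∀ x ∈ L, x ∈ (S' : Set K) ∨ x⁻¹ ∈ (S' : Set K)) →
      ((L.prod : K) : G) ∈ wball (S : Set G) (l * L.length) := by
    intro L
    induction L with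
    | nil =>
      intro _
      exact wball_one _ _
    | cons x L ih =>
      intro h
      have h1 := ih (fun y hy => h y (List.mem_cons_of_mem _ hy))
      have h2 : (x : G) ∈ wball (S : Set G) l := by
        rcases h x List.mem_cons_self with h3 | h3
        · exact hgen x h3
        · have h4 := wball_inv (hgen _ h3)
          have h5 : ((x⁻¹ : K) : G)⁻¹ = (x : G) := by
            rw [Subgroup.coe_inv, inv_inv]
          rwa [h5] at h4
      have h6 := wball_mul h2 h1
      rw [List.prod_cons, Subgroup.coe_mul, List.length_cons]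
      have h7 : l * (L.length + 1) = l + l * L.length := by ring
      rw [h7]
      exact h6
  have hball : ∀ n, (wball (S' : Set K) n).ncard ≤ (wball (S : Set G) (l * n)).ncard := by
    intro n
    refine Set.ncard_le_ncard_of_injOn (fun x : K => (x : G)) ?_
      (fun a _ b _ h => Subtype.ext h) (wball_finite S.finite_toSet _)
    rintro x ⟨L, h1, h2, rfl⟩
    exact wball_mono _ (Nat.mul_le_mul_left l h1) (hlist L h2)
  -- analysis
  have hlpos : (0 : ℝ) < (l : ℝ) := by exact_mod_cast hl1
  have htend : Filter.Tendsto (fun n : ℕ => l * n) Filter.atTop Filter.atTop :=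
    Filter.tendsto_atTop_mono (fun n => Nat.le_mul_of_pos_left n (by omega)) Filter.tendsto_id
  have h1 := htend.eventually hg
  have h2 : ∀ᶠ n : ℕ in Filter.atTop, (l : ℝ) ^ β ≤ (n : ℝ) ^ (β' - β) :=
    ((tendsto_rpow_atTop (by linarith : 0 < β' - β)).comp
      tendsto_natCast_atTop_atTop).eventually (Filter.eventually_ge_atTop ((l : ℝ) ^ β))
  have h3 : ∀ᶠ n : ℕ in Filter.atTop, 0 < n := Filter.eventually_gt_atTop 0
  unfold Gro
  filter_upwards [h1, h2, h3] with n h4 h5 h6
  have hn : (0 : ℝ) < (n : ℝ) := by exact_mod_cast h6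
  calc (((wball (S' : Set K) n).ncard : ℕ) : ℝ)
      ≤ (((wball (S : Set G) (l * n)).ncard : ℕ) : ℝ) := by exact_mod_cast hball n
    _ ≤ Real.exp (((l * n : ℕ) : ℝ) ^ β) := h4
    _ ≤ Real.exp ((n : ℝ) ^ β') := by
      apply Real.exp_le_exp.2
      push_cast
      rw [Real.mul_rpow hlpos.le hn.le]
      have h7 : (n : ℝ) ^ β' = (n : ℝ) ^ (β' - β) * (n : ℝ) ^ β := by
        rw [← Real.rpow_add hn]
        congr 1
        ring
      rw [h7]
      exact mul_le_mul_of_nonneg_right h5 (Real.rpow_nonneg hn.le _)

end GT48
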