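import Mathlib
import Pool.Agent.LibGT48.Defs

/-!
# LibGT48 G5 (SHORT/MEDIUM, only Defs): balls of quotients; order of P from the frames

G5a: the image of wball S n under a hom f is wball (f '' S) n, so its ncard is at most (wball S n).ncard (finite). G5b: P acts faithfully on F: Nat.card P <= Nat.card (Equiv.Perm F) = (Nat.card F)!.
G5c: a finite-index subgroup that is virtually nilpotent makes G virtually nilpotent: H <= K of finite index in K, nilpotent: H.map K.subtype has finite index in G (relIndex, index_map_subtype) and is isomorphic to H.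
-/

namespace GT48

open Subgroup GP48

universe u

private theorem g5_lift {G Q : Type*} [Group G] [Group Q] (f : G →* Q) {S : Set G} :
    ∀ l : List Q, (∀ x ∈ l, x ∈ f '' S ∨ x⁻¹ ∈ f '' S) →
      ∃ l' : List G, (∀ y ∈ l', y ∈ S ∨ y⁻¹ ∈ S) ∧ l'.map f = l := by
  intro l
  induction l with
  | nil => intro _; exact ⟨[], by simp, by simp⟩
  | cons a l ih =>
    intro h
    obtain ⟨l', h1, h2⟩ := ih (fun x hx => h x (by simp [hx]))
    have : ∃ b : G, (b ∈ S ∨ b⁻¹ ∈ S) ∧ f b = a := by
      rcases h a (by simp) with ⟨b, hb, rfl⟩ | ⟨b, hb, hba⟩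
      · exact ⟨b, Or.inl hb, rfl⟩
      · exact ⟨b⁻¹, Or.inr (by simpa using hb), by rw [map_inv, hba, inv_inv]⟩
    obtain ⟨b, hb, hba⟩ := this
    refine ⟨b :: l', ?_, by simp [hba, h2]⟩
    intro y hy
    rcases List.mem_cons.1 hy with rfl | hy
    · exact hb
    · exact h1 y hy

theorem G5a {G G' : Type*} [Group G] [Group G'] (f : G →* G') (S : Set G) (hS : S.Finite) (n : ℕ) :
    (wball (f '' S) n).ncard ≤ (wball S n).ncard := by
  have hsub : wball (f '' S) n ⊆ f '' wball S n := by
    rintro q ⟨l, h1, h2, h3⟩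
    obtain ⟨l', h4, h5⟩ := g5_lift f l h2
    refine ⟨l'.prod, ⟨l', ?_, h4, rfl⟩, ?_⟩
    · have := congrArg List.length h5
      rw [List.length_map] at this
      omega
    · rw [map_list_prod, h5, h3]
  exact (Set.ncard_le_ncard hsub ((wball_finite hS n).image f)).trans
    (Set.ncard_image_le (wball_finite hS n))

theorem G5b {P F : Type*} [Group P] [MulAction P F] [FaithfulSMul P F] [Finite F] :
    Nat.card P ≤ Nat.factorial (Nat.card F) := by
  have h := Nat.card_le_card_of_injective (MulAction.toPermHom P F) MulAction.toPerm_injective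
  rwa [Nat.card_perm] at h

theorem G5c {G : Type*} [Group G] (K : Subgroup G) [K.FiniteIndex]
    (h : ∃ H : Subgroup K, H.FiniteIndex ∧ Group.IsNilpotent H) :
    ∃ H : Subgroup G, H.FiniteIndex ∧ Group.IsNilpotent H := by
  obtain ⟨H, h1, h2⟩ := h
  refine ⟨H.map K.subtype, ⟨?_⟩, ?_⟩
  · rw [Subgroup.index_map_subtype]
    exact Nat.mul_ne_zero h1.index_ne_zero (Subgroup.FiniteIndex.index_ne_zero)
  · exact Group.nilpotent_of_mulEquiv (H.equivMapOfInjective K.subtype K.subtype_injective)

end GT48
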