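import Mathlib
import Pool.Agent.LibGT48.Defs

/-!
# LibGT48 G1 (MEDIUM, only Mathlib + GP48.Gro): bounded number of components
-/

namespace GT48

open Subgroup GP48

universe u

theorem G1 (C0 C1 : ℕ) : ∃ β : ℝ, 0 < β ∧ β < 2 / 7 ∧ ∀ f : ℕ → ℕ, Gro f β →
    ∃ k0 : ℕ, ∀ k, 2 ^ k ≤ f (C0 * k ^ C1) → k ≤ k0 := by
  have hc : (0 : ℝ) ≤ (C1 : ℝ) := Nat.cast_nonneg C1
  refine ⟨1 / (4 * ((C1 : ℝ) + 1)), by positivity, ?_, fun f hf => ?_⟩
  · rw [div_lt_div_iff₀ (by positivity) (by norm_num)]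
    nlinarith
  · have key : (∃ n0, ∀ k, C0 * k ^ C1 = n0) →
        ∃ k0 : ℕ, ∀ k, 2 ^ k ≤ f (C0 * k ^ C1) → k ≤ k0 := by
      rintro ⟨n0, hn0⟩
      refine ⟨f n0, fun k hk => ?_⟩
      rw [hn0] at hk
      exact (Nat.lt_two_pow_self.le).trans hk
    by_cases h0 : C0 = 0
    · exact key ⟨0, fun k => by rw [h0, zero_mul]⟩
    by_cases h1 : C1 = 0
    · exact key ⟨C0, fun k => by rw [h1, pow_zero, mul_one]⟩
    obtain ⟨N0, hN0⟩ := Filter.eventually_atTop.1 hf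
    refine ⟨C0 + N0 + 5, fun k hk => ?_⟩
    by_contra hlt
    push Not at hlt
    have hk1 : 1 ≤ k := by omega
    have h2 : k ≤ k ^ C1 := Nat.le_self_pow h1 k
    have h3 : N0 ≤ C0 * k ^ C1 := by
      have : 1 * k ≤ C0 * k ^ C1 := Nat.mul_le_mul (Nat.one_le_iff_ne_zero.2 h0) h2
      omega
    have h4 := hN0 _ h3
    have h5 : C0 * k ^ C1 ≤ k ^ (C1 + 1) := by
      rw [pow_succ, mul_comm (k ^ C1) k]
      exact Nat.mul_le_mul (by omega) le_rfl
    have hkr : (6 : ℝ) ≤ (k : ℝ) := by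
      have : 6 ≤ k := by omega
      exact_mod_cast this
    have h6 : ((C0 * k ^ C1 : ℕ) : ℝ) ^ (1 / (4 * ((C1 : ℝ) + 1))) ≤ Real.sqrt k := by
      calc ((C0 * k ^ C1 : ℕ) : ℝ) ^ (1 / (4 * ((C1 : ℝ) + 1)))
          ≤ ((k ^ (C1 + 1) : ℕ) : ℝ) ^ (1 / (4 * ((C1 : ℝ) + 1))) :=
            Real.rpow_le_rpow (by positivity) (by exact_mod_cast h5) (by positivity)
        _ = (k : ℝ) ^ ((1 : ℝ) / 4) := by
            rw [Nat.cast_pow, ← Real.rpow_natCast, ← Real.rpow_mul (by positivity)]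
            congr 1
            push_cast
            field_simp
        _ ≤ (k : ℝ) ^ ((1 : ℝ) / 2) :=
            Real.rpow_le_rpow_of_exponent_le (by linarith) (by norm_num)
        _ = Real.sqrt k := by rw [Real.sqrt_eq_rpow]
    have h7 : ((2 : ℝ)) ^ k ≤ Real.exp (Real.sqrt k) := by
      calc ((2 : ℝ)) ^ k = ((2 ^ k : ℕ) : ℝ) := by push_cast; rfl
        _ ≤ (f (C0 * k ^ C1) : ℝ) := by exact_mod_cast hk
        _ ≤ _ := h4
        _ ≤ _ := Real.exp_le_exp.2 h6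
    have h8 : (k : ℝ) * Real.log 2 ≤ Real.sqrt k := by
      have := Real.log_le_log (by positivity) h7
      rwa [Real.log_exp, Real.log_pow] at this
    have h9 : (0.6931471803 : ℝ) < Real.log 2 := Real.log_two_gt_d9
    have h10 : Real.sqrt k * Real.sqrt k = k := Real.mul_self_sqrt (by positivity)
    have h11 : 0 ≤ Real.sqrt k := Real.sqrt_nonneg _
    have h12 : (2 : ℝ) < Real.sqrt k := by
      rw [Real.lt_sqrt (by norm_num)]
      linarith
    nlinarith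

end GT48
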