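import Mathlib
import Pool.Agent.LibGT48.Defs
import Pool.Agent.LibGT48.BD1

/-!
# LibGT48 M1 (MEDIUM/STRONG, only Defs): components of a nonabelian minimal normal subgroup

Choose a subgroup A <= T, A ≠ ⊥, with (for all t in T: A.map (conj t) = A), of least cardinality (T itself has the property). For g : P put A^g = A.map (MulAut.conj g).toMonoidHom; again a subgroup of T normalised by T,
nontrivial, of the same cardinality, so again of least cardinality. Ω = Set.range (fun g => A^g). conj, trans: composition of conjugations. comm: for A1 ≠ A2 in Ω: A1 ⊓ A2 is normalised by T, so by least cardinality it is ⊥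
(if it is ≠ ⊥ it has card A1, so A1 = A2); commutators of A1 and A2 lie in A1 ⊓ A2 (both normalised by T and contained in T), so they commute. sup: sSup Ω is normal in P (invariant under conj), contained in T,
nontrivial, so = T by hmin. na: if A is commutative then all A^g are, and elements of T = sSup Ω commute (closure of the union of pairwise commuting commutative sets), against hna. simple: Nontrivial A; a normal subgroup N of (A as a group):
N.map A.subtype is normalised by A and by every other A' in Ω (they centralise A), so by T = sSup Ω, hence it is ⊥ or has card A, so N = ⊥ or ⊤.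
-/

namespace GT48

open Subgroup GP48

universe u

section

variable {P : Type*} [Group P]

/-- conjugate subgroup -/
private def M1_c (g : P) (A : Subgroup P) : Subgroup P := A.map (MulAut.conj g).toMonoidHom

private theorem M1_mem {g : P} {A : Subgroup P} {x : P} : x ∈ M1_c g A ↔ g⁻¹ * x * g ∈ A := by
  constructor
  · rintro ⟨y, hy, rfl⟩
    have h1 : g⁻¹ * (g * y * g⁻¹) * g = y := by group
    show g⁻¹ * (g * y * g⁻¹) * g ∈ A
    rw [h1]
    exact hy
  · intro h
    refine ⟨g⁻¹ * x * g, h, ?_⟩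
    show g * (g⁻¹ * x * g) * g⁻¹ = x
    group

private theorem M1_mul (g h : P) (A : Subgroup P) : M1_c (g * h) A = M1_c g (M1_c h A) := by
  ext x
  rw [M1_mem, M1_mem, M1_mem]
  have e : (g * h)⁻¹ * x * (g * h) = h⁻¹ * (g⁻¹ * x * g) * h := by group
  rw [e]

private theorem M1_one (A : Subgroup P) : M1_c 1 A = A := by
  ext x
  rw [M1_mem]
  simp

private theorem M1_card (g : P) (A : Subgroup P) : Nat.card (M1_c g A) = Nat.card A :=
  Nat.card_congr (A.equivMapOfInjective _ (MulAut.conj g).injective).symm.toEquiv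

end

theorem M1 {P : Type*} [Group P] [Finite P] (T : Subgroup P) [T.Normal] (hne : T ≠ ⊥)
    (hmin : ∀ Z : Subgroup P, Z.Normal → Z ≤ T → Z = ⊥ ∨ Z = T)
    (hna : ∃ a ∈ T, ∃ b ∈ T, a * b ≠ b * a) : ∃ Ω : Set (Subgroup P), CompSys T Ω := by
  classical
  let Good : Subgroup P → Prop := fun A => A ≤ T ∧ A ≠ ⊥ ∧ ∀ t ∈ T, M1_c t A = A
  have hTn : ∀ g, M1_c g T = T := by
    intro g
    ext x
    rw [M1_mem]
    constructor
    · intro h
      have h1 := (inferInstance : T.Normal).conj_mem _ h g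
      have h2 : g * (g⁻¹ * x * g) * g⁻¹ = x := by group
      rwa [h2] at h1
    · intro h
      have h1 := (inferInstance : T.Normal).conj_mem _ h g⁻¹
      rwa [inv_inv] at h1
  obtain ⟨A0, hA0, hA0m⟩ := Set.exists_min_image {A : Subgroup P | Good A} (fun A => Nat.card A)
    (Set.toFinite _) ⟨T, le_rfl, hne, fun t _ => hTn t⟩
  -- a good subgroup contained in a conjugate of `A0` is equal to it
  have hGc : ∀ g, Good (M1_c g A0) := by
    intro g
    refine ⟨?_, ?_, ?_⟩
    · have h1 : M1_c g A0 ≤ M1_c g T := Subgroup.map_mono hA0.1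
      rwa [hTn] at h1
    · intro h
      apply hA0.2.1
      have h1 : M1_c g⁻¹ (M1_c g A0) = A0 := by rw [← M1_mul, inv_mul_cancel, M1_one]
      rw [← h1, h]
      exact Subgroup.map_bot _
    · intro t ht
      have h1 : g⁻¹ * t * g ∈ T := by
        have h2 := (inferInstance : T.Normal).conj_mem _ ht g⁻¹
        rwa [inv_inv] at h2
      have h3 : t * g = g * (g⁻¹ * t * g) := by group
      rw [← M1_mul, h3, M1_mul, hA0.2.2 _ h1]
  have heq : ∀ (g : P) (Z : Subgroup P), Good Z → Z ≤ M1_c g A0 → Z = M1_c g A0 := by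
    intro g Z hZ hle
    refine Subgroup.eq_of_le_of_card_ge hle ?_
    rw [M1_card]
    exact hA0m Z hZ
  let Ω : Set (Subgroup P) := Set.range fun g => M1_c g A0
  have hconj : ∀ g : P, ∀ A ∈ Ω, M1_c g A ∈ Ω := by
    rintro g _ ⟨h, rfl⟩
    exact ⟨g * h, M1_mul _ _ _⟩
  have hcomm : ∀ A ∈ Ω, ∀ A' ∈ Ω, A ≠ A' → ∀ a ∈ A, ∀ b ∈ A', a * b = b * a := by
    rintro _ ⟨g, rfl⟩ _ ⟨h, rfl⟩ hne' a ha b hb
    have hbot : M1_c g A0 ⊓ M1_c h A0 = ⊥ := by
      by_contra hcon
      have hG : Good (M1_c g A0 ⊓ M1_c h A0) := by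
        refine ⟨inf_le_left.trans (hGc g).1, hcon, fun t ht => ?_⟩
        have h1 : M1_c t (M1_c g A0 ⊓ M1_c h A0) = M1_c t (M1_c g A0) ⊓ M1_c t (M1_c h A0) := by
          ext x
          exact ⟨fun hx => ⟨M1_mem.2 (M1_mem.1 hx).1, M1_mem.2 (M1_mem.1 hx).2⟩,
            fun hx => M1_mem.2 ⟨M1_mem.1 hx.1, M1_mem.1 hx.2⟩⟩
        rw [h1, (hGc g).2.2 t ht, (hGc h).2.2 t ht]
      exact hne' ((heq g _ hG inf_le_left).symm.trans (heq h _ hG inf_le_right))
    have haT : a ∈ T := (hGc g).1 ha
    have hbT : b ∈ T := (hGc h).1 hb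
    have h1 : b * a⁻¹ * b⁻¹ ∈ M1_c g A0 := by
      have h2 : b * a⁻¹ * b⁻¹ ∈ M1_c b (M1_c g A0) := by
        rw [M1_mem]
        have e : b⁻¹ * (b * a⁻¹ * b⁻¹) * b = a⁻¹ := by group
        rw [e]
        exact inv_mem ha
      rwa [(hGc g).2.2 b hbT] at h2
    have h3 : a * b * a⁻¹ ∈ M1_c h A0 := by
      have h2 : a * b * a⁻¹ ∈ M1_c a (M1_c h A0) := by
        rw [M1_mem]
        have e : a⁻¹ * (a * b * a⁻¹) * a = b := by group
        rw [e]
        exact hb
      rwa [(hGc h).2.2 a haT] at h2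
    have h4 : a * b * a⁻¹ * b⁻¹ ∈ M1_c g A0 ⊓ M1_c h A0 := by
      refine Subgroup.mem_inf.2 ⟨?_, mul_mem h3 (inv_mem hb)⟩
      have e : a * b * a⁻¹ * b⁻¹ = a * (b * a⁻¹ * b⁻¹) := by group
      rw [e]
      exact mul_mem ha h1
    rw [hbot, Subgroup.mem_bot] at h4
    calc a * b = (a * b * a⁻¹ * b⁻¹) * (b * a) := by group
      _ = b * a := by rw [h4, one_mul]
  have hA0Ω : A0 ∈ Ω := ⟨1, M1_one A0⟩
  have hsup : sSup Ω = T := by
    have hnorm : (sSup Ω).Normal := by
      constructor
      intro n hn g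
      have h1 : sSup Ω ≤ (sSup Ω).comap (MulAut.conj g).toMonoidHom := by
        refine sSup_le fun A hA => ?_
        rw [← Subgroup.map_le_iff_le_comap]
        exact le_sSup (hconj g A hA)
      exact h1 hn
    have hle : sSup Ω ≤ T := by
      refine sSup_le ?_
      rintro _ ⟨g, rfl⟩
      exact (hGc g).1
    rcases hmin _ hnorm hle with h | h
    · exact absurd (le_bot_iff.1 (h ▸ le_sSup hA0Ω)) hA0.2.1
    · exact h
  refine ⟨Ω, ⟨⟨A0, hA0Ω⟩, hconj, ?_, ?_, ?_, hcomm, hsup⟩⟩
  · rintro _ ⟨g, rfl⟩ _ ⟨h, rfl⟩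
    refine ⟨h * g⁻¹, ?_⟩
    show M1_c (h * g⁻¹) (M1_c g A0) = M1_c h A0
    rw [← M1_mul, inv_mul_cancel_right]
  · rintro _ ⟨g, rfl⟩
    have hbot : M1_c g A0 ≠ ⊥ := (hGc g).2.1
    have hnt : Nontrivial (M1_c g A0) := (Subgroup.nontrivial_iff_ne_bot _).2 hbot
    refine { exists_pair_ne := hnt.exists_pair_ne, eq_bot_or_eq_top_of_normal := ?_ }
    intro N hN
    have hT : T ≤ Subgroup.normalizer (N.map (M1_c g A0).subtype : Set P) := by
      rw [← hsup]
      refine sSup_le fun A' hA' => ?_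
      by_cases hAA : A' = M1_c g A0
      · subst hAA
        intro t ht
        rw [Subgroup.mem_normalizer_iff]
        intro x
        constructor
        · rintro ⟨n, hn, rfl⟩
          exact ⟨⟨t, ht⟩ * n * ⟨t, ht⟩⁻¹, hN.conj_mem n hn _, rfl⟩
        · rintro ⟨n, hn, hn2⟩
          refine ⟨⟨t, ht⟩⁻¹ * n * ⟨t, ht⟩, ?_, ?_⟩
          · have h1 := hN.conj_mem n hn (⟨t, ht⟩⁻¹ : M1_c g A0)
            rwa [inv_inv] at h1
          · have h2 : (n : P) = t * x * t⁻¹ := hn2
            show t⁻¹ * (n : P) * t = x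
            rw [h2]
            group
      · intro t ht
        have hc : ∀ x ∈ N.map (M1_c g A0).subtype, t * x = x * t := by
          rintro _ ⟨n, _, rfl⟩
          exact hcomm A' hA' _ ⟨g, rfl⟩ hAA t ht n n.2
        rw [Subgroup.mem_normalizer_iff]
        intro x
        constructor
        · intro hx
          have h1 : t * x * t⁻¹ = x := by rw [hc x hx]; group
          show t * x * t⁻¹ ∈ N.map (M1_c g A0).subtype
          rw [h1]
          exact hx
        · intro hx
          have h1 := hc _ hx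
          have h2 : t * x * t⁻¹ = x := by
            have h3 : t * x * t⁻¹ = t⁻¹ * (t * (t * x * t⁻¹)) := by group
            rw [h3, h1]
            group
          rw [← h2]
          exact hx
    by_cases hNb : N.map (M1_c g A0).subtype = ⊥
    · left
      exact (Subgroup.map_eq_bot_iff_of_injective N (Subgroup.subtype_injective _)).1 hNb
    · right
      have hle : N.map (M1_c g A0).subtype ≤ M1_c g A0 := Subgroup.map_subtype_le N
      have hG : Good (N.map (M1_c g A0).subtype) := by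
        refine ⟨hle.trans (hGc g).1, hNb, fun t ht => ?_⟩
        ext x
        rw [M1_mem]
        have h1 := (Subgroup.mem_normalizer_iff.1 (inv_mem (hT ht))) x
        rw [inv_inv] at h1
        exact h1.symm
      have h1 := heq g _ hG hle
      rw [eq_top_iff]
      intro n _
      have h2 : (n : P) ∈ N.map (M1_c g A0).subtype := by
        rw [h1]
        exact n.2
      obtain ⟨n', hn', hnn⟩ := h2
      rwa [← Subtype.ext hnn]
  · rintro _ ⟨g, rfl⟩
    by_contra hcon
    push Not at hcon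
    -- all members of `Ω` are commutative
    have hab : ∀ h : P, ∀ a ∈ M1_c h A0, ∀ b ∈ M1_c h A0, a * b = b * a := by
      intro h a ha b hb
      have hk : ∀ z ∈ M1_c h A0, (g * h⁻¹) * z * (g * h⁻¹)⁻¹ ∈ M1_c g A0 := by
        intro z hz
        rw [M1_mem] at hz ⊢
        have e : g⁻¹ * (g * h⁻¹ * z * (g * h⁻¹)⁻¹) * g = h⁻¹ * z * h := by group
        rw [e]
        exact hz
      have h1 := hcon _ (hk a ha) _ (hk b hb)
      have h2 : (g * h⁻¹) * (a * b) * (g * h⁻¹)⁻¹ = (g * h⁻¹) * (b * a) * (g * h⁻¹)⁻¹ := by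
        calc (g * h⁻¹) * (a * b) * (g * h⁻¹)⁻¹
            = (g * h⁻¹ * a * (g * h⁻¹)⁻¹) * (g * h⁻¹ * b * (g * h⁻¹)⁻¹) := by group
          _ = (g * h⁻¹ * b * (g * h⁻¹)⁻¹) * (g * h⁻¹ * a * (g * h⁻¹)⁻¹) := h1
          _ = (g * h⁻¹) * (b * a) * (g * h⁻¹)⁻¹ := by group
      exact mul_left_cancel (mul_right_cancel h2)
    have hall : ∀ A ∈ Ω, ∀ A' ∈ Ω, A ≤ Subgroup.centralizer (A' : Set P) := by
      intro A hA A' hA' a ha
      rw [Subgroup.mem_centralizer_iff]
      intro b hb
      by_cases hAA : A = A'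
      · subst hAA
        obtain ⟨h, rfl⟩ := hA
        exact hab h b hb a ha
      · exact (hcomm A hA A' hA' hAA a ha b hb).symm
    have h1 : ∀ A' ∈ Ω, sSup Ω ≤ Subgroup.centralizer (A' : Set P) := fun A' hA' =>
      sSup_le fun A hA => hall A hA A' hA'
    have h2 : sSup Ω ≤ Subgroup.centralizer ((sSup Ω : Subgroup P) : Set P) :=
      sSup_le fun A' hA' => Subgroup.le_centralizer_iff.1 (h1 A' hA')
    rw [hsup] at h2
    obtain ⟨a, ha, b, hb, hab'⟩ := hna
    exact hab' ((Subgroup.mem_centralizer_iff.1 (h2 hb)) a ha)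

end GT48
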