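import Mathlib
import Pool.Agent.LibGT48.Defs

/-!
# LibGT48 NU1: the numbers of Theorem F
-/

namespace GT48

theorem NU1 (κ c r b : ℕ) (hb : 1 ≤ b) : ∃ C0 C1 : ℕ, ∀ k L φ d : ℕ, 1 ≤ k → 2 ^ L ≤ k ^ c →
    φ ≤ k * b → 2 ^ d ≤ 2 * k →
    k * (4 ^ d * (2 * (κ ^ (L + 1) * (1 + 4 * φ ^ r)) + 4 * φ ^ 2) + 2 * k) ≤ C0 * k ^ C1 := by
  refine ⟨40 * κ * b ^ r + 16 * b ^ 2 + 2, c * κ + r + 5, ?_⟩
  intro k L φ d hk hL hφ hd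
  have h1 : κ ^ (L + 1) ≤ κ * k ^ (c * κ) := by
    rw [pow_succ, mul_comm]
    refine Nat.mul_le_mul_left _ ?_
    calc κ ^ L ≤ (2 ^ κ) ^ L := Nat.pow_le_pow_left Nat.lt_two_pow_self.le L
      _ = (2 ^ L) ^ κ := by rw [← pow_mul, ← pow_mul, mul_comm]
      _ ≤ (k ^ c) ^ κ := Nat.pow_le_pow_left hL κ
      _ = k ^ (c * κ) := by rw [← pow_mul]
  have hkb : 1 ≤ k * b := Nat.one_le_iff_ne_zero.2 (by positivity)
  have h2 : 1 + 4 * φ ^ r ≤ 5 * (k ^ r * b ^ r) := by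
    have h3 : φ ^ r ≤ (k * b) ^ r := Nat.pow_le_pow_left hφ r
    have h4 : 1 ≤ (k * b) ^ r := Nat.one_le_pow _ _ (by omega)
    rw [← mul_pow]
    omega
  have h3 : φ ^ 2 ≤ k ^ 2 * b ^ 2 := by
    rw [← mul_pow]
    exact Nat.pow_le_pow_left hφ 2
  have h4 : 4 ^ d ≤ 4 * k ^ 2 := by
    calc 4 ^ d = (2 ^ d) ^ 2 := by rw [← pow_mul, mul_comm, pow_mul]; norm_num
      _ ≤ (2 * k) ^ 2 := Nat.pow_le_pow_left hd 2
      _ = 4 * k ^ 2 := by ring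
  have hp : ∀ {i : ℕ}, i ≤ c * κ + r + 5 → k ^ i ≤ k ^ (c * κ + r + 5) :=
    fun {i} hi => Nat.pow_le_pow_right hk hi
  calc k * (4 ^ d * (2 * (κ ^ (L + 1) * (1 + 4 * φ ^ r)) + 4 * φ ^ 2) + 2 * k)
      ≤ k * ((4 * k ^ 2) * (2 * ((κ * k ^ (c * κ)) * (5 * (k ^ r * b ^ r))) + 4 * (k ^ 2 * b ^ 2)) +
        2 * k) := by gcongr
    _ = 40 * κ * b ^ r * k ^ (c * κ + r + 3) + 16 * b ^ 2 * k ^ 5 + 2 * k ^ 2 := by ring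
    _ ≤ 40 * κ * b ^ r * k ^ (c * κ + r + 5) + 16 * b ^ 2 * k ^ (c * κ + r + 5) +
        2 * k ^ (c * κ + r + 5) := by
      have e1 := hp (i := c * κ + r + 3) (by omega)
      have e2 := hp (i := 5) (by omega)
      have e3 := hp (i := 2) (by omega)
      gcongr
    _ = (40 * κ * b ^ r + 16 * b ^ 2 + 2) * k ^ (c * κ + r + 5) := by ring

end GT48
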