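import Mathlib
import Pool.Agent.LibGT48.Defs

/-!
# LibGT48 LN1 (SHORT/MEDIUM, only Mathlib): the order of GL_a(q)

GLV q a = (Fin a → ZMod q) ≃ₗ[ZMod q] (Fin a → ZMod q). It is in bijection (multiplicatively) with GL (Fin a) (ZMod q) (LinearMap.GeneralLinearGroup.generalLinearEquiv and Matrix.GeneralLinearGroup.toLin / Matrix.toLin', or LinearEquiv.toMatrix);
Matrix.card_GL_field : Nat.card (GL (Fin n) 𝔽) = ∏ i : (Fin n), (Fintype.card 𝔽 ^ n - Fintype.card 𝔽 ^ (i : ℕ)). ZMod.card q. Finite: injection into linear maps / matrices. (LN1b follows from LN1a: each factor <= q^a; Finset.prod_le_pow_card.)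
-/

namespace GT48

open Subgroup GP48

universe u

private noncomputable def LN1_equiv (q a : ℕ) [Fact q.Prime] :
    GLV q a ≃ GL (Fin a) (ZMod q) :=
  ((LinearMap.GeneralLinearGroup.generalLinearEquiv (ZMod q) (Fin a → ZMod q)).symm.toEquiv).trans
    (Matrix.GeneralLinearGroup.toLin (n := Fin a) (R := ZMod q)).symm.toEquiv

theorem LN1a (q a : ℕ) [Fact q.Prime] :
    Finite (GLV q a) ∧ Nat.card (GLV q a) = ∏ i ∈ Finset.range a, (q ^ a - q ^ i) := by
  refine ⟨Finite.of_equiv _ (LN1_equiv q a).symm, ?_⟩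
  rw [Nat.card_congr (LN1_equiv q a), Matrix.card_GL_field, ZMod.card q,
    Finset.prod_range (fun i => q ^ a - q ^ i)]

theorem LN1b (q a : ℕ) [Fact q.Prime] : Nat.card (GLV q a) ≤ (q ^ a) ^ a := by
  rw [(LN1a q a).2]
  calc ∏ i ∈ Finset.range a, (q ^ a - q ^ i) ≤ (q ^ a) ^ (Finset.range a).card :=
        Finset.prod_le_pow_card _ _ _ (fun i _ => Nat.sub_le _ _)
    _ = (q ^ a) ^ a := by rw [Finset.card_range]

end GT48
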