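import Mathlib
import Pool.Agent.LibGT48.Defs

/-!
# LibGT48 LN2 (SHORT/MEDIUM, only Defs): soluble radical of a finite group

Let R be a normal subgroup with ∃ e, ds R e = ⊥ of maximal cardinality (⊥ is one; finite group). Let A be a normal commutative subgroup of G ⧸ R; R' = A.comap (QuotientGroup.mk' R) is normal, contains R, ⁅R', R'⁆ <= R (the image is commutative),
so ds R' (1 + e) = ds (ds R' 1) e <= ds R e = ⊥ (GP48.ds_add, ds_mono), so card R' <= card R, R' = R, A = ⊥.
-/

namespace GT48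

open Subgroup GP48

universe u

theorem LN2 (G : Type*) [Group G] [Finite G] : ∃ (R : Subgroup G) (_ : R.Normal),
    (∃ e, ds R e = ⊥) ∧
    ∀ A : Subgroup (G ⧸ R), A.Normal → (∀ a ∈ A, ∀ b ∈ A, a * b = b * a) → A = ⊥ := by
  obtain ⟨R, ⟨hRn, e, he⟩, hmax⟩ := Set.exists_max_image
    {R : Subgroup G | R.Normal ∧ ∃ e, ds R e = ⊥} (fun R => Nat.card R) (Set.toFinite _)
    ⟨⊥, inferInstance, 0, rfl⟩
  refine ⟨R, hRn, ⟨e, he⟩, ?_⟩
  intro A hA hc
  have hR'n : (A.comap (QuotientGroup.mk' R)).Normal := hA.comap _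
  have hle : R ≤ A.comap (QuotientGroup.mk' R) := by
    intro g hg
    rw [Subgroup.mem_comap, QuotientGroup.mk'_apply, (QuotientGroup.eq_one_iff g).mpr hg]
    exact A.one_mem
  have hcomm : ⁅A.comap (QuotientGroup.mk' R), A.comap (QuotientGroup.mk' R)⁆ ≤ R := by
    rw [Subgroup.commutator_le]
    intro g hg h hh
    have h1 : QuotientGroup.mk' R g * QuotientGroup.mk' R h =
        QuotientGroup.mk' R h * QuotientGroup.mk' R g :=
      hc _ (Subgroup.mem_comap.mp hg) _ (Subgroup.mem_comap.mp hh)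
    have h2 : QuotientGroup.mk' R (g * h * g⁻¹ * h⁻¹) = 1 := by
      rw [map_mul, map_mul, map_mul, map_inv, map_inv, h1]
      group
    exact (QuotientGroup.eq_one_iff _).mp h2
  have hds : ds (A.comap (QuotientGroup.mk' R)) (1 + e) = ⊥ := by
    rw [ds_add, eq_bot_iff, ← he]
    exact ds_mono hcomm e
  have hcard : Nat.card (A.comap (QuotientGroup.mk' R)) ≤ Nat.card R :=
    hmax _ ⟨hR'n, 1 + e, hds⟩
  have heq : R = A.comap (QuotientGroup.mk' R) := Subgroup.eq_of_le_of_card_ge hle hcard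
  rw [eq_bot_iff]
  intro a ha
  obtain ⟨g, rfl⟩ := QuotientGroup.mk'_surjective R a
  have hg : g ∈ A.comap (QuotientGroup.mk' R) := Subgroup.mem_comap.mpr ha
  rw [← heq] at hg
  rw [Subgroup.mem_bot, QuotientGroup.mk'_apply]
  exact (QuotientGroup.eq_one_iff g).mpr hg

end GT48
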