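import Mathlib
import Pool.Agent.LibGT48.Defs
import Pool.Agent.LibGP48.D1

/-!
# LibGT48 LN3 (MEDIUM/STRONG, Defs + GP48.D1): Clifford for the soluble radical

V = VV q a (finite). Choose a nonzero φ(R)-invariant submodule W of V of least dimension (V itself is one, Irr gives V nontrivial). For g : G the submodule g W = W.map (φ g) is again R-invariant (R normal), nonzero, of the same dimension, so it has no proper
nonzero R-invariant submodule. The sum of all g W is G-invariant and nonzero, so ⊤ (Irr). For each g: ψ_g : R ->* (gW ≃ₗ gW), irreducible (Irr), dimension n with 1 <= n <= a, and ds ⊤ e <= ψ_g.ker for the e of hsol (elements of ds R e act trivially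
on V; ds of the group R versus ds R in G: GP48.ds_map with R.subtype). GP48.D1 with hLB n gives ds (⊤ : Subgroup R) d <= ψ_g.ker for all g. So the elements of ds R d fix all vectors of all g W, so of V: they are in φ.ker.
-/

namespace GT48

open Subgroup GP48

universe u

private def LN3_res {F V G : Type*} [Semiring F] [AddCommMonoid V] [Module F V] [Group G]
    (φ : G →* (V ≃ₗ[F] V)) (W : Submodule F V) (R : Subgroup G)
    (h : ∀ r ∈ R, ∀ w ∈ W, φ r w ∈ W) : R →* (W ≃ₗ[F] W) where
  toFun r := LinearEquiv.ofLinearMap ((φ (r : G) : V →ₗ[F] V).restrict (h _ r.2))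
    ((φ ((r⁻¹ : R) : G) : V →ₗ[F] V).restrict (h _ (r⁻¹).2))
    (by
      ext w
      show φ (r : G) (φ ((r⁻¹ : R) : G) (w : V)) = (w : V)
      rw [← LinearEquiv.mul_apply, ← map_mul, Subgroup.coe_inv, mul_inv_cancel, map_one]
      rfl)
    (by
      ext w
      show φ ((r⁻¹ : R) : G) (φ (r : G) (w : V)) = (w : V)
      rw [← LinearEquiv.mul_apply, ← map_mul, Subgroup.coe_inv, inv_mul_cancel, map_one]
      rfl)
  map_one' := by
    ext w
    show φ ((1 : R) : G) (w : V) = (w : V)
    rw [Subgroup.coe_one, map_one]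
    rfl
  map_mul' r s := by
    ext w
    show φ ((r * s : R) : G) (w : V) = φ (r : G) (φ (s : G) (w : V))
    rw [Subgroup.coe_mul, map_mul, LinearEquiv.mul_apply]

private theorem LN3_res_apply {F V G : Type*} [Semiring F] [AddCommMonoid V] [Module F V] [Group G]
    (φ : G →* (V ≃ₗ[F] V)) (W : Submodule F V) (R : Subgroup G)
    (h : ∀ r ∈ R, ∀ w ∈ W, φ r w ∈ W) (r : R) (w : W) :
    ((LN3_res φ W R h r w : W) : V) = φ (r : G) (w : V) := rfl

theorem LN3 {q a d : ℕ} [Fact q.Prime] {G : Type*} [Group G] (φ : G →* GLV q a) (hirr : Irr φ)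
    (R : Subgroup G) [R.Normal] (hsol : ∃ e, ds R e ≤ φ.ker)
    (hLB : ∀ n, 1 ≤ n → n ≤ a → LB n q d) : ds R d ≤ φ.ker := by
  obtain ⟨hnt, hmin⟩ := hirr
  obtain ⟨W, ⟨hW0, hWi⟩, hWm⟩ := WellFounded.has_min
    (wellFounded_lt : WellFounded ((· < ·) : Submodule (ZMod q) (VV q a) → _ → Prop))
    {W | W ≠ ⊥ ∧ ∀ r ∈ R, ∀ w ∈ W, φ r w ∈ W} ⟨⊤, top_ne_bot, fun _ _ _ _ => trivial⟩
  have hn1 : 1 ≤ Module.finrank (ZMod q) W := Submodule.one_le_finrank_iff.2 hW0
  have hn2 : Module.finrank (ZMod q) W ≤ a := by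
    have h1 := Submodule.finrank_le W
    rwa [Module.finrank_fin_fun] at h1
  have hds : ∀ i, (ds (⊤ : Subgroup R) i).map R.subtype = ds R i := by
    intro i
    rw [ds_map, ← MonoidHom.range_eq_map, Subgroup.range_subtype]
  have hirr' : Irr (LN3_res φ W R hWi) := by
    refine ⟨(Submodule.nontrivial_iff_ne_bot).2 hW0, fun U hU => ?_⟩
    by_cases hU0 : U = ⊥
    · exact Or.inl hU0
    · right
      have h1 : U.map W.subtype ≠ ⊥ := by
        intro h
        exact hU0 (Submodule.map_injective_of_injective W.injective_subtype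
          (by rw [h, Submodule.map_bot]))
      have h2 : ∀ r ∈ R, ∀ w ∈ U.map W.subtype, φ r w ∈ U.map W.subtype := by
        rintro r hr _ ⟨u, hu, rfl⟩
        exact ⟨_, hU ⟨r, hr⟩ u hu, rfl⟩
      have h3 := hWm (U.map W.subtype) ⟨h1, h2⟩
      have h4 : U.map W.subtype ≤ W := Submodule.map_subtype_le W U
      have h5 : U.map W.subtype = W := by
        by_contra hne
        exact h3 (lt_of_le_of_ne h4 hne)
      rw [eq_top_iff]
      intro x _
      have h6 : (x : VV q a) ∈ U.map W.subtype := by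
        rw [h5]
        exact x.2
      obtain ⟨u, hu, hux⟩ := h6
      have h7 : u = x := Subtype.ext hux
      rw [← h7]
      exact hu
  have hsol' : ∃ e, ds (⊤ : Subgroup R) e ≤ (LN3_res φ W R hWi).ker := by
    obtain ⟨e, he⟩ := hsol
    refine ⟨e, fun x hx => ?_⟩
    have h1 : (x : G) ∈ φ.ker := he (by rw [← hds e]; exact ⟨x, hx, rfl⟩)
    rw [MonoidHom.mem_ker] at h1 ⊢
    ext w
    rw [LN3_res_apply, h1]
    rfl
  have hD := D1 (hLB _ hn1 hn2) rfl (LN3_res φ W R hWi) hirr' hsol'
  have hfix : ∀ y ∈ ds R d, ∀ w ∈ W, φ y w = w := by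
    intro y hy w hw
    rw [← hds d] at hy
    obtain ⟨x, hx, rfl⟩ := hy
    have h1 := hD hx
    rw [MonoidHom.mem_ker] at h1
    have h2 := congrArg (fun f : W ≃ₗ[ZMod q] W => ((f ⟨w, hw⟩ : W) : VV q a)) h1
    exact h2
  let U : Submodule (ZMod q) (VV q a) :=
    { carrier := {v | ∀ y ∈ ds R d, φ y v = v}
      add_mem' := by
        intro u v hu hv y hy
        rw [map_add, hu y hy, hv y hy]
      zero_mem' := fun y _ => map_zero _
      smul_mem' := by
        intro c v hv y hy
        rw [map_smul, hv y hy] }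
  have hUW : W ≤ U := fun w hw y hy => hfix y hy w hw
  have hUi : ∀ g : G, ∀ v ∈ U, φ g v ∈ U := by
    intro g v hv y hy
    have h1 : g⁻¹ * y * g ∈ ds R d := by
      have := (ds_normal R d).conj_mem y hy g⁻¹
      rwa [inv_inv] at this
    have h2 : y * g = g * (g⁻¹ * y * g) := by group
    rw [← LinearEquiv.mul_apply, ← map_mul, h2, map_mul, LinearEquiv.mul_apply, hv _ h1]
  have hUt : U = ⊤ := by
    rcases hmin U hUi with h | h
    · exact absurd (le_bot_iff.1 (h ▸ hUW)) hW0
    · exact h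
  intro y hy
  rw [MonoidHom.mem_ker]
  refine LinearEquiv.ext fun v => ?_
  have h1 : v ∈ U := by
    rw [hUt]
    trivial
  exact h1 y hy

end GT48
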