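import Mathlib
import Pool.Agent.LibGT48.Defs

/-!
# LibGT48 LN4 (MEDIUM, only Mathlib, number theory): the p-part of the order of GL_a(q)

padicValNat p of the product = sum over i < a of v_p(q^a - q^i) = v_p(q^i (q^(a-i) - 1)) = v_p(q^(a-i) - 1) (p ∤ q), so = sum over j = 1..a of v_p(q^j - 1).
p odd: let D = orderOf (q : (ZMod p)ˣ) (so p ∣ q^j - 1 iff D ∣ j; D >= 1). For D ∤ j the value is 0; for j = D m: padicValNat.pow_sub_pow (LTE) with x = q^D, y = 1: v_p(q^(D m) - 1) = v_p(q^D - 1) + v_p(m). With M = a / D: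
sum = M v_p(q^D - 1) + v_p(M!) and p^(v_p(q^D-1)) <= q^D - 1 < q^D, so p^(first) <= q^(D M) <= q^a; p^(v_p(M!)): v_p(M!) <= M/(p-1) (sub_one_mul_padicValNat_factorial), p <= 2^(p-1), so p^(v_p(M!)) <= 2^M <= q^a. Total <= (q^a)^2.
p = 2 (q odd): padicValNat.pow_two_sub_pow for even j: v_2(q^j - 1) + 1 = v_2(q + 1) + v_2(q - 1) + v_2(j); for odd j: v_2(q^j-1) = v_2(q-1) (q^j - 1 = (q-1) * odd). In all cases v_2(q^j - 1) <= v_2(q^2 - 1) + v_2(j). Sum <= a v_2(q^2-1) + v_2(a!),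
2^(v_2(q^2-1)) <= q^2, v_2(a!) <= a: total 2^r <= q^(2a) 2^a <= (q^a)^3.
-/

namespace GT48

open Subgroup GP48

universe u

private theorem LN4_rec (q a : ℕ) : ∏ i ∈ Finset.range (a + 1), (q ^ (a + 1) - q ^ i) =
    (q ^ a * ∏ i ∈ Finset.range a, (q ^ a - q ^ i)) * (q ^ (a + 1) - 1) := by
  rw [Finset.prod_range_succ', pow_zero]
  congr 1
  have h : ∀ i ∈ Finset.range a, q ^ (a + 1) - q ^ (i + 1) = q * (q ^ a - q ^ i) := fun i _ => by
    rw [pow_succ, pow_succ, ← Nat.sub_mul, mul_comm]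
  rw [Finset.prod_congr rfl h, Finset.prod_mul_distrib, Finset.prod_const, Finset.card_range]

private theorem LN4_pos (q a : ℕ) (hq : q.Prime) : ∏ i ∈ Finset.range a, (q ^ a - q ^ i) ≠ 0 := by
  refine Finset.prod_ne_zero_iff.2 fun i hi => ?_
  have h1 : q ^ i < q ^ a := Nat.pow_lt_pow_right hq.one_lt (Finset.mem_range.1 hi)
  omega

private theorem LN4_vrec (q a p : ℕ) (hq : q.Prime) [hp : Fact p.Prime] (hpq : p ≠ q) :
    padicValNat p (∏ i ∈ Finset.range (a + 1), (q ^ (a + 1) - q ^ i)) =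
      padicValNat p (∏ i ∈ Finset.range a, (q ^ a - q ^ i)) + padicValNat p (q ^ (a + 1) - 1) := by
  have h1 : q ^ a ≠ 0 := pow_ne_zero _ hq.ne_zero
  have h2 : q ^ (a + 1) - 1 ≠ 0 := by
    have : 1 < q ^ (a + 1) := Nat.one_lt_pow (by omega) hq.one_lt
    omega
  have h3 : padicValNat p (q ^ a) = 0 := by
    apply padicValNat.eq_zero_of_not_dvd
    intro h
    exact hpq ((Nat.prime_dvd_prime_iff_eq hp.out hq).1 (hp.out.dvd_of_dvd_pow h))
  rw [LN4_rec, padicValNat.mul (mul_ne_zero h1 (LN4_pos q a hq)) h2, padicValNat.mul h1 (LN4_pos q a hq), h3, zero_add]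

private theorem LN4_pow_le (p n : ℕ) [hp : Fact p.Prime] (hn : n ≠ 0) : p ^ padicValNat p n ≤ n :=
  Nat.le_of_dvd (Nat.pos_of_ne_zero hn) pow_padicValNat_dvd

private theorem LN4_fact (p M : ℕ) [hp : Fact p.Prime] : p ^ padicValNat p (M.factorial) ≤ 2 ^ M := by
  have h1 := sub_one_mul_padicValNat_factorial (p := p) M
  have h2 : p ≤ 2 ^ (p - 1) := by
    have : p - 1 < 2 ^ (p - 1) := Nat.lt_two_pow_self
    have := hp.out.one_lt
    omega
  calc p ^ padicValNat p (M.factorial) ≤ (2 ^ (p - 1)) ^ padicValNat p (M.factorial) := Nat.pow_le_pow_left h2 _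
    _ = 2 ^ ((p - 1) * padicValNat p (M.factorial)) := by rw [pow_mul]
    _ ≤ 2 ^ M := Nat.pow_le_pow_right (by norm_num) (by rw [h1]; omega)

private theorem LN4_dvd_iff (q j p : ℕ) (hq : q.Prime) [hp : Fact p.Prime] :
    p ∣ q ^ j - 1 ↔ orderOf (q : ZMod p) ∣ j := by
  have h1 : 1 ≤ q ^ j := Nat.one_le_pow _ _ hq.pos
  rw [orderOf_dvd_iff_pow_eq_one, ← ZMod.natCast_eq_zero_iff, Nat.cast_sub h1, Nat.cast_pow, Nat.cast_one, sub_eq_zero]

private theorem LN4_ordpos (q p : ℕ) (hq : q.Prime) [hp : Fact p.Prime] (hpq : p ≠ q) : 0 < orderOf (q : ZMod p) := by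
  have h0 : (q : ZMod p) ≠ 0 := by
    intro h
    rw [ZMod.natCast_eq_zero_iff] at h
    exact hpq ((Nat.prime_dvd_prime_iff_eq hp.out hq).1 h)
  have h1 : orderOf (q : ZMod p) ∣ p - 1 := orderOf_dvd_of_pow_eq_one (ZMod.pow_card_sub_one_eq_one h0)
  have h2 : 0 < p - 1 := by have := hp.out.one_lt; omega
  exact Nat.pos_of_dvd_of_pos h1 h2

private theorem LN4_odd (q a p : ℕ) (hq : q.Prime) [hp : Fact p.Prime] (hpq : p ≠ q) (hodd : Odd p) :
    padicValNat p (∏ i ∈ Finset.range a, (q ^ a - q ^ i)) =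
      (a / orderOf (q : ZMod p)) * padicValNat p (q ^ orderOf (q : ZMod p) - 1) +
        padicValNat p ((a / orderOf (q : ZMod p)).factorial) := by
  set D := orderOf (q : ZMod p) with hD
  have hDpos : 0 < D := LN4_ordpos q p hq hpq
  induction a with
  | zero => simp
  | succ a ih =>
    rw [LN4_vrec q a p hq hpq, ih, Nat.succ_div]
    by_cases hd : D ∣ a + 1
    · rw [if_pos hd]
      obtain ⟨m, hm⟩ := hd
      have hm0 : m ≠ 0 := by
        rintro rfl
        simp at hm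
      have hdiv : a / D + 1 = m := by
        have := Nat.succ_div (a := a) (b := D)
        rw [if_pos ⟨m, hm⟩, hm, Nat.mul_div_cancel_left _ hDpos] at this
        omega
      have h1 : 1 < q ^ D := Nat.one_lt_pow hDpos.ne' hq.one_lt
      have h2 : p ∣ q ^ D - 1 := (LN4_dvd_iff q D p hq).2 (dvd_refl _)
      have h3 : ¬ p ∣ q ^ D := by
        intro h
        exact hpq ((Nat.prime_dvd_prime_iff_eq hp.out hq).1 (hp.out.dvd_of_dvd_pow h))
      have h4 := padicValNat.pow_sub_pow (p := p) hodd h1 h2 h3 hm0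
      rw [one_pow, ← pow_mul, ← hm] at h4
      rw [h4, hdiv, ← hdiv, Nat.factorial_succ, padicValNat.mul (Nat.succ_ne_zero _) (Nat.factorial_ne_zero _)]
      ring
    · rw [if_neg hd]
      have h1 : padicValNat p (q ^ (a + 1) - 1) = 0 :=
        padicValNat.eq_zero_of_not_dvd fun h => hd ((LN4_dvd_iff q (a + 1) p hq).1 h)
      rw [h1]
      simp

private theorem LN4_two (q a : ℕ) (hq : q.Prime) (hq2 : 2 ≠ q) :
    padicValNat 2 (∏ i ∈ Finset.range a, (q ^ a - q ^ i)) ≤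
      a * (padicValNat 2 (q + 1) + padicValNat 2 (q - 1)) + padicValNat 2 (a.factorial) := by
  haveI : Fact (Nat.Prime 2) := ⟨Nat.prime_two⟩
  have hodd : ¬ 2 ∣ q := by
    intro h
    exact hq2 ((Nat.prime_dvd_prime_iff_eq Nat.prime_two hq).1 h)
  have hq3 : 1 < q := hq.one_lt
  induction a with
  | zero => simp
  | succ a ih =>
    rw [LN4_vrec q a 2 hq hq2, Nat.factorial_succ,
      padicValNat.mul (by omega : a + 1 ≠ 0) (Nat.factorial_ne_zero _)]
    have h2 : 2 ∣ q - 1 := by omega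
    have h3 := padicValNat.pow_two_sub_pow (x := q) (y := 1) hq3 h2 hodd (n := 2 * (a + 1)) (by omega) ⟨a + 1, by ring⟩
    rw [one_pow, padicValNat.mul (by norm_num) (by omega), padicValNat.self (by norm_num)] at h3
    have h5 : 1 < q ^ (2 * (a + 1)) := Nat.one_lt_pow (by omega) hq3
    have h4 : padicValNat 2 (q ^ (a + 1) - 1) ≤ padicValNat 2 (q ^ (2 * (a + 1)) - 1) := by
      have hdvd : q ^ (a + 1) - 1 ∣ q ^ (2 * (a + 1)) - 1 := by
        have := Nat.sub_dvd_pow_sub_pow (q ^ (a + 1)) 1 2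
        rw [one_pow, ← pow_mul, mul_comm (a + 1) 2] at this
        exact this
      exact (padicValNat_dvd_iff_le (by omega)).1 (pow_padicValNat_dvd.trans hdvd)
    rw [add_mul, one_mul]
    omega

theorem LN4 (q a p r : ℕ) (hq : q.Prime) (hp : p.Prime) (hpq : p ≠ q)
    (h : p ^ r ∣ ∏ i ∈ Finset.range a, (q ^ a - q ^ i)) : p ^ r ≤ (q ^ a) ^ 3 := by
  haveI : Fact p.Prime := ⟨hp⟩
  have h1 : r ≤ padicValNat p (∏ i ∈ Finset.range a, (q ^ a - q ^ i)) :=
    (padicValNat_dvd_iff_le (LN4_pos q a hq)).1 h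
  refine (Nat.pow_le_pow_right hp.pos h1).trans ?_
  have hqa : 1 ≤ q ^ a := Nat.one_le_pow _ _ hq.pos
  rcases hp.eq_two_or_odd' with h2 | hodd
  · subst h2
    refine (Nat.pow_le_pow_right (by norm_num) (LN4_two q a hq hpq)).trans ?_
    rw [pow_add, mul_comm a, pow_mul, pow_add]
    have e1 : 2 ^ padicValNat 2 (q + 1) * 2 ^ padicValNat 2 (q - 1) ≤ q ^ 2 := by
      have b1 : 2 ^ padicValNat 2 (q + 1) * 2 ^ padicValNat 2 (q - 1) ≤ (q + 1) * (q - 1) :=
        Nat.mul_le_mul (LN4_pow_le 2 (q + 1) (by omega)) (LN4_pow_le 2 (q - 1) (by have := hq.one_lt; omega))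
      refine b1.trans ?_
      have : (q + 1) * (q - 1) = q ^ 2 - 1 := by
        rw [← Nat.sq_sub_sq, one_pow]
      rw [this]
      omega
    calc (2 ^ padicValNat 2 (q + 1) * 2 ^ padicValNat 2 (q - 1)) ^ a * 2 ^ padicValNat 2 (a.factorial)
        ≤ (q ^ 2) ^ a * 2 ^ a := Nat.mul_le_mul (Nat.pow_le_pow_left e1 _) (LN4_fact 2 a)
      _ ≤ (q ^ 2) ^ a * q ^ a := Nat.mul_le_mul_left _ (Nat.pow_le_pow_left hq.two_le _)
      _ = (q ^ a) ^ 3 := by ring
  · rw [LN4_odd q a p hq hpq hodd]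
    set D := orderOf (q : ZMod p) with hD
    have hDpos : 0 < D := LN4_ordpos q p hq hpq
    have h2 : 1 < q ^ D := Nat.one_lt_pow hDpos.ne' hq.one_lt
    have e1 : p ^ padicValNat p (q ^ D - 1) ≤ q ^ D := (LN4_pow_le p (q ^ D - 1) (by omega)).trans (by omega)
    have e2 : D * (a / D) ≤ a := Nat.mul_div_le a D
    have e3 : a / D ≤ a := Nat.div_le_self _ _
    rw [pow_add, mul_comm (a / D), pow_mul]
    calc (p ^ padicValNat p (q ^ D - 1)) ^ (a / D) * p ^ padicValNat p ((a / D).factorial)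
        ≤ (q ^ D) ^ (a / D) * 2 ^ (a / D) := Nat.mul_le_mul (Nat.pow_le_pow_left e1 _) (LN4_fact p (a / D))
      _ ≤ q ^ a * q ^ a := by
        refine Nat.mul_le_mul ?_ ?_
        · rw [← pow_mul]
          exact Nat.pow_le_pow_right hq.pos e2
        · exact (Nat.pow_le_pow_left hq.two_le _).trans (Nat.pow_le_pow_right hq.pos e3)
      _ ≤ q ^ a * q ^ a * q ^ a := Nat.le_mul_of_pos_right _ hqa
      _ = (q ^ a) ^ 3 := by ring

end GT48
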