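import Mathlib
import Pool.Agent.LibGT48.Defs
import Pool.Agent.LibGT48.BD1

/-!
# LibGT48 M2 (MEDIUM, only Defs): orders

M2a: a finite nonabelian simple group A is not a q-group (IsPGroup.center_nontrivial: the centre is a nontrivial normal subgroup, so = ⊤, so A commutative), so there is a prime p ≠ q dividing Nat.card A
(otherwise Nat.card A is a power of q: Nat.eq_prime_pow_of_unique_prime_dvd or via primeFactors ⊆ {q}; IsPGroup.of_card).
M2b: all members of Ω are conjugate, so have the same card. For A in Ω: A ⊓ sSup (Ω \ {A}) = ⊥ (an element there commutes with A, so lies in the centre of the simple nonabelian A, which is ⊥). So the family of the members of Ω is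
independent and pairwise commuting; Subgroup.noncommPiCoprod_injective / injective_noncommPiCoprod_of_iSupIndep gives an injective hom from the product over Ω into P with range <= T;
Nat.card (product) = (Nat.card A)^(Ω.ncard) divides Nat.card T (Subgroup.card_dvd_of_injective into T). p^(ncard) divides (card A)^(ncard). (Alternative: induction over a Finset of members: card of the sup is the product of the cards.)
-/

namespace GT48

open Subgroup GP48

universe u

theorem M2a {A : Type*} [Group A] [Finite A] (hA : IsSimpleGroup A)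
    (hna : ∃ a b : A, a * b ≠ b * a) (q : ℕ) (hq : q.Prime) :
    ∃ p, p.Prime ∧ p ≠ q ∧ p ∣ Nat.card A := by
  by_contra hcon
  have h1 : ∀ {d : ℕ}, d.Prime → d ∣ Nat.card A → d = q := by
    intro d hd hdv
    by_contra hne
    exact hcon ⟨d, hd, hne, hdv⟩
  have h2 := Nat.eq_prime_pow_of_unique_prime_dvd (Nat.card_pos (α := A)).ne' h1
  have hfact : Fact q.Prime := ⟨hq⟩
  have hP : IsPGroup q A := IsPGroup.of_card h2
  have hnt : Nontrivial A := by
    obtain ⟨a, b, hab⟩ := hna
    exact ⟨⟨a * b, b * a, hab⟩⟩
  have hc : Nontrivial (center A) := hP.center_nontrivial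
  obtain ⟨a, b, hab⟩ := hna
  rcases hA.eq_bot_or_eq_top_of_normal (center A) inferInstance with hb | ht
  · rw [hb] at hc
    exact not_subsingleton_iff_nontrivial.2 hc inferInstance
  · have h3 : b ∈ center A := by rw [ht]; trivial
    exact hab (mem_center_iff.1 h3 a)

theorem M2b {P : Type*} [Group P] [Finite P] {T : Subgroup P} {Ω : Set (Subgroup P)}
    (h : CompSys T Ω) {A : Subgroup P} (hA : A ∈ Ω) {p : ℕ} (hp : p ∣ Nat.card A) :
    p ^ Ω.ncard ∣ Nat.card T := by
  classical
  have _ift : Fintype Ω := Fintype.ofFinite Ω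
  let H : Ω → Subgroup P := fun i => i.1
  have hcomm : Pairwise fun i j : Ω => ∀ x y : P, x ∈ H i → y ∈ H j → Commute x y := by
    intro i j hij x y hx hy
    exact h.comm i.1 i.2 j.1 j.2 (fun e => hij (Subtype.ext e)) x hx y hy
  have hcen : ∀ i : Ω, ∀ x ∈ H i, (∀ y ∈ H i, x * y = y * x) → x = 1 := by
    intro i x hx hxy
    have hs := h.simple i.1 i.2
    have hz : (⟨x, hx⟩ : H i) ∈ center (H i) := by
      rw [mem_center_iff]
      intro g
      exact Subtype.ext (hxy g.1 g.2).symm
    rcases hs.eq_bot_or_eq_top_of_normal (center (H i)) inferInstance with hb | ht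
    · rw [hb, mem_bot] at hz
      exact congrArg Subtype.val hz
    · exfalso
      obtain ⟨a, ha, b, hb, hab⟩ := h.na i.1 i.2
      have h3 : (⟨b, hb⟩ : H i) ∈ center (H i) := by rw [ht]; trivial
      rw [mem_center_iff] at h3
      exact hab (congrArg Subtype.val (h3 ⟨a, ha⟩))
  have hind : iSupIndep H := by
    intro i
    rw [disjoint_iff, eq_bot_iff]
    intro x hx
    obtain ⟨hx1, hx2⟩ := mem_inf.1 hx
    have hle : (⨆ (j) (_ : j ≠ i), H j) ≤ centralizer (H i : Set P) := by
      refine iSup₂_le fun j hj y hy => ?_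
      rw [mem_centralizer_iff]
      intro z hz
      exact hcomm (Ne.symm hj) z y hz hy
    have h3 := mem_centralizer_iff.1 (hle hx2)
    rw [mem_bot]
    exact hcen i x hx1 (fun y hy => (h3 y hy).symm)
  have hinj := injective_noncommPiCoprod_of_iSupIndep (hcomm := hcomm) hind
  have hrange := noncommPiCoprod_range (hcomm := hcomm)
  have hT : (noncommPiCoprod hcomm).range = T := by
    rw [hrange, ← h.sup, sSup_eq_iSup']
  have hcard : Nat.card T = ∏ i : Ω, Nat.card (H i) := by
    rw [← hT, ← Nat.card_pi]
    exact (Nat.card_congr (MonoidHom.ofInjective hinj).toEquiv).symm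
  have heach : ∀ i : Ω, Nat.card (H i) = Nat.card A := by
    intro i
    obtain ⟨g, hg⟩ := h.trans A hA i.1 i.2
    have h4 : H i = A.map (MulAut.conj g).toMonoidHom := hg.symm
    rw [h4]
    exact (Nat.card_congr (A.equivMapOfInjective _ (MulAut.conj g).injective).toEquiv).symm
  rw [hcard, Finset.prod_congr rfl (fun i _ => heach i), Finset.prod_const, Finset.card_univ]
  have h5 : Fintype.card Ω = Ω.ncard := by
    rw [← Nat.card_eq_fintype_card, Nat.card_coe_set_eq]
  rw [h5]
  exact pow_dvd_pow_of_dvd hp _

end GT48
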