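import Mathlib
import Pool.Agent.LibGT48.Defs
import Pool.Agent.LibGT48.BD1

/-!
# LibGT48 V2 (MEDIUM, only Defs + BD1): the verbal series of a finite group of the class

V2a: H nontrivial and finite: take a maximal proper normal subgroup N (finite: exists N normal, N ≠ ⊤, maximal); H/N is simple. If H/N is commutative then x^e y^e x^-e y^-e lies in N for all x, y.
If not, Nat.card (H/N) <= B (BD1 with M = ⊤, or h applied to M = ⊤; topEquiv) so orderOf divides Nat.card (H/N), which divides B ! (Nat.dvd_factorial, card > 0), so x^(B !) lies in N for all x. In both cases ver (B !) ⊤ <= N < ⊤.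
V2: by V2a and Bd.sub (transport to the type of the subgroup: (ver e ⊤).map K.subtype = ver e K by ver_map), every subgroup K = vs e ⊤ i ≠ ⊥ has vs e ⊤ (i+1) < vs e ⊤ i, so Nat.card (vs (i+1)) * 2 <= Nat.card (vs i) (Lagrange).
Let L be the least index with vs e ⊤ L = ⊥ (exists, the cards decrease): 2^L <= Nat.card H.
V2h: f.rangeRestrict : G -> f.range surjective, Bd B f.range (Bd.surj), V2 for f.range, then VL.comap (K' = ⊥, comap of ⊥ under rangeRestrict is f.ker) and VL.mono.
-/

namespace GT48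

open Subgroup GP48

universe u

private theorem exists_max_normal (H : Type*) [Group H] [Finite H] [Nontrivial H] :
    ∃ N : Subgroup H, N.Normal ∧ N ≠ ⊤ ∧ ∀ K : Subgroup H, K.Normal → N ≤ K → K = N ∨ K = ⊤ := by
  have hfin : {N : Subgroup H | N.Normal ∧ N ≠ ⊤}.Finite := Set.toFinite _
  obtain ⟨N, hN⟩ := hfin.exists_maximal ⟨⊥, inferInstance, bot_ne_top⟩
  refine ⟨N, hN.1.1, hN.1.2, fun K hK h => ?_⟩
  by_cases hKt : K = ⊤
  · exact Or.inr hKt
  · exact Or.inl (le_antisymm (hN.2 ⟨hK, hKt⟩ h) h)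

theorem V2a {B : ℕ} {H : Type*} [Group H] [Finite H] [Nontrivial H] (hB : Bd B H) :
    ver (Nat.factorial B) (⊤ : Subgroup H) ≠ ⊤ := by
  obtain ⟨N, hNn, hNt, hmax⟩ := exists_max_normal H
  have := hNn
  have hsimple : IsSimpleGroup (H ⧸ N) := by
    have hnt : Nontrivial (H ⧸ N) := by
      rw [← not_subsingleton_iff_nontrivial]
      intro h
      exact hNt (QuotientGroup.subgroup_eq_top_of_subsingleton N h)
    refine ⟨fun K hK => ?_⟩
    have h1 : N ≤ K.comap (QuotientGroup.mk' N) := by
      intro x hx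
      rw [mem_comap, QuotientGroup.mk'_apply, (QuotientGroup.eq_one_iff x).2 hx]
      exact K.one_mem
    have hsurj := QuotientGroup.mk'_surjective N
    rcases hmax (K.comap (QuotientGroup.mk' N)) inferInstance h1 with h2 | h2
    · left
      rw [← Subgroup.map_comap_eq_self_of_surjective hsurj K, h2]
      ext x
      rw [mem_map, mem_bot]
      constructor
      · rintro ⟨y, hy, rfl⟩
        exact (QuotientGroup.eq_one_iff y).2 hy
      · rintro rfl
        exact ⟨1, N.one_mem, rfl⟩
    · right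
      rw [← Subgroup.map_comap_eq_self_of_surjective hsurj K, h2]
      exact Subgroup.map_top_of_surjective _ hsurj
  have key : ver (Nat.factorial B) (⊤ : Subgroup H) ≤ N := by
    rw [ver, Subgroup.closure_le]
    rintro z ⟨x, _, y, _, rfl⟩
    by_cases hc : ∃ a b : H ⧸ N, a * b ≠ b * a
    · have hcard : Nat.card (H ⧸ N) ≤ B :=
        BD1 hB (⊤ : Subgroup H) hsimple
          ((QuotientGroup.mk' N).comp (topEquiv (G := H)).toMonoidHom)
          ((QuotientGroup.mk'_surjective N).comp (topEquiv (G := H)).surjective) hc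
      have hp : ∀ w : H, w ^ Nat.factorial B ∈ N := by
        intro w
        rw [← QuotientGroup.eq_one_iff, QuotientGroup.mk_pow]
        have h1 : orderOf (w : H ⧸ N) ∣ Nat.card (H ⧸ N) := orderOf_dvd_natCard _
        have h2 : Nat.card (H ⧸ N) ∣ Nat.factorial B := Nat.dvd_factorial Nat.card_pos hcard
        exact orderOf_dvd_iff_pow_eq_one.1 (h1.trans h2)
      exact N.mul_mem (N.mul_mem (N.mul_mem (hp x) (hp y)) (N.inv_mem (hp x))) (N.inv_mem (hp y))
    · push Not at hc
      show _ ∈ N
      rw [← QuotientGroup.eq_one_iff]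
      rw [QuotientGroup.mk_mul, QuotientGroup.mk_mul, QuotientGroup.mk_mul,
        hc (((x ^ Nat.factorial B : H)) : H ⧸ N) ((y ^ Nat.factorial B : H) : H ⧸ N),
        QuotientGroup.mk_inv, QuotientGroup.mk_inv]
      group
  intro h
  rw [h] at key
  exact hNt (top_le_iff.1 key)

private theorem ver_lt {B : ℕ} {H : Type*} [Group H] [Finite H] (hB : Bd B H) (K : Subgroup H)
    (hK : K ≠ ⊥) : ver (Nat.factorial B) K ≠ K := by
  have : Nontrivial K := (Subgroup.nontrivial_iff_ne_bot K).2 hK
  have h1 := V2a (hB.sub K)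
  intro h
  apply h1
  have h2 : (ver (Nat.factorial B) (⊤ : Subgroup K)).map K.subtype = (⊤ : Subgroup K).map K.subtype := by
    rw [ver_map, ← MonoidHom.range_eq_map, Subgroup.range_subtype, h]
  exact Subgroup.map_injective K.subtype_injective h2

theorem V2 {B : ℕ} {H : Type*} [Group H] [Finite H] (hB : Bd B H) :
    VL (Nat.factorial B) (Nat.card H) (⊤ : Subgroup H) ⊥ := by
  classical
  set e := Nat.factorial B with he
  have claim : ∀ L, vs e (⊤ : Subgroup H) L ≠ ⊥ →
      2 ^ L * Nat.card (vs e (⊤ : Subgroup H) L) ≤ Nat.card H := by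
    intro L
    induction L with
    | zero =>
      intro _
      rw [vs_zero, pow_zero, one_mul, Subgroup.card_top]
    | succ L ih =>
      intro h
      have h1 : vs e (⊤ : Subgroup H) L ≠ ⊥ := by
        intro h2
        apply h
        have h3 : vs e (⊤ : Subgroup H) (L + 1) ≤ vs e (⊤ : Subgroup H) L :=
          vs_antitone e _ (Nat.le_succ L)
        rw [h2] at h3
        exact le_bot_iff.1 h3
      have h2 := ih h1
      have h3 : ver e (vs e (⊤ : Subgroup H) L) ≠ vs e (⊤ : Subgroup H) L := ver_lt hB _ h1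
      have h4 : vs e (⊤ : Subgroup H) (L + 1) < vs e (⊤ : Subgroup H) L :=
        lt_of_le_of_ne (ver_le e _) h3
      have h5 : Nat.card (vs e (⊤ : Subgroup H) (L + 1)) ∣ Nat.card (vs e (⊤ : Subgroup H) L) :=
        Subgroup.card_dvd_of_le h4.le
      have h6 : Nat.card (vs e (⊤ : Subgroup H) (L + 1)) ≠ Nat.card (vs e (⊤ : Subgroup H) L) := by
        intro h7
        exact h4.ne (Subgroup.eq_of_le_of_card_ge h4.le h7.ge)
      obtain ⟨k, hk⟩ := h5
      have hpos : 0 < Nat.card (vs e (⊤ : Subgroup H) L) := Nat.card_pos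
      have hk2 : 2 ≤ k := by
        rcases Nat.lt_or_ge k 2 with h8 | h8
        · interval_cases k
          · omega
          · omega
        · exact h8
      calc 2 ^ (L + 1) * Nat.card (vs e (⊤ : Subgroup H) (L + 1))
          = 2 ^ L * (Nat.card (vs e (⊤ : Subgroup H) (L + 1)) * 2) := by rw [pow_succ]; ring
        _ ≤ 2 ^ L * (Nat.card (vs e (⊤ : Subgroup H) (L + 1)) * k) :=
            Nat.mul_le_mul_left _ (Nat.mul_le_mul_left _ hk2)
        _ = 2 ^ L * Nat.card (vs e (⊤ : Subgroup H) L) := by rw [← hk]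
        _ ≤ Nat.card H := h2
  have hex : ∃ L, vs e (⊤ : Subgroup H) L = ⊥ := by
    by_contra hcon
    push Not at hcon
    have h1 := claim (Nat.card H) (hcon _)
    have h2 : Nat.card H < 2 ^ Nat.card H := Nat.lt_two_pow_self
    have h3 : 0 < Nat.card (vs e (⊤ : Subgroup H) (Nat.card H)) := Nat.card_pos
    have h4 : 2 ^ Nat.card H ≤ 2 ^ Nat.card H * Nat.card (vs e (⊤ : Subgroup H) (Nat.card H)) :=
      Nat.le_mul_of_pos_right _ h3
    omega
  refine ⟨Nat.find hex, (Nat.find_spec hex).le, ?_⟩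
  rcases Nat.eq_zero_or_pos (Nat.find hex) with h0 | h0
  · rw [h0, pow_zero]
    exact Nat.card_pos
  · obtain ⟨k, hk⟩ : ∃ k, Nat.find hex = k + 1 := ⟨Nat.find hex - 1, by omega⟩
    have h1 : vs e (⊤ : Subgroup H) k ≠ ⊥ := Nat.find_min hex (by omega)
    have h2 := claim k h1
    have h3 : 2 ≤ Nat.card (vs e (⊤ : Subgroup H) k) := by
      have := (Subgroup.one_lt_card_iff_ne_bot _).2 h1
      omega
    rw [hk]
    calc 2 ^ (k + 1) = 2 ^ k * 2 := pow_succ _ _
      _ ≤ 2 ^ k * Nat.card (vs e (⊤ : Subgroup H) k) := Nat.mul_le_mul_left _ h3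
      _ ≤ Nat.card H := h2

theorem V2h {B N : ℕ} {G H : Type*} [Group G] [Group H] [Finite H] (f : G →* H) (hB : Bd B G)
    (hN : Nat.card f.range ≤ N) : VL (Nat.factorial B) N (⊤ : Subgroup G) f.ker := by
  have h1 : Bd B f.range := hB.surj f.rangeRestrict f.rangeRestrict_surjective
  have h2 := (V2 h1).mono hN
  have h3 := VL.comap f.rangeRestrict h2 (H := (⊤ : Subgroup G)) le_top
  have h4 : (⊥ : Subgroup f.range).comap f.rangeRestrict = f.ker := by
    rw [MonoidHom.comap_bot, MonoidHom.ker_rangeRestrict]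
  rwa [h4] at h3

end GT48
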