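import Mathlib
import Pool.Agent.LibGT48.Defs
import Pool.Agent.LibGT48.BD1
import Pool.Agent.LibGT48.V2

/-!
# LibGT48 M4a (MEDIUM, Defs + V2): action on the components

Q acts on the subtype ↥Ω (a type in universe u) by g • A = A.map (MulAut.conj g).toMonoidHom (h.conj); build the MulAction with letI. Its kernel (MulAction.toPermHom Q Ω).ker is base Ω. Nat.card ↥Ω = Ω.ncard. So hPL gives
VL (B !) (Ω.ncard ^ c) ⊤ (base Ω). Next for A in Ω: base Ω -> MulAut A (x acts by conjugation, because x normalises A): f_A; its kernel consists of the x in base Ω that centralise A. Nat.card A <= B (Bd.simple_le), and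
Nat.card (MulAut A) <= (Nat.card A)^(Nat.card A) <= B^B (injection into A -> A), so V2h (Bd.sub) gives VL (B !) (B^B) (⊤ : Subgroup (base Ω)) f_A.ker; push to Q (vs_map with (base Ω).subtype): VL (B !) (B^B) (base Ω) (centralizer A).
VL.iInf over A in Ω (1 <= B^B; Nat.one_le_pow fails for B = 0: 0^0 = 1, fine; or card A >= 1 gives B >= 1): VL (B^B) (base Ω) (⨅ A ∈ Ω, centralizer A), and ⨅ A ∈ Ω, centralizer (A : Set Q) <= centralizer (T : Set Q) because T = sSup Ω
(use le_centralizer_iff / closure). VL.trans, VL.mono_right.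
-/

namespace GT48

open Subgroup GP48

universe u

private lemma M4a_conj_one {Q : Type u} [Group Q] (A : Subgroup Q) :
    A.map (MulAut.conj (1 : Q)).toMonoidHom = A := by
  ext y
  simp [mem_map]

private lemma M4a_conj_mul {Q : Type u} [Group Q] (A : Subgroup Q) (x y : Q) :
    A.map (MulAut.conj (x * y)).toMonoidHom
      = (A.map (MulAut.conj y).toMonoidHom).map (MulAut.conj x).toMonoidHom := by
  have h1 : (MulAut.conj (x * y)).toMonoidHom
      = (MulAut.conj x).toMonoidHom.comp (MulAut.conj y).toMonoidHom := by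
    ext z
    simp [mul_assoc]
  rw [h1, ← map_map]

/-- the action on the components -/
private def M4a_act {Q : Type u} [Group Q] {T : Subgroup Q} {Ω : Set (Subgroup Q)}
    (h : CompSys T Ω) : MulAction Q ↥Ω where
  smul g A := ⟨A.1.map (MulAut.conj g).toMonoidHom, h.conj g A.1 A.2⟩
  one_smul A := Subtype.ext (M4a_conj_one A.1)
  mul_smul x y A := Subtype.ext (M4a_conj_mul A.1 x y)

private lemma M4a_base_le {Q : Type u} [Group Q] {Ω : Set (Subgroup Q)} {A : Subgroup Q}
    (hA : A ∈ Ω) : base Ω ≤ normalizer (A : Set Q) := by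
  intro x hx
  have h1 : A.map (MulAut.conj x).toMonoidHom = A := hx A hA
  rw [mem_normalizer_iff]
  intro y
  constructor
  · intro hy
    rw [← h1]
    exact ⟨y, hy, rfl⟩
  · intro hy
    rw [← h1] at hy
    obtain ⟨z, hz, hz2⟩ := hy
    have h3 : x * z * x⁻¹ = x * y * x⁻¹ := hz2
    have h4 : z = y := by
      have h5 := mul_right_cancel h3
      exact mul_left_cancel h5
    rw [← h4]
    exact hz

private lemma M4a_card {Q : Type u} [Group Q] [Finite Q] {B : ℕ} (A : Subgroup Q)
    (hA : Nat.card A ≤ B) : Nat.card (MulAut A) ≤ B ^ B := by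
  have h0 : 1 ≤ Nat.card A := Nat.card_pos
  have h1 : Nat.card (MulAut A) ≤ Nat.card (A → A) :=
    Nat.card_le_card_of_injective (fun f : MulAut A => (f : A → A)) (fun f g hfg => by
      ext x
      exact congrArg Subtype.val (congrFun hfg x))
  calc Nat.card (MulAut A) ≤ Nat.card (A → A) := h1
    _ = Nat.card A ^ Nat.card A := by rw [Nat.card_fun]
    _ ≤ B ^ Nat.card A := Nat.pow_le_pow_left hA _
    _ ≤ B ^ B := Nat.pow_le_pow_right (by omega) hA

private lemma M4a_one {B : ℕ} {Q : Type u} [Group Q] [Finite Q] (hB : Bd B Q) {T : Subgroup Q}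
    {Ω : Set (Subgroup Q)} (h : CompSys T Ω) {A : Subgroup Q} (hA : A ∈ Ω) :
    VL (Nat.factorial B) (B ^ B) (base Ω) (centralizer (A : Set Q)) := by
  classical
  have hcA : Nat.card A ≤ B := hB.simple_le A (h.simple A hA) (h.na A hA)
  let f : base Ω →* MulAut A := (normalizerMonoidHom A).comp (inclusion (M4a_base_le hA))
  have hfin : Finite (MulAut A) :=
    Finite.of_injective (fun f : MulAut A => (f : A → A)) (fun f g hfg => by
      ext x
      exact congrArg Subtype.val (congrFun hfg x))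
  have hN : Nat.card f.range ≤ B ^ B :=
    (Nat.card_le_card_of_injective f.range.subtype f.range.subtype_injective).trans
      (M4a_card A hcA)
  obtain ⟨L, h1, h2⟩ := V2h f (hB.sub (base Ω)) hN
  refine ⟨L, ?_, h2⟩
  have h3 : (vs (Nat.factorial B) (⊤ : Subgroup (base Ω)) L).map (base Ω).subtype
      = vs (Nat.factorial B) (base Ω) L := by
    rw [vs_map, ← MonoidHom.range_eq_map, range_subtype]
  rw [← h3, map_le_iff_le_comap]
  refine h1.trans ?_
  intro x hx
  rw [mem_comap, mem_centralizer_iff]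
  intro a ha
  have h4 : f x = 1 := hx
  have h5 := congrArg (fun g : MulAut A => ((g ⟨a, ha⟩ : A) : Q)) h4
  have h6 : (x : Q) * a * (x : Q)⁻¹ = a := h5
  show a * (x : Q) = (x : Q) * a
  calc a * (x : Q) = ((x : Q) * a * (x : Q)⁻¹) * x := by rw [h6]
    _ = (x : Q) * a := by group

theorem M4a (B c : ℕ) {Q : Type u} [Group Q] [Finite Q] (hB : Bd B Q) (T : Subgroup Q)
    (Ω : Set (Subgroup Q)) (h : CompSys T Ω) (hPL : PLs.{u} B c Ω.ncard) :
    VL (Nat.factorial B) (Ω.ncard ^ c * B ^ B) (⊤ : Subgroup Q) (centralizer (T : Set Q)) := by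
  classical
  letI := M4a_act h
  have h1 : VL (Nat.factorial B) (Ω.ncard ^ c) (⊤ : Subgroup Q)
      (MulAction.toPermHom Q ↥Ω).ker := hPL Q ↥Ω (Nat.card_coe_set_eq Ω) hB
  have h2 : (MulAction.toPermHom Q ↥Ω).ker ≤ base Ω := by
    intro x hx A hA
    have h3 : MulAction.toPermHom Q ↥Ω x = 1 := hx
    have h4 := congrArg (fun σ : Equiv.Perm ↥Ω => ((σ ⟨A, hA⟩ : ↥Ω) : Subgroup Q)) h3
    exact h4
  have hBpos : 1 ≤ B := by
    obtain ⟨A, hA⟩ := h.ne
    have := hB.simple_le A (h.simple A hA) (h.na A hA)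
    have h0 : 1 ≤ Nat.card A := Nat.card_pos
    omega
  have h3 : VL (Nat.factorial B) (B ^ B) (base Ω) (⨅ A : ↥Ω, centralizer ((A : Subgroup Q) : Set Q)) :=
    VL.iInf (Nat.one_le_pow _ _ hBpos) (fun A => M4a_one hB h A.2)
  refine (h1.mono_right h2).trans (h3.mono_right ?_)
  intro x hx
  rw [mem_iInf] at hx
  have h4 : T ≤ centralizer ({x} : Set Q) := by
    rw [← h.sup, sSup_le_iff]
    intro A hA a ha
    have h5 := hx ⟨A, hA⟩
    rw [mem_centralizer_iff] at h5
    rw [mem_centralizer_iff]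
    rintro y hy
    rw [Set.mem_singleton_iff] at hy
    subst hy
    exact (h5 a ha).symm
  rw [mem_centralizer_iff]
  intro t ht
  have h6 := h4 ht
  rw [mem_centralizer_iff] at h6
  exact (h6 x rfl).symm

end GT48
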