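import Mathlib
import Pool.Agent.LibGT48.Defs
import Pool.Agent.LibGT48.BD1
import Pool.Agent.LibGT48.M1
import Pool.Agent.LibGT48.M4a

/-!
# LibGT48 M4 (MEDIUM, Defs + M1 + M4a): groups without abelian normal subgroups

Let 𝒩 = {T : Subgroup Q // T.Normal ∧ T ≠ ⊥ ∧ ∀ Z normal, Z ≤ T → Z = ⊥ ∨ Z = T}. For T in 𝒩: T is not commutative (hna), so M1 gives Ω, and M4a with hr, hPL (1 <= Ω.ncard because Ω is nonempty and finite) gives VL (Ω.ncard^c * B^B) ⊤ (centralizer T),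
VL.mono to r0^c * B^B. VL.iInf (1 <= r0^c * B^B): VL ⊤ (⨅ T : 𝒩, centralizer T). K = ⨅ ... is normal (centralizer of a normal subgroup is normal). If K ≠ ⊥ take a minimal nontrivial normal subgroup T0 of Q inside K (finite group): T0 in 𝒩 and
T0 <= K <= centralizer T0, so T0 is commutative, so T0 = ⊥ by hna, contradiction. So K = ⊥.
-/

namespace GT48

open Subgroup GP48

universe u

theorem M4 (B c r0 : ℕ) (hr1 : 1 ≤ r0) {Q : Type u} [Group Q] [Finite Q] (hB : Bd B Q)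
    (hna : ∀ A : Subgroup Q, A.Normal → (∀ a ∈ A, ∀ b ∈ A, a * b = b * a) → A = ⊥)
    (hr : ∀ (T : Subgroup Q) (Ω : Set (Subgroup Q)), T.Normal → CompSys T Ω → Ω.ncard ≤ r0)
    (hPL : ∀ r, 1 ≤ r → r ≤ r0 → PLs.{u} B c r) :
    VL (Nat.factorial B) (r0 ^ c * B ^ B) (⊤ : Subgroup Q) ⊥ := by
  classical
  have hBB : 1 ≤ B ^ B := by
    rcases Nat.eq_zero_or_pos B with h | h
    · subst h
      simp
    · exact Nat.one_le_pow _ _ h
  have hN1 : 1 ≤ r0 ^ c * B ^ B := Nat.mul_pos (Nat.pow_pos hr1) hBB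
  have hT : ∀ T : {T : Subgroup Q // T.Normal ∧ T ≠ ⊥ ∧
      ∀ Z : Subgroup Q, Z.Normal → Z ≤ T → Z = ⊥ ∨ Z = T},
      VL (Nat.factorial B) (r0 ^ c * B ^ B) (⊤ : Subgroup Q)
        (centralizer ((T : Subgroup Q) : Set Q)) := by
    rintro ⟨T, hTn, hTne, hTmin⟩
    haveI := hTn
    have h1 : ∃ a ∈ T, ∃ b ∈ T, a * b ≠ b * a := by
      by_contra hcon
      push Not at hcon
      exact hTne (hna T hTn hcon)
    obtain ⟨Ω, hΩ⟩ := M1 T hTne hTmin h1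
    have h2 : 1 ≤ Ω.ncard := (Set.ncard_pos (Set.toFinite Ω)).2 hΩ.ne
    have h3 : Ω.ncard ≤ r0 := hr T Ω hTn hΩ
    exact (M4a B c hB T Ω hΩ (hPL _ h2 h3)).mono
      (Nat.mul_le_mul_right _ (Nat.pow_le_pow_left h3 c))
  refine (VL.iInf hN1 hT).mono_right ?_
  set K : Subgroup Q := ⨅ T : {T : Subgroup Q // T.Normal ∧ T ≠ ⊥ ∧
      ∀ Z : Subgroup Q, Z.Normal → Z ≤ T → Z = ⊥ ∨ Z = T},
      centralizer ((T : Subgroup Q) : Set Q) with hK
  have hKn : K.Normal := by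
    rw [hK]
    apply Subgroup.normal_iInf_normal
    intro T
    haveI := T.2.1
    infer_instance
  by_contra hne
  rw [le_bot_iff] at hne
  obtain ⟨T0, ⟨h1, h2, h3⟩, h4⟩ := (Set.toFinite
    {T : Subgroup Q | T.Normal ∧ T ≠ ⊥ ∧ T ≤ K}).exists_minimal ⟨K, hKn, hne, le_rfl⟩
  have h5 : ∀ Z : Subgroup Q, Z.Normal → Z ≤ T0 → Z = ⊥ ∨ Z = T0 := by
    intro Z hZ hZT
    by_cases hZb : Z = ⊥
    · exact Or.inl hZb
    · exact Or.inr (le_antisymm hZT (h4 ⟨hZ, hZb, hZT.trans h3⟩ hZT))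
  have h6 : K ≤ centralizer (T0 : Set Q) := iInf_le
    (fun T : {T : Subgroup Q // T.Normal ∧ T ≠ ⊥ ∧
      ∀ Z : Subgroup Q, Z.Normal → Z ≤ T → Z = ⊥ ∨ Z = T} =>
      centralizer ((T : Subgroup Q) : Set Q)) ⟨T0, h1, h2, h5⟩
  refine h2 (hna T0 h1 fun a ha b hb => ?_)
  have h7 := h6 (h3 hb)
  rw [mem_centralizer_iff] at h7
  exact h7 a ha

end GT48
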