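import Mathlib
import Pool.Agent.LibGT48.Defs
import Pool.Agent.LibGT48.BD1
import Pool.Agent.LibGT48.V2
import Pool.Agent.LibGT48.M2
import Pool.Agent.LibGT48.M4
import Pool.Agent.LibGT48.LN1
import Pool.Agent.LibGT48.LN2
import Pool.Agent.LibGT48.LN3
import Pool.Agent.LibGT48.LN4
import Pool.Agent.LibGP48.M1

/-!
# LibGT48 LN5 (MEDIUM, assembly and numbers): the linear bound

Let n = q^a, c = cc B = 2*(B*B) + 40. φ injective, so G is finite.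
Case n < 2^16: 2^a <= n so a <= 15; V2 (G finite): VL (Nat.card G) ⊤ ⊥, Nat.card G <= Nat.card (GLV q a) <= n^a <= n^15 =: N (LN1b; n >= 1), 2 * n^15 <= n^16 <= n^c (n >= 2 because a >= 1).
Case n >= 2^16: R from LN2; d = Nat.log 9 (a^5 * 9^5): 9^d <= a^5 * 9^5 < 9^(d+1); for 1 <= m <= a: LB m q d by (GP48.M1 m _).1 q _ d (m^5*9^5 <= a^5*9^5 < 9^(d+1)); LN3 gives ds R d <= φ.ker = ⊥; vs e R i <= ds R i
(ver_le_comm, induction), so VL (2^d) R ⊥. 8 <= 9: (2^d)^3 = 8^d <= 9^d <= (9a)^5 <= ((9a)^2)^3 so 2^d <= 81 a^2 <= n (from 2^a <= n, n >= 2^16: a <= log2 n; 81 a^2 <= 81 (log2 n)^2 <= n: for L = Nat.log 2 n >= 16: 81 L^2 <= 2^L, induction).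
Q = G ⧸ R (type u, finite, Bd by Bd.surj): M4 with r0 = Nat.sqrt n: hr: Ω.ncard = r: A in Ω, p prime ≠ q dividing card A (M2a), p^r divides card T (M2b), divides card Q, divides card G, divides card (GLV q a) = product (LN1a), so 2^r <= p^r <= n^3 (LN4),
r <= 3 log2 n, r^2 <= 9 (log2 n)^2 <= n, so r <= Nat.sqrt n. hPL: r <= sqrt n < n, ih. So VL (r0^c * B^B) ⊤ (⊥ : Subgroup (G ⧸ R)), VL.comap with mk' R: VL (r0^c*B^B) ⊤ R. VL.trans: N = r0^c * B^B * 2^d.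
2 N <= 2 * n^(c/2) * 2^(B*B) * n <= n^c: r0^c = (r0^2)^(c/2) <= n^(c/2) (c even), B^B <= 2^(B*B), and 2^(B*B+1) <= 2^(16*(c/2-1)) <= n^(c/2-1) (c/2 - 1 = B*B + 19).
-/

namespace GT48

open Subgroup GP48

universe u

private lemma ln5_num1 (L : ℕ) (hL : 16 ≤ L) : 81 * L ^ 2 ≤ 2 ^ L := by
  induction L, hL using Nat.le_induction with
  | base => norm_num
  | succ L hL ih =>
    have h1 : 81 * (L + 1) ^ 2 ≤ 2 * (81 * L ^ 2) := by nlinarith
    calc 81 * (L + 1) ^ 2 ≤ 2 * (81 * L ^ 2) := h1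
      _ ≤ 2 * 2 ^ L := Nat.mul_le_mul_left 2 ih
      _ = 2 ^ (L + 1) := by rw [pow_succ, mul_comm]

private lemma ln5_num2 (L : ℕ) (hL : 16 ≤ L) : (3 * L + 2) ^ 2 ≤ 2 ^ L := by
  induction L, hL using Nat.le_induction with
  | base => norm_num
  | succ L hL ih =>
    have h1 : (3 * (L + 1) + 2) ^ 2 ≤ 2 * (3 * L + 2) ^ 2 := by nlinarith
    calc (3 * (L + 1) + 2) ^ 2 ≤ 2 * (3 * L + 2) ^ 2 := h1
      _ ≤ 2 * 2 ^ L := Nat.mul_le_mul_left 2 ih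
      _ = 2 ^ (L + 1) := by rw [pow_succ, mul_comm]

private lemma ln5_vs_le_ds {G : Type*} [Group G] (e : ℕ) (R : Subgroup G) (i : ℕ) :
    vs e R i ≤ ds R i := by
  induction i with
  | zero => exact le_rfl
  | succ i ih =>
    rw [vs_succ, ds_succ]
    exact (ver_le_comm e _).trans (Subgroup.commutator_mono ih ih)

/-- the final numerical estimate -/
private lemma ln5_num3 (B n r0 D : ℕ) (hn : 2 ^ 16 ≤ n) (hr : r0 ^ 2 ≤ n) (hD : D ≤ n) :
    2 * (r0 ^ cc B * B ^ B * D) ≤ n ^ cc B := by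
  have hc : cc B = 2 * (B * B + 20) := by unfold cc; ring
  have h1 : r0 ^ cc B ≤ n ^ (B * B + 20) := by
    rw [hc, pow_mul]
    exact Nat.pow_le_pow_left hr _
  have h2 : B ^ B ≤ 2 ^ (B * B) := by
    calc B ^ B ≤ (2 ^ B) ^ B := Nat.pow_le_pow_left (Nat.lt_two_pow_self).le _
      _ = 2 ^ (B * B) := by rw [← pow_mul]
  have h3 : 2 * B ^ B ≤ n ^ (B * B + 19) := by
    calc 2 * B ^ B ≤ 2 * 2 ^ (B * B) := Nat.mul_le_mul_left 2 h2
      _ = 2 ^ (B * B + 1) := by rw [pow_succ, mul_comm]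
      _ ≤ 2 ^ (16 * (B * B + 19)) := Nat.pow_le_pow_right (by norm_num) (by nlinarith)
      _ = (2 ^ 16) ^ (B * B + 19) := by rw [← pow_mul]
      _ ≤ n ^ (B * B + 19) := Nat.pow_le_pow_left hn _
  calc 2 * (r0 ^ cc B * B ^ B * D) = r0 ^ cc B * (2 * B ^ B) * D := by ring
    _ ≤ n ^ (B * B + 20) * n ^ (B * B + 19) * n :=
        Nat.mul_le_mul (Nat.mul_le_mul h1 h3) hD
    _ = n ^ cc B := by
        rw [hc, ← pow_add, ← pow_succ]
        congr 1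
        ring

theorem LN5 (B : ℕ) {q a : ℕ} [Fact q.Prime] (ha : 1 ≤ a) {G : Type u} [Group G] (hB : Bd B G)
    (φ : G →* GLV q a) (hinj : Function.Injective φ) (hirr : Irr φ)
    (ih : ∀ r, 1 ≤ r → r < q ^ a → PLs.{u} B (cc B) r) :
    ∃ N, VL (Nat.factorial B) N (⊤ : Subgroup G) ⊥ ∧ 2 * N ≤ (q ^ a) ^ cc B := by
  have hq : q.Prime := Fact.out
  have hker : φ.ker = ⊥ := (MonoidHom.ker_eq_bot_iff φ).2 hinj
  obtain ⟨hGLfin, hGLcard⟩ := LN1a q a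
  have hGfin : Finite G := Finite.of_injective φ hinj
  have hGcard : Nat.card G ≤ Nat.card (GLV q a) := Nat.card_le_card_of_injective φ hinj
  have h2n : 2 ^ a ≤ q ^ a := Nat.pow_le_pow_left hq.two_le a
  have hn2 : 2 ≤ q ^ a := by
    calc 2 = 2 ^ 1 := (pow_one 2).symm
      _ ≤ 2 ^ a := Nat.pow_le_pow_right (by norm_num) ha
      _ ≤ q ^ a := h2n
  have hLN1b := LN1b q a
  obtain ⟨n, hn⟩ : ∃ n, n = q ^ a := ⟨_, rfl⟩
  rw [← hn] at h2n hn2 hLN1b ih ⊢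
  rcases Nat.lt_or_ge n (2 ^ 16) with hsmall | hbig
  · -- small case
    have ha15 : a ≤ 15 := by
      by_contra h
      have h1 : 2 ^ 16 ≤ 2 ^ a := Nat.pow_le_pow_right (by norm_num) (by omega)
      omega
    refine ⟨n ^ 15, (V2 hB).mono ?_, ?_⟩
    · calc Nat.card G ≤ n ^ a := hGcard.trans hLN1b
        _ ≤ n ^ 15 := Nat.pow_le_pow_right (by omega) ha15
    · calc 2 * n ^ 15 ≤ n * n ^ 15 := Nat.mul_le_mul_right _ hn2
        _ = n ^ 16 := by rw [← pow_succ']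
        _ ≤ n ^ cc B := Nat.pow_le_pow_right (by omega) (by unfold cc; omega)
  · -- large case
    obtain ⟨R, hRn, ⟨e, hRe⟩, hRna⟩ := LN2 G
    have ha0 : a ^ 5 * 9 ^ 5 ≠ 0 := by positivity
    obtain ⟨d, hd⟩ : ∃ d, d = Nat.log 9 (a ^ 5 * 9 ^ 5) := ⟨_, rfl⟩
    have hd1 : 9 ^ d ≤ a ^ 5 * 9 ^ 5 := by rw [hd]; exact Nat.pow_log_le_self 9 ha0
    have hd2 : a ^ 5 * 9 ^ 5 < 9 ^ (d + 1) := by
      rw [hd]; exact Nat.lt_pow_succ_log_self (by norm_num) _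
    have hLB : ∀ m, 1 ≤ m → m ≤ a → LB m q d := by
      intro m hm hma
      refine (GP48.M1 m hm).1 q hq d (lt_of_le_of_lt ?_ hd2)
      exact Nat.mul_le_mul_right _ (Nat.pow_le_pow_left hma 5)
    have hdsR : ds R d ≤ φ.ker := LN3 φ hirr R ⟨e, by rw [hRe]; exact bot_le⟩ hLB
    rw [hker] at hdsR
    have hVR : VL (Nat.factorial B) (2 ^ d) R ⊥ :=
      ⟨d, (ln5_vs_le_ds _ R d).trans hdsR, le_rfl⟩
    -- numbers
    obtain ⟨L, hL⟩ : ∃ L, L = Nat.log 2 n := ⟨_, rfl⟩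
    have hL16 : 16 ≤ L := by rw [hL]; exact Nat.le_log_of_pow_le (by norm_num) hbig
    have hLn : 2 ^ L ≤ n := by rw [hL]; exact Nat.pow_log_le_self 2 (by omega)
    have hnL : n < 2 ^ (L + 1) := by rw [hL]; exact Nat.lt_pow_succ_log_self (by norm_num) _
    have haL : a ≤ L := by rw [hL]; exact Nat.le_log_of_pow_le (by norm_num) h2n
    have hd3 : 2 ^ d ≤ 81 * a ^ 2 := by
      have h1 : (2 ^ d) ^ 3 ≤ (81 * a ^ 2) ^ 3 := by
        calc (2 ^ d) ^ 3 = 8 ^ d := by rw [← pow_mul, mul_comm d 3, pow_mul]; norm_num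
          _ ≤ 9 ^ d := Nat.pow_le_pow_left (by norm_num) d
          _ ≤ a ^ 5 * 9 ^ 5 := hd1
          _ ≤ a ^ 6 * 9 ^ 6 := Nat.mul_le_mul (Nat.pow_le_pow_right ha (by norm_num))
              (by norm_num)
          _ = (81 * a ^ 2) ^ 3 := by ring
      exact (Nat.pow_le_pow_iff_left (by norm_num)).1 h1
    have hDn : 2 ^ d ≤ n := by
      calc 2 ^ d ≤ 81 * a ^ 2 := hd3
        _ ≤ 81 * L ^ 2 := Nat.mul_le_mul_left _ (Nat.pow_le_pow_left haL 2)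
        _ ≤ 2 ^ L := ln5_num1 L hL16
        _ ≤ n := hLn
    have hsq : (Nat.sqrt n) ^ 2 ≤ n := Nat.sqrt_le' n
    have hsq1 : 1 ≤ Nat.sqrt n := by
      rw [Nat.le_sqrt']; omega
    have hsqlt : Nat.sqrt n < n := Nat.sqrt_lt_self (by omega)
    -- the quotient
    have hQB : Bd B (G ⧸ R) := hB.surj (QuotientGroup.mk' R) (QuotientGroup.mk'_surjective R)
    have hQfin : Finite (G ⧸ R) := inferInstance
    have hr : ∀ (T : Subgroup (G ⧸ R)) (Ω : Set (Subgroup (G ⧸ R))), T.Normal → CompSys T Ω →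
        Ω.ncard ≤ Nat.sqrt n := by
      intro T Ω _ hCS
      obtain ⟨A, hA⟩ := hCS.ne
      have hAs := hCS.simple A hA
      obtain ⟨x, hx, y, hy, hxy⟩ := hCS.na A hA
      have hAna : ∃ u v : A, u * v ≠ v * u :=
        ⟨⟨x, hx⟩, ⟨y, hy⟩, fun h => hxy (congrArg Subtype.val h)⟩
      obtain ⟨p, hp, hpq, hpA⟩ := M2a hAs hAna q hq
      have h1 : p ^ Ω.ncard ∣ Nat.card T := M2b hCS hA hpA
      have h2 : Nat.card T ∣ Nat.card (G ⧸ R) := Subgroup.card_subgroup_dvd_card T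
      have h3 : Nat.card (G ⧸ R) ∣ Nat.card G := Subgroup.card_quotient_dvd_card R
      have h4 : Nat.card G ∣ Nat.card (GLV q a) := Subgroup.card_dvd_of_injective φ hinj
      have h5 : p ^ Ω.ncard ∣ ∏ i ∈ Finset.range a, (q ^ a - q ^ i) := by
        rw [← hGLcard]
        exact ((h1.trans h2).trans h3).trans h4
      have h6 := LN4 q a p Ω.ncard hq hp hpq h5
      rw [← hn] at h6
      have h7 : 2 ^ Ω.ncard < 2 ^ ((L + 1) * 3) := by
        calc 2 ^ Ω.ncard ≤ p ^ Ω.ncard := Nat.pow_le_pow_left hp.two_le _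
          _ ≤ n ^ 3 := h6
          _ < (2 ^ (L + 1)) ^ 3 := Nat.pow_lt_pow_left hnL (by norm_num)
          _ = 2 ^ ((L + 1) * 3) := by rw [← pow_mul]
      have h8 : Ω.ncard < (L + 1) * 3 := (Nat.pow_lt_pow_iff_right (by norm_num)).1 h7
      rw [Nat.le_sqrt']
      calc Ω.ncard ^ 2 ≤ (3 * L + 2) ^ 2 := Nat.pow_le_pow_left (by omega) 2
        _ ≤ 2 ^ L := ln5_num2 L hL16
        _ ≤ n := hLn
    have hPL : ∀ r, 1 ≤ r → r ≤ Nat.sqrt n → PLs.{u} B (cc B) r := fun r h1 h2 =>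
      ih r h1 (lt_of_le_of_lt h2 hsqlt)
    have hM4 := M4 B (cc B) (Nat.sqrt n) hsq1 hQB hRna hr hPL
    have h9 : VL (Nat.factorial B) (Nat.sqrt n ^ cc B * B ^ B) (⊤ : Subgroup G) R := by
      have h10 := VL.comap (QuotientGroup.mk' R) hM4 (H := (⊤ : Subgroup G)) le_top
      rw [MonoidHom.comap_bot, QuotientGroup.ker_mk'] at h10
      exact h10
    exact ⟨_, h9.trans hVR, ln5_num3 B n (Nat.sqrt n) (2 ^ d) hbig hsq hDn⟩

end GT48
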