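import Mathlib
import Pool.Agent.LibGT48.Defs
import Pool.Agent.LibGT48.BD1
import Pool.Agent.LibGT48.M2
import Pool.Agent.LibGT48.M4

/-!
# LibGT48 PC: permutation groups without abelian normal subgroups
-/

namespace GT48

open Subgroup GP48

universe u

theorem PC (B : ℕ) {Q : Type u} [Group Q] [Finite Q] (hB : Bd B Q) {X : Type u} [MulAction Q X]
    [FaithfulSMul Q X] [Finite X] (h2 : 2 ≤ Nat.card X)
    (hna : ∀ A : Subgroup Q, A.Normal → (∀ a ∈ A, ∀ b ∈ A, a * b = b * a) → A = ⊥)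
    (ih : ∀ r, 1 ≤ r → r < Nat.card X → PLs.{u} B (cc B) r) :
    VL (Nat.factorial B) (Nat.card X ^ cc B) (⊤ : Subgroup Q) ⊥ := by
  have hr1 : 1 ≤ Nat.card X / 2 := by omega
  have hr : ∀ (T : Subgroup Q) (Ω : Set (Subgroup Q)), T.Normal → CompSys T Ω →
      Ω.ncard ≤ Nat.card X / 2 := by
    intro T Ω _ h
    obtain ⟨A, hA⟩ := h.ne
    have hS : IsSimpleGroup A := h.simple A hA
    obtain ⟨a, ha, b, hb, hab⟩ := h.na A hA
    have hn : ∃ a b : A, a * b ≠ b * a :=
      ⟨⟨a, ha⟩, ⟨b, hb⟩, fun h1 => hab (congrArg Subtype.val h1)⟩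
    obtain ⟨p, hp, hp2, hpA⟩ := M2a hS hn 2 Nat.prime_two
    have h1 : p ^ Ω.ncard ∣ Nat.card T := M2b h hA hpA
    have h3 : Nat.card T ∣ Nat.card Q := Subgroup.card_subgroup_dvd_card T
    have h4 : Nat.card Q ∣ Nat.card (Equiv.Perm X) :=
      Subgroup.card_dvd_of_injective (MulAction.toPermHom Q X) MulAction.toPerm_injective
    rw [Nat.card_perm] at h4
    have h5 : p ^ Ω.ncard ∣ (Nat.card X).factorial := (h1.trans h3).trans h4
    haveI : Fact p.Prime := ⟨hp⟩
    have h6 : Ω.ncard ≤ padicValNat p (Nat.card X).factorial :=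
      (padicValNat_dvd_iff_le (Nat.factorial_ne_zero _)).1 h5
    have h7 : (p - 1) * padicValNat p (Nat.card X).factorial < Nat.card X :=
      sub_one_mul_padicValNat_factorial_lt_of_ne_zero p (by omega)
    have h8 : 2 ≤ p - 1 := by
      have := hp.two_le
      omega
    have h9 : 2 * padicValNat p (Nat.card X).factorial ≤
        (p - 1) * padicValNat p (Nat.card X).factorial := Nat.mul_le_mul_right _ h8
    omega
  have hPL : ∀ r, 1 ≤ r → r ≤ Nat.card X / 2 → PLs.{u} B (cc B) r :=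
    fun r h3 h4 => ih r h3 (by omega)
  refine (M4 B (cc B) (Nat.card X / 2) hr1 hB hna hr hPL).mono ?_
  have h3 : B ^ B ≤ 2 ^ cc B := by
    calc B ^ B ≤ (2 ^ B) ^ B := Nat.pow_le_pow_left (Nat.lt_two_pow_self (n := B)).le B
      _ = 2 ^ (B * B) := by rw [← pow_mul]
      _ ≤ 2 ^ cc B := Nat.pow_le_pow_right (by norm_num) (by unfold cc; omega)
  calc (Nat.card X / 2) ^ cc B * B ^ B ≤ (Nat.card X / 2) ^ cc B * 2 ^ cc B :=
        Nat.mul_le_mul_left _ h3
    _ = (Nat.card X / 2 * 2) ^ cc B := by rw [mul_pow]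
    _ ≤ Nat.card X ^ cc B := Nat.pow_le_pow_left (by omega) _

end GT48
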