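import Mathlib
import Pool.Agent.LibGT48.Defs
import Pool.Agent.LibGP48.D3x

/-!
# LibGT48 PD (MEDIUM/STRONG, Defs + GP48.D3x): primitive groups with an abelian normal subgroup

Take a minimal nontrivial normal subgroup N <= A (finite group). Then GP48.Chief ⊥ N (ab: N commutative; fin: relIndex ⊥ N = Nat.card N ≠ 0). D3x gives r (prime), s, ψ : Q ->* GLV r s, relIndex = r^s so Nat.card N = r^s, Irr ψ,
g in ψ.ker iff g x g⁻¹ x⁻¹ in ⊥ for all x in N, i.e. g centralises N. N is transitive on X (preprimitive and faithful: hp.toIsQuasiPreprimitive, pretransitive_of_fixedPoints_ne_top or MulAction.IsPreprimitive... for a normal subgroup that is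
not trivial; N nontrivial, action faithful, so fixedPoints ≠ ⊤). N abelian and transitive and faithful: the stabiliser in N of a point is trivial (it fixes all points, by commutativity and transitivity), so Nat.card N = Nat.card X (orbit-stabiliser).
ψ.ker = N: if c centralises N, choose x0 and n in N with n • x0 = c • x0; n⁻¹ c fixes x0 and commutes with N, so fixes all points, so = 1. So ⁅ker, ker⁆ = ⊥. (See LibGP48.P2 for a proof of the same facts in the soluble case.)
-/

namespace GT48

open Subgroup GP48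

universe u

theorem PD {Q X : Type*} [Group Q] [Finite Q] [MulAction Q X] [FaithfulSMul Q X] [Finite X]
    (hp : MulAction.IsPreprimitive Q X) (h2 : 2 ≤ Nat.card X) (A : Subgroup Q) [A.Normal]
    (hA : ∀ a ∈ A, ∀ b ∈ A, a * b = b * a) (hne : A ≠ ⊥) :
    ∃ (q a : ℕ) (_ : Fact q.Prime) (φ : Q →* GLV q a), 1 ≤ a ∧ q ^ a = Nat.card X ∧ Irr φ ∧
      ⁅φ.ker, φ.ker⁆ = ⊥ := by
  have faith : ∀ g : Q, (∀ w : X, g • w = w) → g = 1 := by
    intro g hg
    refine FaithfulSMul.eq_of_smul_eq_smul (α := X) fun w => ?_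
    rw [hg w, one_smul]
  have hne' : Nonempty X := by
    have : 0 < Nat.card X := by omega
    exact (Nat.card_pos_iff.1 this).1
  obtain ⟨w0⟩ := hne'
  -- a minimal normal subgroup
  obtain ⟨M, hMA, hMin⟩ : ∃ M : Subgroup Q, M ≤ A ∧
      Minimal (fun N : Subgroup Q => N.Normal ∧ N ≠ ⊥) M := by
    have hfin : {N : Subgroup Q | N.Normal ∧ N ≠ ⊥}.Finite := Set.toFinite _
    obtain ⟨M, h1, h2⟩ := hfin.exists_le_minimal (a := A) ⟨inferInstance, hne⟩
    exact ⟨M, h1, h2⟩
  obtain ⟨⟨hMn, hM0⟩, hMmin⟩ := hMin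
  have hmin : ∀ Z : Subgroup Q, Z.Normal → Z ≤ M → Z = ⊥ ∨ Z = M := by
    intro Z hZ hZM
    by_cases h0 : Z = ⊥
    · exact Or.inl h0
    · exact Or.inr (le_antisymm hZM (hMmin ⟨hZ, h0⟩ hZM))
  have hcomm : ∀ a ∈ M, ∀ b ∈ M, a * b = b * a := fun a ha b hb => hA a (hMA ha) b (hMA hb)
  have hMM : ⁅M, M⁆ = ⊥ := by
    rw [Subgroup.commutator_eq_bot_iff_le_centralizer]
    intro a ha
    rw [Subgroup.mem_centralizer_iff]
    intro b hb
    exact hcomm b hb a ha
  have hch : Chief (⊥ : Subgroup Q) M :=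
    { nY := inferInstance
      nX := hMn
      lt := bot_lt_iff_ne_bot.mpr hM0
      ab := hMM.le
      fin := by
        rw [relIndex_bot_left]
        exact Nat.card_pos.ne'
      min := fun Z hZ _ hZM => hmin Z hZ hZM }
  obtain ⟨r, s, hr, ψ, hs, hcard, _, hirr, hker⟩ := D3x hch
  rw [relIndex_bot_left] at hcard
  have hMt : MulAction.IsPretransitive M X := by
    have hq : MulAction.IsQuasiPreprimitive Q X := hp.isQuasiPreprimitive
    refine hq.isPretransitive_of_normal ?_
    intro h
    apply hM0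
    rw [eq_bot_iff]
    intro m hm
    rw [Subgroup.mem_bot]
    refine faith m fun w => ?_
    have h1 : w ∈ MulAction.fixedPoints M X := by rw [h]; trivial
    exact h1 ⟨m, hm⟩
  have hfix : ∀ z : Q, (∀ m ∈ M, z * m = m * z) → z • w0 = w0 → z = 1 := by
    intro z hz hz0
    refine faith z fun w => ?_
    obtain ⟨n, hn⟩ := MulAction.exists_smul_eq M w0 w
    have hn' : (n : Q) • w0 = w := hn
    rw [← hn', ← mul_smul, hz n n.2, mul_smul, hz0]
  have hbij : Function.Bijective (fun m : M => m • w0) := by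
    constructor
    · intro m m' h
      have h1 : (m : Q) • w0 = (m' : Q) • w0 := h
      have h2 : (m : Q)⁻¹ * (m' : Q) = 1 := by
        refine hfix _ ?_ ?_
        · intro n hn
          exact hcomm _ (M.mul_mem (M.inv_mem m.2) m'.2) n hn
        · rw [mul_smul, ← h1, inv_smul_smul]
      exact Subtype.ext (inv_mul_eq_one.mp h2)
    · intro w
      exact MulAction.exists_smul_eq M w0 w
  refine ⟨r, s, hr, ψ, hs, ?_, hirr, ?_⟩
  · rw [← hcard, Nat.card_congr (Equiv.ofBijective _ hbij)]
  · have hkM : ψ.ker ≤ M := by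
      intro z hz
      have h1 := (hker z).1 hz
      have hzc : ∀ m ∈ M, z * m = m * z := by
        intro m hm
        have h2 := h1 m hm
        rw [Subgroup.mem_bot] at h2
        calc z * m = (z * m * z⁻¹ * m⁻¹) * (m * z) := by group
          _ = m * z := by rw [h2, one_mul]
      obtain ⟨m, hm⟩ := MulAction.exists_smul_eq M w0 (z • w0)
      have hm' : (m : Q) • w0 = z • w0 := hm
      have h5 : z⁻¹ * (m : Q) = 1 := by
        refine hfix _ ?_ ?_
        · intro n hn
          have h6 := hcomm m m.2 n hn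
          have h7 := hzc n hn
          calc z⁻¹ * (m : Q) * n = z⁻¹ * (n * m) := by rw [mul_assoc, h6]
            _ = z⁻¹ * (n * z) * (z⁻¹ * m) := by group
            _ = z⁻¹ * (z * n) * (z⁻¹ * m) := by rw [h7]
            _ = n * (z⁻¹ * m) := by group
        · rw [mul_smul, hm', inv_smul_smul]
      have h6 : z = m := inv_mul_eq_one.mp h5
      rw [h6]
      exact m.2
    rw [eq_bot_iff, ← hMM]
    exact Subgroup.commutator_mono hkM hkM

end GT48
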