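import Mathlib
import Pool.Agent.LibGT48.Defs
import Pool.Agent.LibGT48.BD1

/-!
# LibGT48 PLA (SHORT/MEDIUM, only Defs): not transitive

For every orbit O of G on X (a subtype of X: (MulAction.orbit G x : Set X), G acts on it) Nat.card O < k: otherwise O is all of X and G is transitive. 1 <= Nat.card O. ih gives VL (card O ^ c) ⊤ ker_O, VL.mono to k^c. VL.iInf over x : X (1 <= k^c) and
⨅ x, ker_(orbit x) <= ker of the action on X (an element fixing all points of all orbits fixes all points). VL.mono_right.
-/

namespace GT48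

open Subgroup GP48

universe u

theorem PLA (B c k : ℕ) (hk : 1 ≤ k) (ih : ∀ r, 1 ≤ r → r < k → PLs.{u} B c r) {G : Type u}
    [Group G] (hB : Bd B G) {X : Type u} [MulAction G X] [Finite X] (hX : Nat.card X = k)
    (hnt : ¬ MulAction.IsPretransitive G X) :
    VL (Nat.factorial B) (k ^ c) (⊤ : Subgroup G) (MulAction.toPermHom G X).ker := by
  have hk1 : 1 ≤ k ^ c := Nat.one_le_pow _ _ hk
  have horb : ∀ x : X, VL (Nat.factorial B) (k ^ c) (⊤ : Subgroup G)
      (MulAction.toPermHom G (MulAction.orbit G x)).ker := by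
    intro x
    have h1 : 1 ≤ Nat.card (MulAction.orbit G x) := by
      have : Nonempty (MulAction.orbit G x) := ⟨⟨x, MulAction.mem_orbit_self x⟩⟩
      exact Nat.card_pos
    have h2 : Nat.card (MulAction.orbit G x) < k := by
      by_contra hge
      apply hnt
      have h3 : MulAction.orbit G x = Set.univ := by
        apply Set.eq_of_subset_of_ncard_le (Set.subset_univ _)
        rw [Set.ncard_univ, hX, ← Nat.card_coe_set_eq]
        omega
      constructor
      intro a b
      have ha : a ∈ MulAction.orbit G x := by rw [h3]; exact Set.mem_univ _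
      have hb : b ∈ MulAction.orbit G x := by rw [h3]; exact Set.mem_univ _
      obtain ⟨g, rfl⟩ := ha
      obtain ⟨g', rfl⟩ := hb
      refine ⟨g' * g⁻¹, ?_⟩
      show (g' * g⁻¹) • (g • x) = g' • x
      rw [mul_smul, inv_smul_smul]
    exact (ih _ h1 h2 G (MulAction.orbit G x) rfl hB).mono (Nat.pow_le_pow_left h2.le c)
  refine (VL.iInf hk1 horb).mono_right ?_
  intro g hg
  rw [MonoidHom.mem_ker]
  ext x
  have h1 := (Subgroup.mem_iInf.1 hg) x
  rw [MonoidHom.mem_ker] at h1
  have h2 := congrArg (fun f : Equiv.Perm (MulAction.orbit G x) =>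
    ((f ⟨x, MulAction.mem_orbit_self x⟩ : MulAction.orbit G x) : X)) h1
  exact h2

end GT48
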