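import Mathlib
import Pool.Agent.LibGT48.Defs
import Pool.Agent.LibGT48.BD1

/-!
# LibGT48 PLB (MEDIUM, only Defs): transitive and imprimitive

Not preprimitive: there is a block D ⊆ X (MulAction.IsBlock G D), nonempty, not a subsingleton, D ≠ univ. b = Set.ncard D: 1 < b < k. Let St = stabilizer G D (set stabiliser), Y = G ⧸ St (type u): m = Nat.card Y = number of translates of D, m * b = k
(MulAction.IsBlock.ncard_block_mul_ncard_orbit_eq or the translates partition X), m < k, 1 <= m. ih for Y: VL (m^c) ⊤ K1 with K1 = kernel of G on Y = {g : g fixes every translate h • D}. For h : G: K1 acts on the translate h • D (a subtype of X: type u):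
MulAction K1 ↥(h • D); card = b; Bd B K1; ih (r = b): VL (b^c) (⊤ : Subgroup K1) ker_h. VL.iInf over h : G, the intersection of the ker_h maps into the kernel on X (the translates cover X by transitivity). Push to G by vs_map with K1.subtype:
VL (b^c) K1 (kernel on X). VL.trans, m^c * b^c = k^c. (See LibGP48.P1 for the same argument for soluble groups.)
-/

namespace GT48

open Subgroup GP48

universe u

open Pointwise in
theorem PLB (B c k : ℕ) (ih : ∀ r, 1 ≤ r → r < k → PLs.{u} B c r) {G : Type u}
    [Group G] (hB : Bd B G) {X : Type u} [MulAction G X] [Finite X] (hX : Nat.card X = k)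
    (hk : 1 ≤ k) (ht : MulAction.IsPretransitive G X) (hnp : ¬ MulAction.IsPreprimitive G X) :
    VL (Nat.factorial B) (k ^ c) (⊤ : Subgroup G) (MulAction.toPermHom G X).ker := by
  obtain ⟨D, hD, hDt⟩ : ∃ D : Set X, MulAction.IsBlock G D ∧ ¬ MulAction.IsTrivialBlock D := by
    by_contra hcon
    exact hnp ⟨fun {D} hD => by
      by_contra h
      exact hcon ⟨D, hD, h⟩⟩
  have hDs : ¬ D.Subsingleton := fun h => hDt (Or.inl h)
  have hDu : D ≠ Set.univ := fun h => hDt (Or.inr h)
  have hDne : D.Nonempty := by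
    rw [Set.nonempty_iff_ne_empty]
    rintro rfl
    exact hDs Set.subsingleton_empty
  have hb1 : 1 < D.ncard := by
    rw [Set.one_lt_ncard_iff_nontrivial]
    exact Set.not_subsingleton_iff.mp hDs
  have hbt : D.ncard < k := by
    have h1 := Set.ncard_lt_ncard (Set.ssubset_univ_iff.mpr hDu) Set.finite_univ
    rwa [Set.ncard_univ, hX] at h1
  have hmul := MulAction.IsBlock.ncard_block_mul_ncard_orbit_eq hD hDne
  rw [hX] at hmul
  obtain ⟨m, hm⟩ : ∃ m, m = (MulAction.orbit G D).ncard := ⟨_, rfl⟩
  rw [← hm] at hmul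
  have hm1 : 1 ≤ m := by
    rcases Nat.eq_zero_or_pos m with h | h
    · rw [h, Nat.mul_zero] at hmul
      omega
    · exact h
  have hmk : m < k := by
    rw [← hmul]
    have := Nat.mul_lt_mul_of_pos_right hb1 hm1
    omega
  -- the action on the translates
  have : Finite (MulAction.orbit G D) := Subtype.finite
  have hcY : Nat.card (MulAction.orbit G D) = m := hm.symm
  have k1 := ih m hm1 hmk G (MulAction.orbit G D) hcY hB
  obtain ⟨K1, hK1⟩ : ∃ K1 : Subgroup G, K1 = (MulAction.toPermHom G (MulAction.orbit G D)).ker :=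
    ⟨_, rfl⟩
  rw [← hK1] at k1
  have hfix : ∀ g ∈ K1, ∀ h : G, g • (h • D) = h • D := by
    intro g hg h
    rw [hK1, MonoidHom.mem_ker] at hg
    have h1 := congrArg (fun σ : Equiv.Perm (MulAction.orbit G D) => σ ⟨h • D, ⟨h, rfl⟩⟩) hg
    exact congrArg Subtype.val h1
  -- the action on one translate
  have k2 : ∀ h : G, VL (Nat.factorial B) (D.ncard ^ c) K1
      ({ carrier := {g | ∀ w ∈ h • D, g • w = w}
         one_mem' := fun w _ => one_smul G w
         mul_mem' := fun {a b} ha hb w hw => by rw [mul_smul, hb w hw, ha w hw]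
         inv_mem' := fun {a} ha w hw => by
          rw [inv_smul_eq_iff]
          exact (ha w hw).symm } : Subgroup G) := by
    intro h
    have hH : ∀ x : K1, ∀ w ∈ h • D, (x : G) • w ∈ h • D := by
      intro x w hw
      have h5 : (x : G) • w ∈ (x : G) • (h • D) := Set.smul_mem_smul_set hw
      rwa [hfix _ x.2 h] at h5
    let act : MulAction K1 (h • D : Set X) :=
      { smul := fun x w => ⟨(x : G) • w.1, hH x _ w.2⟩
        one_smul := fun w => Subtype.ext (one_smul G w.1)
        mul_smul := fun x x' w => Subtype.ext (mul_smul (x : G) (x' : G) w.1) }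
    have : Finite (h • D : Set X) := Subtype.finite
    have hcard : Nat.card (h • D : Set X) = D.ncard := by
      rw [← Set.ncard_smul_set h D]
      rfl
    obtain ⟨L, h1, h2⟩ := ih D.ncard hb1.le hbt K1 (h • D : Set X) hcard (hB.sub K1)
    refine ⟨L, ?_, h2⟩
    have h3 : (vs (Nat.factorial B) (⊤ : Subgroup K1) L).map K1.subtype
        = vs (Nat.factorial B) K1 L := by
      rw [vs_map, ← MonoidHom.range_eq_map, Subgroup.range_subtype]
    rw [← h3]
    rintro _ ⟨x, hx, rfl⟩
    intro w hw
    have h4 := h1 hx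
    rw [MonoidHom.mem_ker] at h4
    have h5 := congrArg (fun σ : Equiv.Perm (h • D : Set X) => σ ⟨w, hw⟩) h4
    exact congrArg Subtype.val h5
  have k3 := VL.iInf (Nat.one_le_pow _ _ (by omega)) k2
  have k4 := k1.trans k3
  rw [← Nat.mul_pow, Nat.mul_comm m, hmul] at k4
  refine k4.mono_right ?_
  intro g hg
  rw [Subgroup.mem_iInf] at hg
  rw [MonoidHom.mem_ker]
  apply Equiv.ext
  intro w
  obtain ⟨w0, hw0⟩ := hDne
  obtain ⟨γ, hγ⟩ := MulAction.exists_smul_eq G w0 w
  exact hg γ w ⟨w0, hw0, hγ⟩

end GT48
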