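import Mathlib
import Pool.Agent.LibGT48.Defs
import Pool.Agent.LibGT48.BD1
import Pool.Agent.LibGT48.PLA
import Pool.Agent.LibGT48.PLB
import Pool.Agent.LibGT48.PC
import Pool.Agent.LibGT48.PD
import Pool.Agent.LibGT48.LN5

/-!
# LibGT48 PL (MEDIUM, assembly): the permutation bound

Strong induction on k. k = 1: X has one element, the kernel is ⊤: L = 0, 2^0 <= 1. k >= 2: if G is not pretransitive: PLA; if pretransitive and not preprimitive: PLB. If preprimitive: Q = (MulAction.toPermHom G X).range : Subgroup (Equiv.Perm X), a type in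
universe u; finite; acts on X faithfully, preprimitive (same orbits and blocks; MulAction.IsPreprimitive.of_surjective or isPreprimitive_congr, or directly); Bd B Q by Bd.surj (rangeRestrict). It suffices to show VL (k^c) (⊤ : Subgroup Q) ⊥ and then VL.comap along rangeRestrict.
If every commutative normal subgroup of Q is ⊥: PC. Otherwise A: PD gives q, a, φ : Q -> GLV q a, q^a = k, Irr φ, ker φ abelian. G' = Q ⧸ φ.ker (type u), φ' = QuotientGroup.kerLift φ injective, Irr φ' (same operators), Bd B G' (Bd.surj), LN5: VL N ⊤ ⊥ for G', 2N <= k^c.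
VL.comap along mk': VL N ⊤ φ.ker; VL.of_comm: VL 2 φ.ker ⊥; VL.trans: N * 2 <= k^c.
-/

namespace GT48

open Subgroup GP48

universe u

private theorem PL_key (B : ℕ) {Q : Type u} [Group Q] [Finite Q] (hB : Bd B Q) {X : Type u}
    [MulAction Q X] [FaithfulSMul Q X] [Finite X] (h2 : 2 ≤ Nat.card X)
    (hp : MulAction.IsPreprimitive Q X)
    (ih : ∀ r, 1 ≤ r → r < Nat.card X → PLs.{u} B (cc B) r) :
    VL (Nat.factorial B) (Nat.card X ^ cc B) (⊤ : Subgroup Q) ⊥ := by
  by_cases hna : ∀ A : Subgroup Q, A.Normal → (∀ a ∈ A, ∀ b ∈ A, a * b = b * a) → A = ⊥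
  · exact PC B hB h2 hna ih
  · push Not at hna
    obtain ⟨A, hA, hcomm, hne⟩ := hna
    obtain ⟨q, a, hq, φ, ha, hqa, hirr, hker⟩ := PD hp h2 A hcomm hne
    have hB' : Bd B (Q ⧸ φ.ker) := hB.surj (QuotientGroup.mk' φ.ker) (QuotientGroup.mk'_surjective _)
    have hirr' : Irr (QuotientGroup.kerLift φ) := by
      refine ⟨hirr.1, fun W hW => hirr.2 W fun g w hw => ?_⟩
      have h1 := hW (QuotientGroup.mk g) w hw
      rwa [QuotientGroup.kerLift_mk] at h1
    obtain ⟨N, hN, hN2⟩ := LN5 B ha hB' (QuotientGroup.kerLift φ) (QuotientGroup.kerLift_injective φ)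
      hirr' (by rw [hqa]; exact ih)
    have h3 : VL (Nat.factorial B) N (⊤ : Subgroup Q) φ.ker := by
      have h4 := hN.comap (QuotientGroup.mk' φ.ker) (H := ⊤) le_top
      refine h4.mono_right ?_
      intro x hx
      have h5 : (QuotientGroup.mk' φ.ker) x = 1 := hx
      rwa [← MonoidHom.mem_ker, QuotientGroup.ker_mk'] at h5
    have h4 : VL (Nat.factorial B) 2 φ.ker ⊥ := VL.of_comm hker.le
    refine (h3.trans h4).mono ?_
    rw [hqa] at hN2
    omega

theorem PL (B : ℕ) : ∀ k, 1 ≤ k → PLs.{u} B (cc B) k := by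
  intro k
  induction k using Nat.strong_induction_on with
  | _ k ih =>
    intro hk G _ X _ _ hX hB
    have ih' : ∀ r, 1 ≤ r → r < k → PLs.{u} B (cc B) r := fun r h1 h2 => ih r h2 h1
    by_cases h1 : k = 1
    · subst h1
      have hs : Subsingleton X := (Nat.card_eq_one_iff_unique.1 hX).1
      refine ⟨0, ?_, by simp⟩
      intro g _
      rw [MonoidHom.mem_ker]
      ext x
      exact Subsingleton.elim _ _
    have h2 : 2 ≤ k := by omega
    by_cases ht : MulAction.IsPretransitive G X
    swap
    · exact PLA B (cc B) k hk ih' hB hX ht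
    by_cases hp : MulAction.IsPreprimitive G X
    swap
    · exact PLB B (cc B) k ih' hB hX hk ht hp
    have hBQ : Bd B (MulAction.toPermHom G X).range :=
      hB.surj (MulAction.toPermHom G X).rangeRestrict (MonoidHom.rangeRestrict_surjective _)
    let g : X →ₑ[(MulAction.toPermHom G X).rangeRestrict] X :=
      { toFun := id
        map_smul' := fun m x => rfl }
    have hpQ : MulAction.IsPreprimitive (MulAction.toPermHom G X).range X :=
      MulAction.IsPreprimitive.of_surjective (f := g) Function.surjective_id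
    have key := PL_key B hBQ (X := X) (by rw [hX]; exact h2) hpQ (by rw [hX]; exact ih')
    rw [hX] at key
    have h3 := key.comap (MulAction.toPermHom G X).rangeRestrict (H := ⊤) le_top
    refine h3.mono_right ?_
    intro x hx
    have h5 : (MulAction.toPermHom G X).rangeRestrict x = 1 := hx
    rwa [← MonoidHom.mem_ker, MonoidHom.ker_rangeRestrict] at h5

end GT48
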