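import Mathlib
import Pool.Agent.LibGT48.Defs
import Pool.Agent.LibGT48.A7
import Pool.Agent.LibGT48.FR
import Pool.Agent.LibGT48.C1
import Pool.Agent.LibGT48.C2
import Pool.Agent.LibGT48.C3
import Pool.Agent.LibGT48.NU1
import Pool.Agent.LibGT48.PL
import Pool.Agent.LibGT48.BD1

/-!
# LibGT48 TF (MEDIUM, assembly): Theorem F

C0, C1 from NU1 with κ = 4 * B ! * ssc B, c = cc B, r = 4 * B !, b = B^B (>= 1), enlarged so that the case k = 1 is fine (C0 + 2: for k = 1 the ball of radius >= 1 has at least 2 elements: 1 and a generator s ≠ 1; P nontrivial). So take C0' = C0 + 2 (monotone: wball_mono).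
k = Ω.ncard >= 1. Case k = 1: 2 <= ncard (ball). Case k >= 2: A ∈ Ω, F = P ⧸ centralizer A (finite), FRf, FRb (card A <= B: Bd.simple_le). P acts on ↥Ω (type u) by conjugation, kernel = base Ω; PL B k: ∃ L, vs e ⊤ L <= base Ω and 2^L <= k^c (see M4a for the action). A7: z. C1 (hF = FRa): A, u, leaves with
l = 2 w + 4 (card F)^2. d = Nat.clog 2 k: k <= 2^d, 2^d <= 2k (Nat.pow_pred_clog_lt_self). C2 with D = Ω.toFinset.erase A: y. C3. wball_mono with NU1.
-/

namespace GT48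

open Subgroup GP48

universe u

private lemma TF_conj_one {Q : Type u} [Group Q] (A : Subgroup Q) :
    A.map (MulAut.conj (1 : Q)).toMonoidHom = A := by
  ext y
  simp [mem_map]

private lemma TF_conj_mul {Q : Type u} [Group Q] (A : Subgroup Q) (x y : Q) :
    A.map (MulAut.conj (x * y)).toMonoidHom
      = (A.map (MulAut.conj y).toMonoidHom).map (MulAut.conj x).toMonoidHom := by
  have h1 : (MulAut.conj (x * y)).toMonoidHom
      = (MulAut.conj x).toMonoidHom.comp (MulAut.conj y).toMonoidHom := by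
    ext z
    simp [mul_assoc]
  rw [h1, ← map_map]

/-- the action on the components -/
private def TF_act {Q : Type u} [Group Q] {T : Subgroup Q} {Ω : Set (Subgroup Q)}
    (h : CompSys T Ω) : MulAction Q ↥Ω where
  smul g A := ⟨A.1.map (MulAut.conj g).toMonoidHom, h.conj g A.1 A.2⟩
  one_smul A := Subtype.ext (TF_conj_one A.1)
  mul_smul x y A := Subtype.ext (TF_conj_mul A.1 x y)

private lemma TF_base {Q : Type u} [Group Q] [Finite Q] {B : ℕ} (hB : Bd B Q) {T : Subgroup Q}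
    {Ω : Set (Subgroup Q)} (h : CompSys T Ω) (hk : 1 ≤ Ω.ncard) :
    VL (Nat.factorial B) (Ω.ncard ^ cc B) (⊤ : Subgroup Q) (base Ω) := by
  classical
  letI := TF_act h
  have h1 : VL (Nat.factorial B) (Ω.ncard ^ cc B) (⊤ : Subgroup Q)
      (MulAction.toPermHom Q ↥Ω).ker := PL B Ω.ncard hk Q ↥Ω (Nat.card_coe_set_eq Ω) hB
  have h2 : (MulAction.toPermHom Q ↥Ω).ker ≤ base Ω := by
    intro x hx A hA
    have h3 : MulAction.toPermHom Q ↥Ω x = 1 := hx
    have h4 := congrArg (fun σ : Equiv.Perm ↥Ω => ((σ ⟨A, hA⟩ : ↥Ω) : Subgroup Q)) h3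
    exact h4
  exact h1.mono_right h2

private lemma TF_one {P : Type u} [Group P] [Finite P] {T : Subgroup P}
    {Ω : Set (Subgroup P)} (h : CompSys T Ω) (S : Set P) (hS : Subgroup.closure S = ⊤)
    {n : ℕ} (hn : 1 ≤ n) : 2 ≤ (wball S n).ncard := by
  obtain ⟨A, hA⟩ := h.ne
  obtain ⟨a, _, b, _, hab⟩ := h.na A hA
  have h1 : ∃ s ∈ S, s ≠ 1 := by
    by_contra hcon
    push Not at hcon
    have h2 : Subgroup.closure S ≤ ⊥ := by
      rw [Subgroup.closure_le]
      intro s hs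
      exact hcon s hs
    rw [hS] at h2
    have h3 : a = 1 := h2 (Subgroup.mem_top a)
    apply hab
    rw [h3, one_mul, mul_one]
  obtain ⟨s, hs, hs1⟩ := h1
  have h2 : ({1, s} : Set P) ⊆ wball S n := by
    intro x hx
    rcases hx with hx | hx
    · rw [hx]
      exact wball_one S n
    · rw [Set.mem_singleton_iff.1 hx]
      exact wball_mono S hn (wball_gen hs)
  calc 2 = ({1, s} : Set P).ncard := (Set.ncard_pair (Ne.symm hs1)).symm
    _ ≤ (wball S n).ncard := Set.ncard_le_ncard h2 (Set.toFinite _)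

theorem TF (B : ℕ) : ∃ C0 C1 : ℕ, ∀ (P : Type u) [Group P] [Finite P] (T : Subgroup P)
    [T.Normal] (Ω : Set (Subgroup P)), CompSys T Ω → centralizer (T : Set P) = ⊥ → Bd B P →
    ∀ S : Set P, Subgroup.closure S = ⊤ →
      2 ^ Ω.ncard ≤ (wball S (C0 * Ω.ncard ^ C1)).ncard := by
  classical
  have hBB : 1 ≤ B ^ B := by
    rcases Nat.eq_zero_or_pos B with h | h
    · subst h
      simp
    · exact Nat.one_le_pow _ _ h
  obtain ⟨C0, C1', hNU⟩ := NU1 (4 * Nat.factorial B * ssc B) (cc B) (4 * Nat.factorial B)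
    (B ^ B) hBB
  refine ⟨C0 + 2, C1', ?_⟩
  intro P _ _ T _ Ω h hcen hBd S hS
  have hk1 : 1 ≤ Ω.ncard := (Set.ncard_pos (Set.toFinite Ω)).2 h.ne
  rcases Nat.lt_or_ge Ω.ncard 2 with hk2 | hk2
  · have hk3 : Ω.ncard = 1 := by omega
    rw [hk3]
    simp only [pow_one, one_pow, mul_one]
    exact TF_one h S hS (by omega)
  · obtain ⟨A0, hA0⟩ := h.ne
    have hcard : ∀ A ∈ Ω, Nat.card A ≤ B := fun A hA =>
      hBd.simple_le A (h.simple A hA) (h.na A hA)
    haveI := FRf h hcen hA0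
    obtain ⟨L, hL1, hL2⟩ := TF_base hBd h hk1
    obtain ⟨z, hz, hz1, hzw⟩ := A7 (F := P ⧸ centralizer (A0 : Set P)) h hcen B hcard S hS L hL1
    obtain ⟨A, hA, u, hu, hu1, hleaf⟩ := C1 h hcen (FRa h hA0) S hS hz hz1 hzw
    have hex : ∃ A' ∈ Ω, A' ≠ A := Set.exists_ne_of_one_lt_ncard (by omega) A
    have hd1 : Ω.ncard ≤ 2 ^ Nat.clog 2 Ω.ncard := Nat.le_pow_clog (by norm_num) _
    have hd2 : 2 ^ Nat.clog 2 Ω.ncard ≤ 2 * Ω.ncard := by
      have h1 := Nat.pow_pred_clog_lt_self (b := 2) (by norm_num) (x := Ω.ncard) (by omega)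
      have h2 : 0 < Nat.clog 2 Ω.ncard := Nat.clog_pos (by norm_num) hk2
      obtain ⟨d, hd⟩ := Nat.exists_eq_succ_of_ne_zero h2.ne'
      rw [hd] at h1 ⊢
      rw [Nat.pred_succ] at h1
      rw [pow_succ]
      omega
    have hD : ∀ A' ∈ (Set.toFinite Ω).toFinset.erase A, A' ∈ Ω ∧ A' ≠ A := by
      intro A' hA'
      rw [Finset.mem_erase, Set.Finite.mem_toFinset] at hA'
      exact ⟨hA'.2, hA'.1⟩
    have hDc : ((Set.toFinite Ω).toFinset.erase A).card ≤ 2 ^ Nat.clog 2 Ω.ncard := by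
      refine (Finset.card_erase_le).trans ?_
      rw [← Set.ncard_eq_toFinset_card Ω (Set.toFinite Ω)]
      exact hd1
    obtain ⟨y, _, hy2, hy3, hy4⟩ := C2 h S hA hu hu1 _ hex hleaf (Nat.clog 2 Ω.ncard)
      ((Set.toFinite Ω).toFinset.erase A) hD hDc
    have hy5 : ∀ A' ∈ Ω, A' ≠ A → y ∈ centralizer (A' : Set P) := by
      intro A' hA' hne
      apply hy4
      rw [Finset.mem_erase, Set.Finite.mem_toFinset]
      exact ⟨hne, hA'⟩
    have h6 := C3 h S hS hA hy2 hy3 hy5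
    have h7 := hNU Ω.ncard L (Nat.card (P ⧸ centralizer (A0 : Set P))) (Nat.clog 2 Ω.ncard) hk1
      hL2 (FRb h hA0 B (hcard A0 hA0)) hd2
    refine h6.trans (Set.ncard_le_ncard (wball_mono S (h7.trans ?_)) (Set.toFinite _))
    exact Nat.mul_le_mul_right _ (by omega)

end GT48
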