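import Mathlib
import Pool.Agent.LibGT48.Defs
import Pool.Agent.LibGT48.TF
import Pool.Agent.LibGT48.G1
import Pool.Agent.LibGT48.G5
import Pool.Agent.LibGT48.M1
import Pool.Agent.LibGT48.FR
import Pool.Agent.LibGT48.BD1

/-!
# LibGT48 G6 (MEDIUM, assembly): bounded order of the groups P

C0, C1 from TF B; β from G1 C0 C1. Given G, S, growth: k0 from G1 with f n = (wball S n).ncard. M = (k0 * B^B)!. Given N, C, T: P = (G ⧸ N) ⧸ C finite, Bd B P (Bd.surj), Ω from M1. S_P = image of S under G → P: closure ⊤ (surjective; MonoidHom.map_closure). TF: 2^k <= ncard of the ball of P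
<= ncard of the ball of G (G5a), so k = Ω.ncard <= k0. A in Ω, F = P ⧸ centralizer A: G5b (FRf): card P <= (card F)!, FRb: card F <= k B^B <= k0 B^B (Nat.factorial_le).
-/

namespace GT48

open Subgroup GP48

universe u

theorem G6 (B : ℕ) : ∃ β : ℝ, 0 < β ∧ β < 2 / 7 ∧ ∀ (G : Type u) [Group G] (S : Finset G),
    Subgroup.closure (S : Set G) = ⊤ → Gro (fun n => (wball (S : Set G) n).ncard) β →
    ∃ M : ℕ, ∀ (N : Subgroup G) [N.Normal] [N.FiniteIndex], Bd B (G ⧸ N) →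
      ∀ (C : Subgroup (G ⧸ N)) [C.Normal] (T : Subgroup ((G ⧸ N) ⧸ C)), T.Normal → T ≠ ⊥ →
      (∀ Z : Subgroup ((G ⧸ N) ⧸ C), Z.Normal → Z ≤ T → Z = ⊥ ∨ Z = T) →
      (∃ a ∈ T, ∃ b ∈ T, a * b ≠ b * a) → centralizer (T : Set ((G ⧸ N) ⧸ C)) = ⊥ →
      Nat.card ((G ⧸ N) ⧸ C) ≤ M := by
  obtain ⟨C0, C1, hTF⟩ := TF.{u} B
  obtain ⟨β, hβ0, hβ1, hG1⟩ := G1 C0 C1
  refine ⟨β, hβ0, hβ1, ?_⟩
  intro G _ S hS hg
  obtain ⟨k0, hk0⟩ := hG1 _ hg
  refine ⟨Nat.factorial (k0 * B ^ B), ?_⟩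
  intro N _ _ hBd C _ T hT hne hmin hna hcent
  haveI : T.Normal := hT
  haveI : Finite ((G ⧸ N) ⧸ C) :=
    Finite.of_surjective (QuotientGroup.mk' C) (QuotientGroup.mk'_surjective C)
  have hBdP : Bd B ((G ⧸ N) ⧸ C) := hBd.surj (QuotientGroup.mk' C) (QuotientGroup.mk'_surjective C)
  obtain ⟨Ω, hΩ⟩ := M1 T hne hmin hna
  let f : G →* (G ⧸ N) ⧸ C := (QuotientGroup.mk' C).comp (QuotientGroup.mk' N)
  have hf : Function.Surjective f :=
    (QuotientGroup.mk'_surjective C).comp (QuotientGroup.mk'_surjective N)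
  have hSP : Subgroup.closure (f '' (S : Set G)) = ⊤ := by
    rw [← MonoidHom.map_closure, hS, ← MonoidHom.range_eq_map]
    exact MonoidHom.range_eq_top.2 hf
  have h1 : 2 ^ Ω.ncard ≤ (wball (f '' (S : Set G)) (C0 * Ω.ncard ^ C1)).ncard :=
    hTF ((G ⧸ N) ⧸ C) T Ω hΩ hcent hBdP _ hSP
  have h2 := G5a f (S : Set G) S.finite_toSet (C0 * Ω.ncard ^ C1)
  have h3 : Ω.ncard ≤ k0 := hk0 _ (h1.trans h2)
  obtain ⟨A, hA⟩ := hΩ.ne
  haveI := FRf hΩ hcent hA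
  have h4 : Nat.card ((G ⧸ N) ⧸ C) ≤
      Nat.factorial (Nat.card (((G ⧸ N) ⧸ C) ⧸ centralizer (A : Set ((G ⧸ N) ⧸ C)))) := G5b
  have h5 : Nat.card A ≤ B := hBdP.simple_le A (hΩ.simple A hA) (hΩ.na A hA)
  have h6 := FRb hΩ hA B h5
  exact h4.trans (Nat.factorial_le (h6.trans (Nat.mul_le_mul_right _ h3)))

end GT48
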