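import Mathlib
import Pool.Agent.LibGT48.Defs

/-!
# LibGT48 G3 (MEDIUM, only Defs): a nonabelian chief factor inside an insoluble normal subgroup
-/

namespace GT48

open Subgroup GP48

universe u

private theorem G3_mem {Q : Type u} [Group Q] (W N' : Subgroup Q) [N'.Normal] (x : Q) :
    x ∈ (centralizer ((W.map (QuotientGroup.mk' N') : Subgroup (Q ⧸ N')) : Set (Q ⧸ N'))).comap
      (QuotientGroup.mk' N') ↔ ∀ w ∈ W, x * w * x⁻¹ * w⁻¹ ∈ N' := by
  rw [mem_comap, mem_centralizer_iff]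
  constructor
  · intro h w hw
    have h1 := h (QuotientGroup.mk' N' w) ⟨w, hw, rfl⟩
    rw [← QuotientGroup.eq_one_iff]
    have h2 : ((x * w * x⁻¹ * w⁻¹ : Q) : Q ⧸ N') =
        QuotientGroup.mk' N' x * QuotientGroup.mk' N' w * (QuotientGroup.mk' N' x)⁻¹ *
          (QuotientGroup.mk' N' w)⁻¹ := rfl
    rw [h2, ← h1]
    group
  · rintro h _ ⟨w, hw, rfl⟩
    have h1 := h w hw
    rw [← QuotientGroup.eq_one_iff] at h1
    have h2 : ((x * w * x⁻¹ * w⁻¹ : Q) : Q ⧸ N') =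
        QuotientGroup.mk' N' x * QuotientGroup.mk' N' w * (QuotientGroup.mk' N' x)⁻¹ *
          (QuotientGroup.mk' N' w)⁻¹ := rfl
    rw [h2] at h1
    have h3 := mul_inv_eq_one.mp h1
    have h4 := mul_inv_eq_iff_eq_mul.mp h3
    exact h4.symm

theorem G3 {Q : Type u} [Group Q] [Finite Q] (Kb : Subgroup Q) [Kb.Normal]
    (hns : ∀ e, ds Kb e ≠ ⊥) : ∃ (C : Subgroup Q) (_ : C.Normal) (T : Subgroup (Q ⧸ C)),
      T.Normal ∧ T ≠ ⊥ ∧ (∀ Z : Subgroup (Q ⧸ C), Z.Normal → Z ≤ T → Z = ⊥ ∨ Z = T) ∧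
      (∃ a ∈ T, ∃ b ∈ T, a * b ≠ b * a) ∧ centralizer (T : Set (Q ⧸ C)) = ⊥ ∧
      T ≤ Kb.map (QuotientGroup.mk' C) := by
  classical
  -- the stable term
  obtain ⟨W, hWn, hWK, hWb, hWW⟩ : ∃ W : Subgroup Q, W.Normal ∧ W ≤ Kb ∧ W ≠ ⊥ ∧ ⁅W, W⁆ = W := by
    obtain ⟨W, ⟨e, rfl⟩, hmin⟩ := (wellFounded_lt (α := Subgroup Q)).has_min
      (Set.range (ds Kb)) ⟨_, 0, rfl⟩
    refine ⟨ds Kb e, inferInstance, ds_le Kb e, hns e, ?_⟩
    have h1 : ds Kb (e + 1) ≤ ds Kb e := ds_succ_le Kb e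
    have h2 := hmin (ds Kb (e + 1)) ⟨e + 1, rfl⟩
    rcases h1.lt_or_eq with h3 | h3
    · exact absurd h3 h2
    · rw [ds_succ] at h3
      exact h3
  obtain ⟨N', ⟨hN'n, hN'W⟩, hmax⟩ := (wellFounded_gt (α := Subgroup Q)).has_min
      {N : Subgroup Q | N.Normal ∧ N < W} ⟨⊥, inferInstance, bot_lt_iff_ne_bot.mpr hWb⟩
  have := hWn
  have := hN'n
  have hbetween : ∀ X : Subgroup Q, X.Normal → N' ≤ X → X ≤ W → X = N' ∨ X = W := by
    intro X hX h1 h2
    rcases h2.lt_or_eq with h3 | h3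
    · left
      rcases h1.lt_or_eq with h4 | h4
      · exact absurd h4 (hmax X ⟨hX, h3⟩)
      · exact h4.symm
    · right; exact h3
  obtain ⟨C, hC⟩ : ∃ C : Subgroup Q, ∀ x, x ∈ C ↔ ∀ w ∈ W, x * w * x⁻¹ * w⁻¹ ∈ N' :=
    ⟨_, G3_mem W N'⟩
  have hCn : C.Normal := by
    constructor
    intro x hx g
    rw [hC] at hx ⊢
    intro w hw
    have hw' : g⁻¹ * w * g ∈ W := by
      have := hWn.conj_mem w hw g⁻¹
      rwa [inv_inv] at this
    have h1 := hN'n.conj_mem _ (hx _ hw') g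
    have h2 : g * (x * (g⁻¹ * w * g) * x⁻¹ * (g⁻¹ * w * g)⁻¹) * g⁻¹ =
        g * x * g⁻¹ * w * (g * x * g⁻¹)⁻¹ * w⁻¹ := by group
    rwa [h2] at h1
  have hN'C : N' ≤ C := by
    intro x hx
    rw [hC]
    intro w _
    have h1 := hN'n.conj_mem _ (N'.inv_mem hx) w
    have h2 := N'.mul_mem hx h1
    have h3 : x * (w * x⁻¹ * w⁻¹) = x * w * x⁻¹ * w⁻¹ := by group
    rwa [h3] at h2
  have hWC : ¬ W ≤ C := by
    intro hcon
    have h1 : ⁅W, W⁆ ≤ N' := by
      rw [Subgroup.commutator_le]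
      intro x hx y hy
      rw [commutatorElement_def]
      exact (hC x).mp (hcon hx) y hy
    rw [hWW] at h1
    exact absurd h1 (not_le_of_gt hN'W)
  have hWiC : W ⊓ C ≤ N' := by
    have h1 : ((W ⊓ C) ⊔ N').Normal := inferInstance
    rcases hbetween _ h1 le_sup_right (sup_le inf_le_left hN'W.le) with h2 | h2
    · rw [← h2]; exact le_sup_left
    · exfalso
      apply hWC
      rw [← h2]
      exact sup_le inf_le_right hN'C
  have := hCn
  have hker : (QuotientGroup.mk' C).ker = C := QuotientGroup.ker_mk' C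
  refine ⟨C, hCn, W.map (QuotientGroup.mk' C), ?_, ?_, ?_, ?_, ?_, ?_⟩
  · exact hWn.map _ (QuotientGroup.mk'_surjective C)
  · intro h
    rw [Subgroup.map_eq_bot_iff, hker] at h
    exact hWC h
  · intro Z hZ hZT
    have hZc : (Z.comap (QuotientGroup.mk' C)).Normal := hZ.comap _
    have h1 : ((Z.comap (QuotientGroup.mk' C) ⊓ W) ⊔ N').Normal := inferInstance
    rcases hbetween _ h1 le_sup_right (sup_le inf_le_right hN'W.le) with h2 | h2
    · left
      rw [eq_bot_iff]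
      intro z hz
      obtain ⟨w, hw, rfl⟩ := hZT hz
      have h3 : w ∈ N' := by
        rw [← h2]
        exact (le_sup_left : Z.comap (QuotientGroup.mk' C) ⊓ W ≤ _) ⟨hz, hw⟩
      rw [Subgroup.mem_bot]
      have h4 : w ∈ (QuotientGroup.mk' C).ker := by rw [hker]; exact hN'C h3
      exact h4
    · right
      refine le_antisymm hZT ?_
      rw [Subgroup.map_le_iff_le_comap]
      have h3 : N' ≤ Z.comap (QuotientGroup.mk' C) := by
        refine hN'C.trans ?_
        intro x hx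
        have h4 : x ∈ (QuotientGroup.mk' C).ker := by rw [hker]; exact hx
        rw [Subgroup.mem_comap, MonoidHom.mem_ker.mp h4]
        exact Z.one_mem
      calc W = (Z.comap (QuotientGroup.mk' C) ⊓ W) ⊔ N' := h2.symm
        _ ≤ Z.comap (QuotientGroup.mk' C) := sup_le inf_le_left h3
  · by_contra hcon
    push Not at hcon
    apply hWC
    rw [← hWW, Subgroup.commutator_le]
    intro x hx y hy
    have h1 := hcon (QuotientGroup.mk' C x) ⟨x, hx, rfl⟩ (QuotientGroup.mk' C y) ⟨y, hy, rfl⟩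
    have h2 : x * y * x⁻¹ * y⁻¹ ∈ (QuotientGroup.mk' C).ker := by
      rw [MonoidHom.mem_ker, map_mul, map_mul, map_mul, map_inv, map_inv, h1]
      group
    rw [hker] at h2
    exact h2
  · rw [eq_bot_iff]
    intro z hz
    obtain ⟨q, rfl⟩ := QuotientGroup.mk'_surjective C z
    rw [mem_centralizer_iff] at hz
    have hq : q ∈ C := by
      rw [hC]
      intro w hw
      apply hWiC
      refine ⟨W.mul_mem (hWn.conj_mem w hw q) (W.inv_mem hw), ?_⟩
      have h1 := hz (QuotientGroup.mk' C w) ⟨w, hw, rfl⟩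
      have h2 : q * w * q⁻¹ * w⁻¹ ∈ (QuotientGroup.mk' C).ker := by
        rw [MonoidHom.mem_ker, map_mul, map_mul, map_mul, map_inv, map_inv, ← h1]
        group
      rwa [hker] at h2
    rw [Subgroup.mem_bot]
    have h4 : q ∈ (QuotientGroup.mk' C).ker := by rw [hker]; exact hq
    exact h4
  · exact Subgroup.map_mono hWK

end GT48
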