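import Mathlib
import Pool.Agent.LibGT48.Defs
import Pool.Agent.LibGT48.G3

/-!
# LibGT48 G7 (SHORT/MEDIUM, assembly): the images of K are soluble

Kb = K.map (QuotientGroup.mk' N) normal in G ⧸ N (finite). If ds Kb e = ⊥ for some e then ds K e <= N (ds_map with mk' N; kernel). Otherwise G3 gives C, T; hM: Nat.card ((G ⧸ N) ⧸ C) <= M. N2 = kernel of G → (G ⧸ N) ⧸ C (surjective): normal, index = card <= M, finite index, so K <= N2 by hK,
so Kb.map (mk' C) = ⊥, so T <= ⊥, contradiction with T ≠ ⊥.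
-/

namespace GT48

open Subgroup GP48

universe u

theorem G7 {G : Type u} [Group G] (K : Subgroup G) [K.Normal] (M B : ℕ)
    (hK : ∀ N : Subgroup G, N.Normal → N.FiniteIndex → N.index ≤ M → K ≤ N)
    (N : Subgroup G) [N.Normal] [N.FiniteIndex]
    (hM : ∀ (C : Subgroup (G ⧸ N)) [C.Normal] (T : Subgroup ((G ⧸ N) ⧸ C)), T.Normal → T ≠ ⊥ →
      (∀ Z : Subgroup ((G ⧸ N) ⧸ C), Z.Normal → Z ≤ T → Z = ⊥ ∨ Z = T) →
      (∃ a ∈ T, ∃ b ∈ T, a * b ≠ b * a) → centralizer (T : Set ((G ⧸ N) ⧸ C)) = ⊥ →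
      Nat.card ((G ⧸ N) ⧸ C) ≤ M) : ∃ e, ds K e ≤ N := by
  haveI : Finite (G ⧸ N) := Subgroup.finite_quotient_of_finiteIndex
  haveI hKb : (K.map (QuotientGroup.mk' N)).Normal :=
    Subgroup.Normal.map inferInstance _ (QuotientGroup.mk'_surjective N)
  by_cases h : ∃ e, ds (K.map (QuotientGroup.mk' N)) e = ⊥
  · obtain ⟨e, he⟩ := h
    refine ⟨e, ?_⟩
    rw [← ds_map, Subgroup.map_eq_bot_iff, QuotientGroup.ker_mk'] at he
    exact he
  · exfalso
    have hns : ∀ e, ds (K.map (QuotientGroup.mk' N)) e ≠ ⊥ := fun e he => h ⟨e, he⟩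
    obtain ⟨C, hC, T, hT, hT1, hmin, hna, hcent, hle⟩ := G3 (K.map (QuotientGroup.mk' N)) hns
    have hcard : Nat.card ((G ⧸ N) ⧸ C) ≤ M := hM C T hT hT1 hmin hna hcent
    let f : G →* (G ⧸ N) ⧸ C := (QuotientGroup.mk' C).comp (QuotientGroup.mk' N)
    have hf : Function.Surjective f :=
      (QuotientGroup.mk'_surjective C).comp (QuotientGroup.mk'_surjective N)
    have hidx : f.ker.index = Nat.card ((G ⧸ N) ⧸ C) := by
      rw [Subgroup.index_ker, MonoidHom.range_eq_top.2 hf, Subgroup.card_top]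
    haveI : Finite ((G ⧸ N) ⧸ C) := inferInstance
    have hfin : f.ker.FiniteIndex := ⟨by
      rw [hidx]
      exact Nat.card_pos.ne'⟩
    have hKf : K ≤ f.ker := hK f.ker inferInstance hfin (by rw [hidx]; exact hcard)
    have h1 : (K.map (QuotientGroup.mk' N)).map (QuotientGroup.mk' C) = ⊥ := by
      rw [Subgroup.map_map, Subgroup.map_eq_bot_iff]
      exact hKf
    rw [h1, le_bot_iff] at hle
    exact hT1 hle

end GT48
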