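import Mathlib
import Pool.Agent.LibGT48.Defs
import Pool.Agent.LibGT48.G2
import Pool.Agent.LibGT48.G4
import Pool.Agent.LibGT48.G5
import Pool.Agent.LibGT48.G6
import Pool.Agent.LibGT48.G7
import Pool.Agent.LibGP48.FIN0

/-!
# LibGT48 FIN (SHORT/MEDIUM, assembly): the theorem for residually C_B groups
-/

namespace GT48

open Subgroup GP48

universe u

theorem FIN (B : ℕ) : ∃ β : ℝ, 0 < β ∧ ∀ (G : Type u) [Group G] (S : Finset G),
    Subgroup.closure (S : Set G) = ⊤ → Gro (fun n => (wball (S : Set G) n).ncard) β →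
    (∀ x : G, x ≠ 1 → ∃ (N : Subgroup G) (_ : N.Normal), N.FiniteIndex ∧ x ∉ N ∧ Bd B (G ⧸ N)) →
    ∃ H : Subgroup G, H.FiniteIndex ∧ Group.IsNilpotent H := by
  obtain ⟨β, h0, h1, hmain⟩ := G6.{u} B
  refine ⟨β, h0, ?_⟩
  intro G _ S hS hg hres
  obtain ⟨M, hM⟩ := hmain G S hS hg
  obtain ⟨K, hKn, hKf, hK⟩ := G2 S hS M
  obtain ⟨S', hS', hg'⟩ := G4 S hS K β ((β + 2 / 7) / 2) (by linarith) h0 hg
  apply G5c K
  refine (UNI (fun S h1 h2 β h3 h4 h5 => FIN0 S h1 h2 β h3 h4 h5) (S' : Set K) S'.finite_toSet hS'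
    ((β + 2 / 7) / 2) (by linarith) hg').2.2 ?_
  rw [eq_bot_iff]
  intro x hx
  rw [Subgroup.mem_bot]
  by_contra hne
  have hne' : (x : G) ≠ 1 := fun h => hne (Subtype.ext h)
  obtain ⟨N, hNn, hNf, hxN, hB⟩ := hres x hne'
  obtain ⟨e, he⟩ := G7 K M B hK N (fun C _ T a1 a2 a3 a4 a5 => hM N hB C T a1 a2 a3 a4 a5)
  apply hxN
  apply he
  rw [← map_derivedSeries]
  exact Subgroup.mem_map_of_mem _ ((Subgroup.mem_iInf.1 hx) e)

end GT48
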