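import Mathlib
import Pool.Agent.LibGT48.Defs
import Pool.Agent.LibGT48.BD2

/-!
# LibGT48 T1 (MEDIUM, Defs + BD2): level stabilisers of a rooted tree of valency at most d

Finite (V n): induction: V 0 has at most one element; V (n+1) is the union over v : V n of the fibres {w | π n w = v}, finite because encard <= d < ⊤ (Set.finite_of_encard_le_coe).
Bd: let St n = (MulAction.toPermHom G (V n)).ker. Induction on n. n = 0: V 0 is a subsingleton, St 0 = ⊤, G ⧸ ⊤ trivial: every section is trivial, never nonabelian (or Bd.of_card: Nat.card = 1 <= d !). Step: St (n+1) <= St n (if V (n+1) → V n is not surjective this can fail!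
so use instead the kernel St' n of the action on V 0, .., V n: prove Bd (d !) (G ⧸ St' n) first, St' (n+1) = St' n ⊓ St (n+1)). H = G ⧸ St' (n+1), N = (St' n) mapped to H (normal), H ⧸ N ≃ G ⧸ St' n in the class; N embeds into the product over v : V n of
Equiv.Perm {w // π n w = v} (elements of St' n fix v, so by hπ preserve the fibre over v): Bd.pi (Finite (V n)), each factor has Nat.card (Perm) = (card fibre)! <= d ! (Bd.of_card), Bd.inj; Bd.ext. Finally G ⧸ St n is a quotient of G ⧸ St' n (St' n <= St n): Bd.surj.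
-/

namespace GT48

open Subgroup GP48

universe u

private theorem t1_fib {α : Type*} (s : Set α) (d : ℕ) (h : s.encard ≤ d) :
    Finite s ∧ Nat.card s ≤ d := by
  obtain ⟨h1, k, h2, h3⟩ := Set.encard_le_coe_iff.1 h
  refine ⟨h1, ?_⟩
  rw [Nat.card_coe_set_eq]
  have : s.ncard = k := by
    rw [Set.ncard_def, h2]; rfl
  rw [this]; exact h3

private theorem t1_step (d : ℕ) {G : Type*} [Group G] {W W' : Type*} [MulAction G W] [MulAction G W']
    (π : W' → W) (hπ : ∀ (g : G) (v : W'), π (g • v) = g • π v) [Finite W]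
    (hd : ∀ v : W, {w | π w = v}.encard ≤ d) (K : Subgroup G) [K.Normal]
    (hK : K ≤ (MulAction.toPermHom G W).ker) (hB : Bd (Nat.factorial d) (G ⧸ K)) :
    Bd (Nat.factorial d) (G ⧸ (K ⊓ (MulAction.toPermHom G W').ker)) := by
  have hfix : ∀ k : K, ∀ v : W, (k : G) • v = v := by
    intro k v
    have := hK k.2
    rw [MonoidHom.mem_ker] at this
    exact congrArg (fun σ : Equiv.Perm W => σ v) this
  let K' : Subgroup G := K ⊓ (MulAction.toPermHom G W').ker
  have hK' : K' ≤ K := inf_le_left
  let q : G →* G ⧸ K' := QuotientGroup.mk' K'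
  have hf : ∀ v : W, Finite {w : W' // π w = v} ∧ Nat.card {w : W' // π w = v} ≤ d := fun v =>
    t1_fib {w | π w = v} d (hd v)
  let pm : K → ∀ v : W, Equiv.Perm {w : W' // π w = v} := fun k v =>
    { toFun := fun w => ⟨(k : G) • w.1, by rw [hπ, w.2, hfix]⟩
      invFun := fun w => ⟨((k⁻¹ : K) : G) • w.1, by rw [hπ, w.2, hfix]⟩
      left_inv := fun w => Subtype.ext (by
        show ((k⁻¹ : K) : G) • (k : G) • w.1 = w.1
        rw [smul_smul, Subgroup.coe_inv, inv_mul_cancel, one_smul])
      right_inv := fun w => Subtype.ext (by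
        show (k : G) • ((k⁻¹ : K) : G) • w.1 = w.1
        rw [smul_smul, Subgroup.coe_inv, mul_inv_cancel, one_smul]) }
  let φ : K →* (∀ v : W, Equiv.Perm {w : W' // π w = v}) := MonoidHom.mk' pm (by
    intro a b
    funext v
    ext w
    show ((a * b : K) : G) • w.1 = (a : G) • (b : G) • w.1
    rw [smul_smul]; rfl)
  have hφ : ∀ k : K, φ k = 1 → (k : G) ∈ K' := by
    intro k hk
    refine Subgroup.mem_inf.2 ⟨k.2, ?_⟩
    rw [MonoidHom.mem_ker]
    ext w
    have h1 := congrArg (fun F => F (π w)) hk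
    have h2 := congrArg (fun σ : Equiv.Perm {w' : W' // π w' = π w} => (σ ⟨w, rfl⟩).1) h1
    exact h2
  have hφ' : ∀ k : K, (k : G) ∈ K' → φ k = 1 := by
    intro k hk
    have h1 := (Subgroup.mem_inf.1 hk).2
    rw [MonoidHom.mem_ker] at h1
    funext v
    ext w
    exact congrArg (fun σ : Equiv.Perm W' => σ w.1) h1
  -- the image of K
  let N : Subgroup (G ⧸ K') := K.map q
  have : N.Normal := Subgroup.Normal.map inferInstance q (QuotientGroup.mk'_surjective K')
  let g : K →* N := (q.comp K.subtype).codRestrict N (fun x => ⟨x.1, x.2, rfl⟩)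
  have hg : Function.Surjective g := by
    rintro ⟨_, x, hx, rfl⟩
    exact ⟨⟨x, hx⟩, rfl⟩
  have hker : ∀ x : K, g x = 1 ↔ (x : G) ∈ K' := by
    intro x
    rw [← QuotientGroup.eq_one_iff (N := K') (x : G)]
    constructor
    · intro h; exact congrArg Subtype.val h
    · intro h; exact Subtype.ext h
  have hle : g.ker ≤ φ.ker := by
    intro x hx
    rw [MonoidHom.mem_ker] at hx ⊢
    exact hφ' x ((hker x).1 hx)
  let ψ : N →* (∀ v : W, Equiv.Perm {w : W' // π w = v}) := MonoidHom.liftOfSurjective g hg ⟨φ, hle⟩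
  have hψ : ∀ x : K, ψ (g x) = φ x := fun x => MonoidHom.liftOfRightInverse_comp_apply g _ _ ⟨φ, hle⟩ x
  have hinj : Function.Injective ψ := by
    rw [injective_iff_map_eq_one]
    intro y hy
    obtain ⟨x, rfl⟩ := hg y
    rw [hψ] at hy
    exact (hker x).2 (hφ x hy)
  have hprod : Bd (Nat.factorial d) (∀ v : W, Equiv.Perm {w : W' // π w = v}) := by
    apply Bd.pi
    intro v
    have := (hf v).1
    apply Bd.of_card
    rw [Nat.card_perm]
    exact Nat.factorial_le (hf v).2
  have hN : Bd (Nat.factorial d) N := hprod.inj ψ hinj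
  have hq : Bd (Nat.factorial d) ((G ⧸ K') ⧸ N) :=
    hB.inj (QuotientGroup.quotientQuotientEquivQuotient K' K hK').toMonoidHom
      (QuotientGroup.quotientQuotientEquivQuotient K' K hK').injective
  exact Bd.ext N hN hq

theorem T1 (d : ℕ) {G : Type*} [Group G] (V : ℕ → Type*) [∀ n, MulAction G (V n)]
    (π : ∀ n, V (n + 1) → V n) (hπ : ∀ n (g : G) (v : V (n + 1)), π n (g • v) = g • π n v)
    (h0 : Subsingleton (V 0)) (hd : ∀ n (v : V n), {w | π n w = v}.encard ≤ d) (n : ℕ) :
    Finite (V n) ∧ Bd (Nat.factorial d) (G ⧸ (MulAction.toPermHom G (V n)).ker) := by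
  have key : ∀ n, Finite (V n) ∧ ∃ K : Subgroup G, ∃ _ : K.Normal,
      K ≤ (MulAction.toPermHom G (V n)).ker ∧ Bd (Nat.factorial d) (G ⧸ K) := by
    intro n
    induction n with
    | zero =>
      refine ⟨inferInstance, ⊤, inferInstance, ?_, ?_⟩
      · intro g _
        rw [MonoidHom.mem_ker]
        ext v
        exact Subsingleton.elim _ _
      · have : Subsingleton (G ⧸ (⊤ : Subgroup G)) := QuotientGroup.subsingleton_quotient_top
        apply Bd.of_card
        rw [Nat.card_unique]
        exact Nat.factorial_pos d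
    | succ n ih =>
      obtain ⟨hfin, K, hKn, hK, hB⟩ := ih
      refine ⟨?_, K ⊓ (MulAction.toPermHom G (V (n + 1))).ker, inferInstance, inf_le_right, ?_⟩
      · have : ∀ v : V n, Finite {w : V (n + 1) // π n w = v} := fun v =>
          (t1_fib {w | π n w = v} d (hd n v)).1
        exact Finite.of_equiv _ (Equiv.sigmaFiberEquiv (π n))
      · exact t1_step d (π n) (hπ n) (hd n) K hK hB
  obtain ⟨h1, K, hKn, hK, hB⟩ := key n
  refine ⟨h1, hB.surj (QuotientGroup.map K _ (MonoidHom.id G) (by
    rw [Subgroup.comap_id]; exact hK)) ?_⟩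
  intro y
  obtain ⟨g, rfl⟩ := QuotientGroup.mk_surjective y
  exact ⟨(g : G ⧸ K), rfl⟩

end GT48
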