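import Mathlib
import Pool.Agent.LibGT48.Defs
import Pool.Agent.LibGT48.FIN
import Pool.Agent.LibGT48.T1

/-!
# LibGT48 TREE (SHORT, assembly): groups acting on rooted trees of bounded valency
-/

namespace GT48

open Subgroup GP48

universe u v

theorem TREE (d : ℕ) : ∃ β : ℝ, 0 < β ∧ ∀ (G : Type u) [Group G] (S : Finset G),
    Subgroup.closure (S : Set G) = ⊤ → Gro (fun n => (wball (S : Set G) n).ncard) β →
    ∀ (V : ℕ → Type v) [∀ n, MulAction G (V n)] (π : ∀ n, V (n + 1) → V n),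
    (∀ n (g : G) (v : V (n + 1)), π n (g • v) = g • π n v) → Subsingleton (V 0) →
    (∀ n (v : V n), {w | π n w = v}.encard ≤ d) →
    (∀ g : G, (∀ n (v : V n), g • v = v) → g = 1) →
    ∃ H : Subgroup G, H.FiniteIndex ∧ Group.IsNilpotent H := by
  obtain ⟨β, h0, hmain⟩ := FIN.{u} (Nat.factorial d)
  refine ⟨β, h0, ?_⟩
  intro G _ S hS hg V _ π hπ h1 hd hf
  refine hmain G S hS hg ?_
  intro x hx
  have h2 : ∃ n, ∃ v : V n, x • v ≠ v := by
    by_contra hcon
    push Not at hcon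
    exact hx (hf x hcon)
  obtain ⟨n, v, hv⟩ := h2
  obtain ⟨h3, h4⟩ := T1 d V π hπ h1 hd n
  refine ⟨(MulAction.toPermHom G (V n)).ker, inferInstance, ?_, ?_, h4⟩
  · exact Subgroup.finiteIndex_ker _
  · intro h5
    apply hv
    have h6 := congrArg (fun f => f v) (MonoidHom.mem_ker.1 h5)
    exact h6

end GT48
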